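import Pool.Agent.Helper96_DZ.StripAnn
import Pool.Agent.Helper96_GN.FieldUp
import Pool.Agent.BTL.Assembly

/-!
MP_f5cbfa_nt (helper96): lattice points in an elliptic annulus, `C W` points for `s ≤ W³`.
-/

set_option autoImplicit false

open MeasureTheory Set

open scoped BigOperators ENNReal

namespace Pool.Agent.Helper96_DZ

open Pool.Agent.BTL Pool.Agent.Helper30_FC

open Pool.Agent.Helper96_GN (zr dotz ql dq lattice_upper)

noncomputable section

/-- a vector with two entries as a point of the plane -/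
def of2 (m : Fin 2 → ℝ) : ℝ × ℝ := (m 0, m 1)

/-- an integer vector with two entries as a point of the plane -/
def ez2 : (Fin 2 → ℤ) ≃ ℤ × ℤ := finTwoArrowEquiv ℤ

theorem of2_zr (k : Fin 2 → ℤ) : of2 (zr k) = rc (ez2 k) := rfl

/-- the linear form `bf A (of2 m)` -/
def bl (A : ℝ × ℝ × ℝ) (m : Fin 2 → ℝ) : (Fin 2 → ℝ) →ₗ[ℝ] ℝ where
  toFun v := bf A (of2 m) (of2 v)
  map_add' v w := by
    simp only [bf, of2, Pi.add_apply]
    ring
  map_smul' c v := by
    simp only [bf, of2, Pi.smul_apply, smul_eq_mul, RingHom.id_apply]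
    ring

/-- the field of forms of the annulus -/
def fj (A : ℝ × ℝ × ℝ) (W : ℝ) (m : Fin 2 → ℝ) : Fin 3 → (Fin 2 → ℝ) →ₗ[ℝ] ℝ :=
  ![W⁻¹ • bl A m, (Real.sqrt W)⁻¹ • LinearMap.proj 0, (Real.sqrt W)⁻¹ • LinearMap.proj 1]

theorem ql_fj (A : ℝ × ℝ × ℝ) {W : ℝ} (hW : 0 < W) (m v : Fin 2 → ℝ) :
    ql (fj A W m) v = bf A (of2 m) (of2 v) ^ 2 / W ^ 2 + nr (of2 v) / W := by
  have h1 : (Real.sqrt W)⁻¹ ^ 2 = W⁻¹ := by
    rw [inv_pow, Real.sq_sqrt hW.le]
  simp only [ql, Fin.sum_univ_three, fj, Matrix.cons_val_zero, Matrix.cons_val_one,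
    Matrix.cons_val_two, Matrix.head_cons, Matrix.tail_cons, LinearMap.smul_apply, smul_eq_mul,
    mul_pow, h1, LinearMap.proj_apply]
  have h2 : bl A m v = bf A (of2 m) (of2 v) := rfl
  rw [h2]
  simp only [nr, of2]
  field_simp
  ring

theorem bf_sq_le {M : ℝ} (hM : 1 ≤ M) {A : ℝ × ℝ × ℝ} (hA : A ∈ KM M) (x v : ℝ × ℝ) :
    bf A x v ^ 2 ≤ M ^ 2 * nr x * nr v := by
  have h1 := qf_mul_qf A x v
  have h2 : 0 ≤ disc A * cd x v ^ 2 := mul_nonneg (disc_pos_of_KM hM hA).le (sq_nonneg _)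
  have h3 := (hA x).2
  have h4 := (hA v).2
  have h5 := Pool.Agent.Helper30_FC.qf_nonneg hM hA x
  have h6 := Pool.Agent.Helper30_FC.qf_nonneg hM hA v
  have h7 : qf A x * qf A v ≤ (M * nr x) * (M * nr v) := mul_le_mul h3 h4 h6 (h5.trans h3)
  nlinarith

theorem bf_add_left (A : ℝ × ℝ × ℝ) (x y v : ℝ × ℝ) : bf A (x + y) v = bf A x v + bf A y v := by
  simp only [bf, Prod.fst_add, Prod.snd_add]
  ring

/-- the field is slow -/
theorem slow_fj {M : ℝ} (hM : 1 ≤ M) {A : ℝ × ℝ × ℝ} (hA : A ∈ KM M) {W : ℝ} (hW : 0 < W)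
    {x m : Fin 2 → ℝ} (h : nr (of2 (x - m)) ≤ W) (v : Fin 2 → ℝ) :
    ql (fj A W x) v ≤ (2 * M ^ 2 + 2) * ql (fj A W m) v := by
  rw [ql_fj A hW, ql_fj A hW]
  have e : of2 x = of2 m + of2 (x - m) := by
    simp [of2]
  have h1 := bf_add_left A (of2 m) (of2 (x - m)) (of2 v)
  rw [← e] at h1
  have h2 := bf_sq_le hM hA (of2 (x - m)) (of2 v)
  have hn : 0 ≤ nr (of2 v) := nr_nonneg _
  have h3 : bf A (of2 (x - m)) (of2 v) ^ 2 ≤ M ^ 2 * W * nr (of2 v) :=
    h2.trans (by gcongr)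
  have h4 : bf A (of2 x) (of2 v) ^ 2 ≤ 2 * bf A (of2 m) (of2 v) ^ 2 +
      2 * (M ^ 2 * W * nr (of2 v)) := by
    rw [h1]
    nlinarith [sq_nonneg (bf A (of2 m) (of2 v) - bf A (of2 (x - m)) (of2 v))]
  have h5 : bf A (of2 x) (of2 v) ^ 2 / W ^ 2 ≤ 2 * (bf A (of2 m) (of2 v) ^ 2 / W ^ 2) +
      2 * M ^ 2 * (nr (of2 v) / W) := by
    calc bf A (of2 x) (of2 v) ^ 2 / W ^ 2 ≤ (2 * bf A (of2 m) (of2 v) ^ 2 +
        2 * (M ^ 2 * W * nr (of2 v))) / W ^ 2 := by gcongr
      _ = _ := by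
        field_simp
  have h6 : 0 ≤ bf A (of2 m) (of2 v) ^ 2 / W ^ 2 := by positivity
  have h7 : 0 ≤ nr (of2 v) / W := by positivity
  have h8 : 0 ≤ M ^ 2 := sq_nonneg M
  nlinarith [mul_nonneg h8 h6]

/-- the image `A x` -/
def im (A : ℝ × ℝ × ℝ) (x : ℝ × ℝ) : ℝ × ℝ := (A.1 * x.1 + A.2.1 * x.2, A.2.1 * x.1 + A.2.2 * x.2)

theorem nr_im_le {M : ℝ} (hM : 1 ≤ M) {A : ℝ × ℝ × ℝ} (hA : A ∈ KM M) (x : ℝ × ℝ) :
    nr (im A x) ≤ M * qf A x := by
  have h1 := qf_mul_qf A x (im A x)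
  have h2 : 0 ≤ disc A * cd x (im A x) ^ 2 := mul_nonneg (disc_pos_of_KM hM hA).le (sq_nonneg _)
  have h3 : bf A x (im A x) = nr (im A x) := by
    simp only [bf, im, nr]
    ring
  have h4 := (hA (im A x)).2
  have h5 := Pool.Agent.Helper30_FC.qf_nonneg hM hA x
  rw [h3] at h1
  have h6 : nr (im A x) ^ 2 ≤ nr (im A x) * (M * qf A x) := by
    have : qf A x * qf A (im A x) ≤ qf A x * (M * nr (im A x)) := mul_le_mul_of_nonneg_left h4 h5
    nlinarith
  rcases (nr_nonneg (im A x)).eq_or_lt with h0 | h0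
  · rw [← h0]
    exact mul_nonneg (by linarith) h5
  · nlinarith

/-- the dual vector turned by a right angle -/
def jz (k : ℤ × ℤ) : ℤ × ℤ := (k.2, -k.1)

theorem jz_inj : Function.Injective jz := by
  rintro ⟨a, b⟩ ⟨c, d⟩ h
  simp only [jz, Prod.mk.injEq, neg_inj] at h
  ext
  · exact h.2
  · exact h.1

theorem dual_fj {M : ℝ} (hM : 1 ≤ M) {A : ℝ × ℝ × ℝ} (hA : A ∈ KM M) {W s : ℝ} (hW : 1 ≤ W)
    {m : Fin 2 → ℝ} (h1 : W ≤ qf A (of2 m)) (h2 : qf A (of2 m) ≤ 2 * s) {k : Fin 2 → ℤ}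
    (hk : k ∈ dq (ql (fj A W m)) (Real.sqrt 2)) :
    jz (ez2 k) ≠ 0 ∧ rr A (rc (jz (ez2 k))) ≤ 4 * M ^ 2 * Real.sqrt s / W ∧
      |bf A (of2 m) (rc (jz (ez2 k)))| ≤ 2 * M * Real.sqrt s / Real.sqrt W := by
  obtain ⟨hk0, hk1⟩ := hk
  have hM0 : 0 < M := by linarith
  have hW0 : 0 < W := by linarith
  obtain ⟨q, hq⟩ : ∃ q : ℝ, q = qf A (of2 m) := ⟨_, rfl⟩
  have hq0 : 0 < q := by rw [hq]; linarith
  have hs0 : 0 < s := by linarith
  have hss : Real.sqrt s ^ 2 = s := Real.sq_sqrt hs0.le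
  have hsW : Real.sqrt W ^ 2 = W := Real.sq_sqrt hW0.le
  have hsW0 : 0 < Real.sqrt W := Real.sqrt_pos.2 hW0
  obtain ⟨h, hh⟩ : ∃ h : ℝ × ℝ, h = rc (jz (ez2 k)) := ⟨_, rfl⟩
  have hh' : h = ((k 1 : ℝ), -(k 0 : ℝ)) := by
    rw [hh]
    simp [rc, jz, ez2, finTwoArrowEquiv]
  have htwo : Real.sqrt 2 ^ 2 = 2 := Real.sq_sqrt (by norm_num)
  -- tangential
  have hv := hk1 ![-(im A (of2 m)).2, (im A (of2 m)).1]
  rw [ql_fj A hW0, htwo] at hv
  have e1 : dotz k ![-(im A (of2 m)).2, (im A (of2 m)).1] = bf A (of2 m) h := by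
    rw [hh']
    simp only [dotz, Fin.sum_univ_two, Matrix.cons_val_zero, Matrix.cons_val_one, im, bf]
    ring
  have e2 : of2 ![-(im A (of2 m)).2, (im A (of2 m)).1] = (-(im A (of2 m)).2, (im A (of2 m)).1) := by
    simp [of2]
  have e3 : bf A (of2 m) (-(im A (of2 m)).2, (im A (of2 m)).1) = 0 := by
    simp only [bf, im]
    ring
  have e4 : nr (-(im A (of2 m)).2, (im A (of2 m)).1) = nr (im A (of2 m)) := by
    simp only [nr]
    ring
  rw [e1, e2, e3, e4] at hv
  have h3 := nr_im_le hM hA (of2 m)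
  rw [← hq] at h3
  have hb : bf A (of2 m) h ^ 2 ≤ 2 * M * q / W := by
    calc bf A (of2 m) h ^ 2 ≤ 2 * (0 ^ 2 / W ^ 2 + nr (im A (of2 m)) / W) := hv
      _ ≤ 2 * (0 ^ 2 / W ^ 2 + M * q / W) := by gcongr
      _ = 2 * M * q / W := by ring
  -- radial
  have hr := hk1 m
  rw [ql_fj A hW0, htwo] at hr
  have e5 : bf A (of2 m) (of2 m) = q := by
    rw [hq]
    simp only [bf, qf]
    ring
  have e6 : cd (of2 m) h = -dotz k m := by
    rw [hh']
    simp only [dotz, Fin.sum_univ_two, cd, of2]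
    ring
  rw [e5] at hr
  have h4 : nr (of2 m) ≤ M * q := by
    have := (hA (of2 m)).1
    rw [div_le_iff₀ hM0, ← hq] at this
    linarith
  have h5 := qf_mul_qf A (of2 m) h
  rw [← hq, e6] at h5
  have h6 : disc A ≤ M ^ 2 := (KM_disc hM hA).2
  have hd0 := disc_pos_of_KM hM hA
  have h7 : qf A h ≤ 16 * M ^ 4 * s / W ^ 2 := by
    have h8 : q * qf A h ≤ 2 * M * q / W + M ^ 2 * (2 * (q ^ 2 / W ^ 2 + M * q / W)) := by
      rw [h5]
      refine add_le_add hb ?_
      have : (-dotz k m) ^ 2 = dotz k m ^ 2 := by ring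
      rw [this]
      refine mul_le_mul h6 (hr.trans ?_) (sq_nonneg _) (sq_nonneg _)
      gcongr
    have h9 : qf A h ≤ 2 * M / W + M ^ 2 * (2 * (q / W ^ 2 + M / W)) := by
      refine le_of_mul_le_mul_left (h8.trans (le_of_eq ?_)) hq0
      field_simp
    have h10 : 1 / W ≤ q / W ^ 2 := by
      rw [div_le_div_iff₀ hW0 (by positivity)]
      rw [← hq] at h1
      nlinarith
    have h11 : 0 ≤ q / W ^ 2 := by positivity
    have hM1 : M ≤ M ^ 4 := by
      have := pow_le_pow_right₀ hM (show 1 ≤ 4 by norm_num)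
      linarith [pow_one M]
    have hM2 : M ^ 2 ≤ M ^ 4 := pow_le_pow_right₀ hM (by norm_num)
    have hM3 : M ^ 3 ≤ M ^ 4 := pow_le_pow_right₀ hM (by norm_num)
    calc qf A h ≤ 2 * M / W + M ^ 2 * (2 * (q / W ^ 2 + M / W)) := h9
      _ = 2 * M * (1 / W) + 2 * M ^ 2 * (q / W ^ 2) + 2 * M ^ 3 * (1 / W) := by
          field_simp
          ring
      _ ≤ 2 * M ^ 4 * (q / W ^ 2) + 2 * M ^ 4 * (q / W ^ 2) + 2 * M ^ 4 * (q / W ^ 2) := by
          gcongr
      _ = 6 * M ^ 4 * (q / W ^ 2) := by ring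
      _ ≤ 6 * M ^ 4 * (2 * s / W ^ 2) := by
          rw [← hq] at h2
          gcongr
      _ ≤ 16 * M ^ 4 * s / W ^ 2 := by
          have : 0 ≤ M ^ 4 * s / W ^ 2 := by positivity
          have e : 6 * M ^ 4 * (2 * s / W ^ 2) = 12 * (M ^ 4 * s / W ^ 2) := by ring
          rw [e]
          have e' : 16 * M ^ 4 * s / W ^ 2 = 16 * (M ^ 4 * s / W ^ 2) := by ring
          rw [e']
          linarith
  refine ⟨?_, ?_, ?_⟩
  · intro h0
    apply hk0
    have h1' : h = 0 := by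
      rw [hh, h0]
      simp [rc]
    rw [hh', Prod.mk_eq_zero] at h1'
    funext i
    fin_cases i
    · simpa using h1'.2
    · simpa using h1'.1
  · rw [← hh, rr]
    apply Real.sqrt_le_iff.2
    refine ⟨by positivity, h7.trans (le_of_eq ?_)⟩
    rw [div_pow, mul_pow, mul_pow, hss]
    ring
  · rw [← hh]
    apply abs_le_of_sq_le_sq _ (by positivity)
    refine hb.trans ?_
    rw [div_pow, mul_pow, mul_pow, hss, hsW]
    rw [← hq] at h2
    have hMM : M ≤ M ^ 2 := by nlinarith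
    calc 2 * M * q / W ≤ 2 * M ^ 2 * (2 * s) / W := by gcongr
      _ = 2 ^ 2 * M ^ 2 * s / W := by ring

theorem measurable_fj (A : ℝ × ℝ × ℝ) (W : ℝ) (j : Fin 3) (v : Fin 2 → ℝ) :
    Measurable fun m => fj A W m j v := by
  have h : ∀ v : Fin 2 → ℝ, Measurable fun m : Fin 2 → ℝ => bl A m v := by
    intro v
    have : (fun m : Fin 2 → ℝ => bl A m v) = fun m => A.1 * m 0 * v 0 +
        A.2.1 * (m 0 * v 1 + m 1 * v 0) + A.2.2 * m 1 * v 1 := rfl
    rw [this]
    fun_prop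
  fin_cases j
  · exact (h v).const_mul _
  · exact measurable_const
  · exact measurable_const

theorem pos_fj (A : ℝ × ℝ × ℝ) {W : ℝ} (hW : 0 < W) (m v : Fin 2 → ℝ) (hv : v ≠ 0) :
    0 < ql (fj A W m) v := by
  rw [ql_fj A hW]
  have h1 : 0 < nr (of2 v) := by
    rcases (nr_nonneg (of2 v)).eq_or_lt with h | h
    · exfalso
      apply hv
      simp only [nr, of2] at h
      funext i
      fin_cases i
      · simp only [Fin.zero_eta, Fin.isValue, Pi.zero_apply]
        nlinarith [sq_nonneg (v 0), sq_nonneg (v 1)]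
      · simp only [Fin.mk_one, Fin.isValue, Pi.zero_apply]
        nlinarith [sq_nonneg (v 0), sq_nonneg (v 1)]
    · exact h
  positivity

theorem measurePreserving_of2 : MeasurePreserving of2 volume volume :=
  volume_preserving_finTwoArrow ℝ

/-- the explicit constant -/
def cj (M C1 : ℝ) : ℝ := 1 + (((Fintype.card (Fin 2) : ℝ) + 1) * (2 * M ^ 2 + 2) *
    (2 * (2 * M ^ 2 + 2) + 1) * (3 * Real.exp Real.pi)) ^ Fintype.card (Fin 2) *
    ((8 * M + 128 * M ^ 6 * C1) * (3 + M))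

/-- the main case, explicit -/
theorem ann_core {M : ℝ} (hM : 1 ≤ M) {C1 : ℝ} (hC1 : 1 ≤ C1)
    (hsh : ∀ (S : Finset (ℤ × ℤ)) (N : ℝ), 0 ≤ N → (∀ x ∈ S, x ≠ 0 ∧ ln x ≤ N) →
      ∑ x ∈ S, ln x ^ (-1 : ℝ) ≤ C1 * N ^ (2 - 1 : ℝ)) :
    ∀ A ∈ KM M, ∀ W s : ℝ, 1 ≤ W →
    s ≤ W ^ 3 → 2 * (3 + M) * W ≤ s → ∀ S : Finset (ℤ × ℤ), (∀ z ∈ S, |qz A z - s| ≤ W) →
      (S.card : ℝ) ≤ cj M C1 * W := by
  have hM0 : 0 < M := by linarith
  obtain ⟨C0, hC0⟩ : ∃ C0 : ℝ, C0 = (((Fintype.card (Fin 2) : ℝ) + 1) * (2 * M ^ 2 + 2) *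
    (2 * (2 * M ^ 2 + 2) + 1) * (3 * Real.exp Real.pi)) ^ Fintype.card (Fin 2) := ⟨_, rfl⟩
  have hC00 : 0 ≤ C0 := by
    rw [hC0]
    positivity
  rw [cj, ← hC0]
  intro A hA W s hW hs3 hsW S hS
  have hW0 : 0 < W := by linarith
  have hs0 : 0 < s := lt_of_lt_of_le (by positivity) hsW
  obtain ⟨B, hB⟩ : ∃ B : ℝ, B = (3 + M) * W := ⟨_, rfl⟩
  have hB0 : 0 ≤ B := by
    rw [hB]
    positivity
  have hBs : 2 * B ≤ s := by
    rw [hB]
    linarith
  have hWB : W ≤ B := by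
    rw [hB]
    nlinarith
  obtain ⟨S1, hS1⟩ : ∃ S1 : Set (Fin 2 → ℝ), S1 = {m | |qf A (of2 m) - s| ≤ W} := ⟨_, rfl⟩
  obtain ⟨S2, hS2⟩ : ∃ S2 : Set (Fin 2 → ℝ), S2 = {m | |qf A (of2 m) - s| ≤ B} := ⟨_, rfl⟩
  have hmq : Measurable fun m : Fin 2 → ℝ => qf A (of2 m) :=
    (measurable_qf A).comp measurePreserving_of2.measurable
  have hS2m : MeasurableSet S2 := by
    rw [hS2]
    exact measurableSet_le (hmq.sub_const _).abs measurable_const
  have key := lattice_upper (l := fj A W) (fun j v => measurable_fj A W j v)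
    (fun m v hv => pos_fj A hW0 m v hv) (a := 2 * M ^ 2 + 2) (by nlinarith) (S := S1)
    (F1 := S1.indicator 1) (F2 := S2.indicator 1) (by
      intro x _ m hm v
      have h1 : nr (of2 (x - m)) ≤ W := by
        rw [ql_fj A hW0] at hm
        have h2 : nr (of2 (x - m)) / W ≤ 1 := by
          have : 0 ≤ bf A (of2 x) (of2 (x - m)) ^ 2 / W ^ 2 := by positivity
          linarith
        rwa [div_le_one hW0] at h2
      refine ⟨slow_fj hM hA hW0 h1 v, slow_fj hM hA hW0 ?_ v⟩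
      have e : of2 (m - x) = -of2 (x - m) := by
        simp [of2]
      rw [e]
      simpa [nr] using h1)
    (by
      intro x hx
      rw [Set.indicator_of_notMem hx]) (by
      intro x hx m hm
      rw [Set.indicator_of_mem hx]
      have hm2 : m ∈ S2 := by
        rw [hS1] at hx
        rw [hS2]
        have hx' : |qf A (of2 x) - s| ≤ W := hx
        change |qf A (of2 m) - s| ≤ B
        rw [ql_fj A hW0] at hm
        have h0 : 0 ≤ bf A (of2 x) (of2 (x - m)) ^ 2 / W ^ 2 := by positivity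
        have h0' : 0 ≤ nr (of2 (x - m)) / W := div_nonneg (nr_nonneg _) hW0.le
        have h1 : nr (of2 (x - m)) ≤ W := by
          have h2 : nr (of2 (x - m)) / W ≤ 1 := by linarith
          rwa [div_le_one hW0] at h2
        have h2 : |bf A (of2 x) (of2 (x - m))| ≤ W := by
          have h3 : bf A (of2 x) (of2 (x - m)) ^ 2 / W ^ 2 ≤ 1 := by linarith
          rw [div_le_one (by positivity)] at h3
          exact abs_le_of_sq_le_sq h3 hW0.le
        have h4 : qf A (of2 m) = qf A (of2 x) - 2 * bf A (of2 x) (of2 (x - m)) +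
            qf A (of2 (x - m)) := by
          simp only [qf, bf, of2, Pi.sub_apply]
          ring
        have h5 := (hA (of2 (x - m))).2
        have h6 := Pool.Agent.Helper30_FC.qf_nonneg hM hA (of2 (x - m))
        have h7 : M * nr (of2 (x - m)) ≤ M * W := by gcongr
        rw [h4, abs_le]
        rw [abs_le] at hx' h2
        constructor <;> nlinarith
      rw [Set.indicator_of_mem hm2]
      exact le_refl (1 : ℝ)) (measurable_one.indicator hS2m)
  rw [← hC0] at key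
  obtain ⟨H, hH⟩ : ∃ H : ℝ, H = 4 * M ^ 2 * Real.sqrt s / W := ⟨_, rfl⟩
  obtain ⟨τ, hτ⟩ : ∃ τ : ℝ, τ = 2 * M * Real.sqrt s / Real.sqrt W := ⟨_, rfl⟩
  have hH0 : 0 ≤ H := by
    rw [hH]
    positivity
  have hτ0 : 0 ≤ τ := by
    rw [hτ]
    positivity
  -- the dual count
  have hdual : ∀ m ∈ S2, ((dq (ql (fj A W m)) (Real.sqrt (Fintype.card (Fin 2)))).ncard : ℝ≥0∞) ≤
      ∑ k ∈ NS M A H, ({m : Fin 2 → ℝ | |bf A (of2 m) (rc k)| ≤ τ}).indicator 1 m := by
    intro m hm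
    classical
    rw [hS2] at hm
    have hm' : |qf A (of2 m) - s| ≤ B := hm
    rw [abs_le] at hm'
    have h1 : W ≤ qf A (of2 m) := by linarith
    have h2 : qf A (of2 m) ≤ 2 * s := by linarith
    have h3 : (∑ k ∈ NS M A H, ({m : Fin 2 → ℝ | |bf A (of2 m) (rc k)| ≤ τ}).indicator 1 m :
        ℝ≥0∞) = (((NS M A H).filter fun k => |bf A (of2 m) (rc k)| ≤ τ).card : ℝ≥0∞) := by
      rw [Finset.card_filter]
      push_cast
      refine Finset.sum_congr rfl fun k _ => ?_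
      by_cases hk : |bf A (of2 m) (rc k)| ≤ τ
      · rw [Set.indicator_of_mem (show m ∈ {m : Fin 2 → ℝ | |bf A (of2 m) (rc k)| ≤ τ} from hk)]
        simp [hk]
      · rw [Set.indicator_of_notMem (show m ∉ {m : Fin 2 → ℝ | |bf A (of2 m) (rc k)| ≤ τ} from hk)]
        simp [hk]
    rw [h3]
    have h4 : (dq (ql (fj A W m)) (Real.sqrt (Fintype.card (Fin 2)))).ncard ≤
        ((NS M A H).filter fun k => |bf A (of2 m) (rc k)| ≤ τ).card := by
      rw [← Set.ncard_coe_finset]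
      have h5 : ((Fintype.card (Fin 2) : ℕ) : ℝ) = 2 := by simp
      rw [h5]
      refine Set.ncard_le_ncard_of_injOn (fun k => jz (ez2 k)) ?_
        (fun a _ b _ hab => ez2.injective (jz_inj hab)) (Finset.finite_toSet _)
      intro k hk
      obtain ⟨g1, g2, g3⟩ := dual_fj hM hA hW h1 h2 hk
      rw [Finset.coe_filter]
      refine ⟨(mem_NS hM hA).2 ⟨g1, ?_⟩, ?_⟩
      · rw [hH]
        exact g2
      · rw [hτ]
        exact g3
    exact_mod_cast h4
  -- the integral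
  have hinv : ∑ k ∈ NS M A H, 1 / rr A (rc k) ≤ M ^ 2 * C1 * H := by
    have h1 := hsh (NS M A H) (M * H) (by positivity) (by
      intro k hk
      have h2 := (mem_NS hM hA).1 hk
      exact ⟨h2.1, (ln_le_rr hM hA k).trans (by gcongr; exact h2.2)⟩)
    have h3 : ∑ k ∈ NS M A H, 1 / rr A (rc k) ≤ ∑ k ∈ NS M A H, M * ln k ^ (-1 : ℝ) := by
      refine Finset.sum_le_sum fun k hk => ?_
      have h2 := (mem_NS hM hA).1 hk
      have h4 := one_le_ln h2.1
      have h5 := ln_le_rr hM hA k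
      rw [Real.rpow_neg_one, div_le_iff₀ (by
        by_contra hn
        have : rr A (rc k) = 0 := le_antisymm (not_lt.1 hn) (rr_nonneg _ _)
        rw [this, mul_zero] at h5
        linarith)]
      have h6 : 0 < ln k := by linarith
      field_simp
      linarith
    rw [← Finset.mul_sum] at h3
    have h7 : (M * H) ^ (2 - 1 : ℝ) = M * H := by
      norm_num
    rw [h7] at h1
    calc _ ≤ _ := h3
      _ ≤ M * (C1 * (M * H)) := by gcongr
      _ = _ := by ring
  have hint : ∫⁻ m, ENNReal.ofReal (S2.indicator 1 m) *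
      (1 + ((dq (ql (fj A W m)) (Real.sqrt (Fintype.card (Fin 2)))).ncard : ℝ≥0∞)) ≤
      ENNReal.ofReal ((8 * M + 128 * M ^ 6 * C1) * B) := by
    have hind : ∀ k : ℤ × ℤ, MeasurableSet {m : Fin 2 → ℝ | |bf A (of2 m) (rc k)| ≤ τ} := by
      intro k
      refine measurableSet_le ?_ measurable_const
      have : (fun m : Fin 2 → ℝ => |bf A (of2 m) (rc k)|) = fun m => |A.1 * m 0 * (rc k).1 +
        A.2.1 * (m 0 * (rc k).2 + m 1 * (rc k).1) + A.2.2 * m 1 * (rc k).2| := rfl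
      rw [this]
      fun_prop
    have h1 : ∀ m, ENNReal.ofReal (S2.indicator 1 m) *
        (1 + ((dq (ql (fj A W m)) (Real.sqrt (Fintype.card (Fin 2)))).ncard : ℝ≥0∞)) ≤
        S2.indicator 1 m + ∑ k ∈ NS M A H,
          (S2 ∩ {m : Fin 2 → ℝ | |bf A (of2 m) (rc k)| ≤ τ}).indicator 1 m := by
      intro m
      by_cases hm : m ∈ S2
      · rw [Set.indicator_of_mem hm, Set.indicator_of_mem hm]
        simp only [Pi.one_apply, ENNReal.ofReal_one, one_mul]
        refine add_le_add le_rfl ((hdual m hm).trans (le_of_eq ?_))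
        refine Finset.sum_congr rfl fun k _ => ?_
        by_cases hk : m ∈ {m : Fin 2 → ℝ | |bf A (of2 m) (rc k)| ≤ τ}
        · rw [Set.indicator_of_mem hk, Set.indicator_of_mem (show m ∈ S2 ∩
              {m : Fin 2 → ℝ | |bf A (of2 m) (rc k)| ≤ τ} from ⟨hm, hk⟩)]
        · rw [Set.indicator_of_notMem hk, Set.indicator_of_notMem fun h => hk h.2]
      · rw [Set.indicator_of_notMem hm]
        simp
    refine (lintegral_mono h1).trans ?_
    rw [lintegral_add_left (measurable_one.indicator hS2m), lintegral_indicator_one hS2m,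
      lintegral_finsetSum]
    · have h2 : volume S2 ≤ ENNReal.ofReal (8 * M * B) := by
        have h3 : volume S2 = volume {x : ℝ × ℝ | |qf A x - s| ≤ B} := by
          rw [hS2]
          refine measurePreserving_of2.measure_preimage_emb
            (MeasurableEquiv.finTwoArrow.measurableEmbedding) {x : ℝ × ℝ | |qf A x - s| ≤ B}
        rw [h3]
        exact area_ann hM hA hB0 s
      have h3 : ∑ k ∈ NS M A H, ∫⁻ m, (S2 ∩ {m : Fin 2 → ℝ | |bf A (of2 m) (rc k)| ≤ τ}).indicator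
          1 m ≤ ENNReal.ofReal (128 * M ^ 6 * C1 * B) := by
        calc _ ≤ ∑ k ∈ NS M A H, ENNReal.ofReal (16 * M * B * τ / Real.sqrt s *
              (1 / rr A (rc k))) := by
              refine Finset.sum_le_sum fun k hk => ?_
              rw [lintegral_indicator_one (hS2m.inter (hind k))]
              have h4 : volume (S2 ∩ {m : Fin 2 → ℝ | |bf A (of2 m) (rc k)| ≤ τ}) =
                  volume {x : ℝ × ℝ | |qf A x - s| ≤ B ∧ |bf A x (rc k)| ≤ τ} := by
                rw [hS2]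
                exact measurePreserving_of2.measure_preimage_emb
                  (MeasurableEquiv.finTwoArrow.measurableEmbedding)
                  {x : ℝ × ℝ | |qf A x - s| ≤ B ∧ |bf A x (rc k)| ≤ τ}
              rw [h4]
              have h5 := (mem_NS hM hA).1 hk
              refine (strip_ann hM hA hB0 hs0 hτ0 (qf_pos_of_ne hM hA h5.1)).trans
                (ENNReal.ofReal_le_ofReal (le_of_eq ?_))
              rw [rr]
              ring
          _ = ENNReal.ofReal (16 * M * B * τ / Real.sqrt s * ∑ k ∈ NS M A H,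
              1 / rr A (rc k)) := by
              rw [← ENNReal.ofReal_sum_of_nonneg, Finset.mul_sum]
              intro k _
              have := rr_nonneg A (rc k)
              positivity
          _ ≤ _ := by
              refine ENNReal.ofReal_le_ofReal ?_
              have h5 : 0 ≤ 16 * M * B * τ / Real.sqrt s := by positivity
              refine (mul_le_mul_of_nonneg_left hinv h5).trans ?_
              rw [hτ, hH]
              have hw : Real.sqrt W * Real.sqrt W = W := Real.mul_self_sqrt hW0.le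
              have hsw0 : 0 < Real.sqrt W := Real.sqrt_pos.2 hW0
              have hss0 : 0 < Real.sqrt s := Real.sqrt_pos.2 hs0
              have h6 : Real.sqrt s ≤ W * Real.sqrt W := by
                apply Real.sqrt_le_iff.2
                refine ⟨by positivity, hs3.trans (le_of_eq ?_)⟩
                rw [mul_pow, Real.sq_sqrt hW0.le]
                ring
              have e : 16 * M * B * (2 * M * Real.sqrt s / Real.sqrt W) / Real.sqrt s *
                  (M ^ 2 * C1 * (4 * M ^ 2 * Real.sqrt s / W)) =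
                  128 * M ^ 6 * C1 * B * (Real.sqrt s / (W * Real.sqrt W)) := by
                field_simp
                ring
              rw [e]
              have h7 : Real.sqrt s / (W * Real.sqrt W) ≤ 1 := by
                rw [div_le_one (by positivity)]
                exact h6
              calc _ ≤ 128 * M ^ 6 * C1 * B * 1 := by gcongr
                _ = _ := by ring
      refine (add_le_add h2 h3).trans ?_
      rw [← ENNReal.ofReal_add (by positivity) (by positivity)]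
      refine ENNReal.ofReal_le_ofReal (le_of_eq ?_)
      ring
    · intro k _
      exact measurable_one.indicator (hS2m.inter (hind k))
  have h1 : (S.card : ℝ≥0∞) ≤ ∑' x : Fin 2 → ℤ, ENNReal.ofReal (S1.indicator 1 (zr x)) := by
    have h2 : ∑' x : Fin 2 → ℤ, ENNReal.ofReal (S1.indicator 1 (zr x)) =
        ∑' z : ℤ × ℤ, ENNReal.ofReal (S1.indicator 1 (zr (ez2.symm z))) :=
      (ez2.symm.tsum_eq fun x => ENNReal.ofReal (S1.indicator 1 (zr x))).symm
    rw [h2]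
    refine le_trans ?_ (ENNReal.sum_le_tsum S)
    rw [Finset.card_eq_sum_ones]
    push_cast
    refine Finset.sum_le_sum fun z hz => ?_
    have h3 : zr (ez2.symm z) ∈ S1 := by
      rw [hS1]
      change |qf A (of2 (zr (ez2.symm z))) - s| ≤ W
      rw [of2_zr, Equiv.apply_symm_apply]
      exact hS z hz
    rw [Set.indicator_of_mem h3]
    simp
  have h2 := h1.trans (key.trans (mul_le_mul_right hint _))
  rw [← ENNReal.ofReal_mul hC00, ← ENNReal.ofReal_natCast] at h2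
  have h3 := (ENNReal.ofReal_le_ofReal_iff (by positivity)).1 h2
  rw [hB] at h3
  have h4 : C0 * ((8 * M + 128 * M ^ 6 * C1) * ((3 + M) * W)) ≤
      (1 + C0 * ((8 * M + 128 * M ^ 6 * C1) * (3 + M))) * W := by
    have : 0 ≤ W := hW0.le
    nlinarith
  exact h3.trans h4

theorem cj_le {M : ℝ} (hM : 1 ≤ M) {C1 : ℝ} (hC1 : 1 ≤ C1) :
    cj M C1 + 81 * M ^ 2 ≤ 10 ^ 8 * Real.exp Real.pi ^ 2 * C1 * M ^ 15 := by
  have hM0 : 0 < M := by linarith
  have he : 1 ≤ Real.exp Real.pi ^ 2 := one_le_pow₀ (Real.one_le_exp Real.pi_pos.le)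
  have h1 : (((Fintype.card (Fin 2) : ℝ) + 1) * (2 * M ^ 2 + 2) *
      (2 * (2 * M ^ 2 + 2) + 1) * (3 * Real.exp Real.pi)) ^ Fintype.card (Fin 2) ≤
      104976 * Real.exp Real.pi ^ 2 * M ^ 8 := by
    have e : ((Fintype.card (Fin 2) : ℕ) : ℝ) = 2 := by simp
    rw [e]
    have h2 : ((2 : ℝ) + 1) * (2 * M ^ 2 + 2) * (2 * (2 * M ^ 2 + 2) + 1) * (3 * Real.exp Real.pi) ≤
        324 * Real.exp Real.pi * M ^ 4 := by
      have h3 : 2 * M ^ 2 + 2 ≤ 4 * M ^ 2 := by nlinarith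
      have h4 : 2 * (2 * M ^ 2 + 2) + 1 ≤ 9 * M ^ 2 := by nlinarith
      calc ((2 : ℝ) + 1) * (2 * M ^ 2 + 2) * (2 * (2 * M ^ 2 + 2) + 1) * (3 * Real.exp Real.pi) ≤
          (2 + 1) * (4 * M ^ 2) * (9 * M ^ 2) * (3 * Real.exp Real.pi) := by gcongr
        _ = _ := by ring
    calc _ ≤ (324 * Real.exp Real.pi * M ^ 4) ^ 2 := by
          simp only [Fintype.card_fin]
          gcongr
      _ = _ := by ring
  have h5 : (8 * M + 128 * M ^ 6 * C1) * (3 + M) ≤ 544 * C1 * M ^ 7 := by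
    have h6 : M ≤ M ^ 6 := by
      have := pow_le_pow_right₀ hM (show 1 ≤ 6 by norm_num)
      linarith [pow_one M]
    have h7 : 8 * M ≤ 8 * (M ^ 6 * C1) := by
      have : M ^ 6 ≤ M ^ 6 * C1 := le_mul_of_one_le_right (by positivity) hC1
      linarith
    calc (8 * M + 128 * M ^ 6 * C1) * (3 + M) ≤ (8 * (M ^ 6 * C1) + 128 * M ^ 6 * C1) * (4 * M) := by
          gcongr
          linarith
      _ = _ := by ring
  have h8 : 1 ≤ M ^ 15 := one_le_pow₀ hM
  have h9 : M ^ 2 ≤ M ^ 15 := pow_le_pow_right₀ hM (by norm_num)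
  have h10 : 1 ≤ Real.exp Real.pi ^ 2 * C1 := by nlinarith
  have h11 : M ^ 15 ≤ Real.exp Real.pi ^ 2 * C1 * M ^ 15 := le_mul_of_one_le_left (by positivity) h10
  have h12 : cj M C1 ≤ 1 + 104976 * Real.exp Real.pi ^ 2 * M ^ 8 * (544 * C1 * M ^ 7) := by
    rw [cj]
    gcongr
  have h13 : 104976 * Real.exp Real.pi ^ 2 * M ^ 8 * (544 * C1 * M ^ 7) =
      57106944 * (Real.exp Real.pi ^ 2 * C1 * M ^ 15) := by ring
  rw [h13] at h12
  have h14 : 10 ^ 8 * Real.exp Real.pi ^ 2 * C1 * M ^ 15 =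
      10 ^ 8 * (Real.exp Real.pi ^ 2 * C1 * M ^ 15) := by ring
  rw [h14]
  linarith

/-- **(J)** lattice points in an annulus, constant polynomial in `M` -/
theorem annulusP : ∃ C : ℝ, 1 ≤ C ∧ ∀ M : ℝ, 1 ≤ M → ∀ A ∈ KM M, ∀ W s : ℝ, 1 ≤ W →
    s ≤ W ^ 3 → ∀ S : Finset (ℤ × ℤ), (∀ z ∈ S, |qz A z - s| ≤ W) →
      (S.card : ℝ) ≤ C * M ^ 15 * W := by
  obtain ⟨C1, hC1, hsh⟩ := Pool.Agent.BTL.Assembly.shellAll 1 (by norm_num) (by norm_num)
  have he : 1 ≤ Real.exp Real.pi ^ 2 := one_le_pow₀ (Real.one_le_exp Real.pi_pos.le)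
  refine ⟨10 ^ 8 * Real.exp Real.pi ^ 2 * C1, by nlinarith, ?_⟩
  intro M hM A hA W s hW hs3 S hS
  have hW0 : 0 < W := by linarith
  have hM0 : 0 < M := by linarith
  have hcj : 0 ≤ cj M C1 := by
    rw [cj]
    positivity
  refine le_trans ?_ (mul_le_mul_of_nonneg_right (cj_le hM hC1) hW0.le)
  rcases le_or_gt (2 * (3 + M) * W) s with hc | hc
  · have := ann_core hM hC1 hsh A hA W s hW hs3 hc S hS
    have h1 : 0 ≤ 81 * M ^ 2 * W := by positivity
    nlinarith
  · have h1 := Pool.Agent.BTL.Assembly.cardLn S (3 * M * Real.sqrt W) (by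
      have : 1 ≤ Real.sqrt W := Real.one_le_sqrt.2 hW
      nlinarith) (by
      intro x hx
      have h2 := abs_le.1 (hS x hx)
      have h3 := (hA (rc x)).1
      rw [div_le_iff₀ hM0] at h3
      have h4 : qf A (rc x) = qz A x := rfl
      rw [h4] at h3
      have h5 : ln x ^ 2 ≤ (3 * M * Real.sqrt W) ^ 2 := by
        rw [ln_sq, mul_pow, Real.sq_sqrt hW0.le]
        have h6 : nz x = nr (rc x) := rfl
        rw [h6]
        have h7 : qz A x ≤ 9 * M * W := by nlinarith [h2.2]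
        nlinarith
      exact le_of_sq_le_sq h5 (by positivity))
    have h2 : 9 * (3 * M * Real.sqrt W) ^ 2 = 81 * M ^ 2 * W := by
      rw [mul_pow, Real.sq_sqrt hW0.le]
      ring
    rw [h2] at h1
    have h3 : 0 ≤ cj M C1 * W := by positivity
    linarith

/-- **(J)** lattice points in an annulus -/
theorem annulus {M : ℝ} (hM : 1 ≤ M) : ∃ C : ℝ, 1 ≤ C ∧ ∀ A ∈ KM M, ∀ W s : ℝ, 1 ≤ W →
    s ≤ W ^ 3 → ∀ S : Finset (ℤ × ℤ), (∀ z ∈ S, |qz A z - s| ≤ W) → (S.card : ℝ) ≤ C * W := by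
  obtain ⟨C, hC1, hC⟩ := annulusP
  refine ⟨C * M ^ 15, ?_, hC M hM⟩
  have : 1 ≤ M ^ 15 := one_le_pow₀ hM
  nlinarith

/-- **(J)** in the form `C (W + s^(1/3))` -/
theorem annulus' {M : ℝ} (hM : 1 ≤ M) : ∃ C : ℝ, 1 ≤ C ∧ ∀ A ∈ KM M, ∀ W s : ℝ, 1 ≤ W →
    0 ≤ s → {z : ℤ × ℤ | |qz A z - s| ≤ W}.Finite ∧
      ({z : ℤ × ℤ | |qz A z - s| ≤ W}.ncard : ℝ) ≤ C * (W + s ^ (1 / 3 : ℝ)) := by
  obtain ⟨C, hC1, hC⟩ := annulus hM
  refine ⟨C, hC1, ?_⟩
  intro A hA W s hW hs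
  have hM0 : 0 < M := by linarith
  have hfin : {z : ℤ × ℤ | |qz A z - s| ≤ W}.Finite := by
    refine (Finset.finite_toSet (ball (M * (s + W) + 1))).subset fun z hz => ?_
    have h1 : |qz A z - s| ≤ W := hz
    rw [abs_le] at h1
    rw [Finset.mem_coe, mem_ball]
    have h3 := (hA (rc z)).1
    rw [div_le_iff₀ hM0] at h3
    have h4 : qf A (rc z) = qz A z := rfl
    have h5 : nz z = nr (rc z) := rfl
    rw [h4, ← h5] at h3
    have h6 : 0 ≤ M * (s + W) := by positivity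
    have h7 : nz z ≤ M * (s + W) := by nlinarith
    nlinarith
  refine ⟨hfin, ?_⟩
  have hs3 : 0 ≤ s ^ (1 / 3 : ℝ) := Real.rpow_nonneg hs _
  have h := hC A hA (W + s ^ (1 / 3 : ℝ)) s (by linarith) (by
    have h1 : (s ^ (1 / 3 : ℝ)) ^ 3 = s := by
      rw [← Real.rpow_natCast, ← Real.rpow_mul hs]
      norm_num
    calc s = (s ^ (1 / 3 : ℝ)) ^ 3 := h1.symm
      _ ≤ (W + s ^ (1 / 3 : ℝ)) ^ 3 := by
        gcongr
        linarith) hfin.toFinset (by
      intro z hz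
      rw [Set.Finite.mem_toFinset] at hz
      have h1 : |qz A z - s| ≤ W := hz
      linarith)
  rw [Set.ncard_eq_toFinset_card _ hfin]
  exact h

end

end Pool.Agent.Helper96_DZ
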