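import Pool.Agent.Helper96_DZ.Grand
import Pool.Agent.F5H.StmtsA

/-!
MP_f5cbfa_nt (helper96): `DZStmt`, the differences with a zero component.
-/

set_option autoImplicit false

open MeasureTheory Set

open scoped BigOperators ENNReal

namespace Pool.Agent.Helper96_DZ

open Pool.Agent.BTL Pool.Agent.Helper30_FC Pool.Agent.F5S Pool.Agent.F5H

theorem r3_add (x h : Z6) : r3 x + r3 h = r3 (x + h) := by
  simp only [r3, rc, Prod.mk_add_mk, Prod.fst_add, Prod.snd_add, Int.cast_add]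

/-- values of the six points -/
theorem six_values {e : ℝ} {p : ℝ × ℝ} {A : ℝ × ℝ × ℝ} {s s' : ℝ} {x y : R6} (he : 0 < e)
    (h1 : |qf A x.1 - (p.1 + p.2) - s| < e) (h2 : |qf A x.2.1 - p.2 - s| < e)
    (h3 : |qf A x.2.2 - s| < e) (k1 : |qf A y.1 - (p.1 + p.2) - s'| < e)
    (k2 : |qf A y.2.1 - p.2 - s'| < e) (k3 : |qf A y.2.2 - s'| < e)
    (hz : x.1 = y.1 ∨ x.2.1 = y.2.1 ∨ x.2.2 = y.2.2) {c : ℝ} (hc : 4 * e + |p.1| + 2 * |p.2| ≤ c) :
    (|qf A x.1 - qf A x.2.1| ≤ c ∧ |qf A x.1 - qf A x.2.2| ≤ c ∧ |qf A x.2.1 - qf A x.2.2| ≤ c) ∧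
    |qf A y.1 - qf A x.1| ≤ c ∧ |qf A y.2.1 - qf A x.2.1| ≤ c ∧ |qf A y.2.2 - qf A x.2.2| ≤ c := by
  rw [abs_lt] at h1 h2 h3 k1 k2 k3
  have a1 := neg_abs_le p.1
  have a2 := le_abs_self p.1
  have a3 := neg_abs_le p.2
  have a4 := le_abs_self p.2
  have hs : |s - s'| ≤ 2 * e := by
    rw [abs_le]
    rcases hz with hz | hz | hz
    · rw [← hz] at k1
      constructor <;> linarith
    · rw [← hz] at k2
      constructor <;> linarith
    · rw [← hz] at k3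
      constructor <;> linarith
  rw [abs_le] at hs
  refine ⟨⟨?_, ?_, ?_⟩, ?_, ?_, ?_⟩ <;> rw [abs_le] <;> constructor <;> linarith

theorem nr_le_of_norm {u : ℝ × ℝ} {l : ℝ} (h : ‖u‖ ≤ l) : nr u ≤ 2 * l ^ 2 := by
  have h1 : |u.1| ≤ l := (norm_fst_le u).trans h
  have h2 : |u.2| ≤ l := (norm_snd_le u).trans h
  have h3 : u.1 ^ 2 ≤ l ^ 2 := by
    rw [← sq_abs]
    exact pow_le_pow_left₀ (abs_nonneg _) h1 2
  have h4 : u.2 ^ 2 ≤ l ^ 2 := by
    rw [← sq_abs]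
    exact pow_le_pow_left₀ (abs_nonneg _) h2 2
  simp only [nr]
  linarith

theorem abs_dr_le {u v : ℝ × ℝ} {p q : ℝ} (hu : ‖u‖ ≤ p) (hv : ‖v‖ ≤ q) : |dr u v| ≤ 2 * p * q := by
  have h1 : |u.1| ≤ p := (norm_fst_le u).trans hu
  have h2 : |u.2| ≤ p := (norm_snd_le u).trans hu
  have h3 : |v.1| ≤ q := (norm_fst_le v).trans hv
  have h4 : |v.2| ≤ q := (norm_snd_le v).trans hv
  have hp : 0 ≤ p := (abs_nonneg _).trans h1
  simp only [dr]
  refine (abs_sub _ _).trans ?_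
  rw [abs_mul, abs_mul]
  have h5 : |u.1| * |v.2| ≤ p * q := mul_le_mul h1 h4 (abs_nonneg _) hp
  have h6 : |u.2| * |v.1| ≤ p * q := mul_le_mul h2 h3 (abs_nonneg _) hp
  linarith

theorem norm_le_of_nr {u : ℝ × ℝ} {l : ℝ} (hl : 0 ≤ l) (h : nr u ≤ l ^ 2) : ‖u‖ ≤ l := by
  simp only [nr] at h
  refine max_le ?_ ?_
  · exact abs_le_of_sq_le_sq (by nlinarith [sq_nonneg u.2]) hl
  · exact abs_le_of_sq_le_sq (by nlinarith [sq_nonneg u.1]) hl

/-- points near a good centre -/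
theorem near_good {L K T : ℝ} (hL : 1 ≤ L) (hK : 1 ≤ K) (hT : 1 ≤ T) (h1 : 36 * L * K ≤ T)
    {c u v : ℝ × ℝ} {c' : ℝ × ℝ} (hc : nr c ≤ (2 * T) ^ 2) (hc' : nr c' ≤ (2 * T) ^ 2)
    (hd : T ^ 2 / K ≤ |dr c c'|) (hu : ‖u - c‖ ≤ L) (hv : ‖v - c'‖ ≤ L) :
    nr u < (3 * T) ^ 2 ∧ nr v < (3 * T) ^ 2 ∧ T ^ 2 / (2 * K) ≤ |dr u v| := by
  have hT0 : 0 < T := by linarith
  have hK0 : 0 < K := by linarith
  have hLT : 36 * L ≤ T := by nlinarith
  have key : ∀ {c u : ℝ × ℝ}, nr c ≤ (2 * T) ^ 2 → ‖u - c‖ ≤ L → nr u < (3 * T) ^ 2 := by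
    intro c u hc hu
    have h2 := nr_le_of_norm hu
    have h3 : nr u ≤ 2 * nr c + 2 * nr (u - c) := by
      simp only [nr, Prod.fst_sub, Prod.snd_sub]
      nlinarith [sq_nonneg (u.1 - 2 * c.1), sq_nonneg (u.2 - 2 * c.2)]
    nlinarith
  have nu := key hc hu
  have nv := key hc' hv
  refine ⟨nu, nv, ?_⟩
  have e : dr u v = dr c c' + dr (u - c) v + dr c (v - c') := by
    simp only [dr, Prod.fst_sub, Prod.snd_sub]
    ring
  have a1 := abs_dr_le hu (norm_le_of_nr (by linarith) nv.le : ‖v‖ ≤ 3 * T)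
  have a2 := abs_dr_le (norm_le_of_nr (by linarith) hc : ‖c‖ ≤ 2 * T) hv
  have a3 : |dr c c'| ≤ |dr u v| + |dr (u - c) v| + |dr c (v - c')| := by
    have e2 : dr c c' = dr u v - dr (u - c) v - dr c (v - c') := by
      rw [e]
      ring
    rw [e2]
    refine (abs_sub _ _).trans (add_le_add (abs_sub _ _) le_rfl)
  have a4 : 10 * L * T ≤ T ^ 2 / (2 * K) := by
    rw [le_div_iff₀ (by positivity)]
    nlinarith
  have a5 : T ^ 2 / K = T ^ 2 / (2 * K) + T ^ 2 / (2 * K) := by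
    field_simp
    norm_num
  linarith

theorem dr_rc (a b : ℤ × ℤ) : dr (rc a) (rc b) = (dt a b : ℝ) := by
  simp only [dr, rc, dt]
  push_cast
  ring

/-- where the pair kernel does not vanish -/
theorem support (kaf : KAFStmt) (faf : FAFStmt) (chk : CHKStmt) {M e : ℝ} (hM : 1 ≤ M) (he : 0 < e)
    (p : ℝ × ℝ) {c : ℝ} (hc : 4 * e + |p.1| + 2 * |p.2| ≤ c) {L R K T : ℝ} (hR : 0 < R)
    (P : Par (2 * M) c K L T) {W : R6 → ℝ} (hW : Measurable W) (hW1 : ∀ c, 0 ≤ W c ∧ W c ≤ 1)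
    (hWg : ∀ c, W c ≠ 0 → good T K c) {A : ℝ × ℝ × ℝ} {x h : Z6} (hh : ¬ NZ h)
    (hne : chK M A * FA L R e p W A (r3 x) (r3 x + r3 h) ≠ 0) :
    (x.1 ∈ ball (3 * T) ∧ x.2.1 ∈ ball (3 * T) ∧ x.2.2 ∈ ball (3 * T)) ∧
      Gd (T ^ 2 / (2 * K)) x.1 x.2.1 x.2.2 ∧ A ∈ EE (2 * M) c L x h := by
  have hL0 : 0 < L := by linarith [P.hL]
  have hF := faf M L R e hM hL0 hR he p W hW hW1
  have hchk : chK M A ≠ 0 := left_ne_zero_of_mul hne
  have hFA : FA L R e p W A (r3 x) (r3 x + r3 h) ≠ 0 := right_ne_zero_of_mul hne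
  obtain ⟨c0, hc0, hx0, hy0⟩ := hF.2.2.1 A (r3 x) (r3 x + r3 h) hFA
  obtain ⟨hn, hd⟩ := hWg c0 hc0
  have hRV : RV R e p A (r3 x) (r3 x + r3 h) ≠ 0 := right_ne_zero_of_mul hFA
  obtain ⟨z, hz⟩ : ∃ z : ℝ × ℝ, PR R (z.1 - z.2) * (KA e p A z.1 (r3 x) *
      KA e p A z.2 (r3 x + r3 h)) ≠ 0 := by
    by_contra hcon
    push Not at hcon
    apply hRV
    unfold RV
    simp only [hcon]
    exact integral_zero _ _
  have hz1 := left_ne_zero_of_mul (right_ne_zero_of_mul hz)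
  have hz2 := right_ne_zero_of_mul (right_ne_zero_of_mul hz)
  have k1 := (kaf e he p).2.2.1 A z.1 (r3 x) hz1
  have k2 := (kaf e he p).2.2.1 A z.2 (r3 x + r3 h) hz2
  have hzero : (r3 x).1 = (r3 x + r3 h).1 ∨ (r3 x).2.1 = (r3 x + r3 h).2.1 ∨
      (r3 x).2.2 = (r3 x + r3 h).2.2 := by
    unfold NZ at hh
    by_cases h1 : h.1 = 0
    · left
      simp [r3, h1, rc]
    · by_cases h2 : h.2.1 = 0
      · right; left
        simp [r3, h2, rc]
      · by_cases h3 : h.2.2 = 0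
        · right; right
          simp [r3, h3, rc]
        · exact absurd ⟨h1, h2, h3⟩ hh
  have sv := six_values he k1.1 k1.2.1 k1.2.2 k2.1 k2.2.1 k2.2.2 hzero hc
  -- norms of the components
  have c1 : ‖(r3 x - c0).1‖ ≤ L := (norm_fst_le _).trans hx0
  have c2 : ‖(r3 x - c0).2.1‖ ≤ L := ((norm_fst_le _).trans (norm_snd_le _)).trans hx0
  have c3 : ‖(r3 x - c0).2.2‖ ≤ L := ((norm_snd_le _).trans (norm_snd_le _)).trans hx0
  have g12 := near_good P.hL P.hK P.hT P.h1 (c := c0.1) (c' := c0.2.1) (u := rc x.1)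
    (v := rc x.2.1) hn.1 hn.2.1 hd.1 c1 c2
  have g13 := near_good P.hL P.hK P.hT P.h1 (c := c0.1) (c' := c0.2.2) (u := rc x.1)
    (v := rc x.2.2) hn.1 hn.2.2 hd.2.1 c1 c3
  have g23 := near_good P.hL P.hK P.hT P.h1 (c := c0.2.1) (c' := c0.2.2) (u := rc x.2.1)
    (v := rc x.2.2) hn.2.1 hn.2.2 hd.2.2 c2 c3
  have hh2 : ‖r3 h‖ ≤ 2 * L := by
    have e1 : r3 h = (r3 x + r3 h - c0) - (r3 x - c0) := by abel
    rw [e1]
    refine (norm_sub_le _ _).trans ?_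
    linarith
  have hln : ∀ g : ℤ × ℤ, ‖rc g‖ ≤ 2 * L → ln g ≤ 3 * L := by
    intro g hg
    have h1 := nr_le_of_norm hg
    rw [ln]
    apply Real.sqrt_le_iff.2
    refine ⟨by linarith, ?_⟩
    have h2 : nz g = nr (rc g) := rfl
    rw [h2]
    nlinarith
  have d1 : ‖(r3 h).1‖ ≤ 2 * L := (norm_fst_le _).trans hh2
  have d2 : ‖(r3 h).2.1‖ ≤ 2 * L := ((norm_fst_le _).trans (norm_snd_le _)).trans hh2
  have d3 : ‖(r3 h).2.2‖ ≤ 2 * L := ((norm_snd_le _).trans (norm_snd_le _)).trans hh2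
  refine ⟨⟨mem_ball.2 g12.1, mem_ball.2 g12.2.1, mem_ball.2 g13.2.1⟩, ⟨?_, ?_, ?_⟩, ?_⟩
  · rw [← dr_rc]
    exact g12.2.2
  · rw [← dr_rc]
    exact g13.2.2
  · rw [← dr_rc]
    exact g23.2.2
  · have e1 : (r3 x + r3 h).1 = rc (x.1 + h.1) := by rw [r3_add]; rfl
    have e2 : (r3 x + r3 h).2.1 = rc (x.2.1 + h.2.1) := by rw [r3_add]; rfl
    have e3 : (r3 x + r3 h).2.2 = rc (x.2.2 + h.2.2) := by rw [r3_add]; rfl
    rw [e1, e2, e3] at sv
    refine ⟨⟨(chk M hM).2.2.1 A hchk, sv.1.1, sv.1.2.1, sv.1.2.2⟩, ⟨hln _ d1, sv.2.1⟩,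
      ⟨hln _ d2, sv.2.2.1⟩, ⟨hln _ d3, sv.2.2.2⟩⟩

/-- the value for one pair -/
theorem fh_le (kaf : KAFStmt) (faf : FAFStmt) (chk : CHKStmt) {M e : ℝ} (hM : 1 ≤ M) (he : 0 < e)
    (p : ℝ × ℝ) {c : ℝ} (hc : 4 * e + |p.1| + 2 * |p.2| ≤ c) {L R K T : ℝ} (hR : 0 < R)
    (P : Par (2 * M) c K L T) {W : R6 → ℝ} (hW : Measurable W) (hW1 : ∀ c, 0 ≤ W c ∧ W c ≤ 1)
    (hWg : ∀ c, W c ≠ 0 → good T K c) {x h : Z6} (hh : ¬ NZ h) :
    ENNReal.ofReal (FF M L R e p W (r3 x) (r3 x + r3 h)) ≤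
      ENNReal.ofReal (256 * e ^ 2) * volume (EE (2 * M) c L x h) := by
  have hL0 : 0 < L := by linarith [P.hL]
  have hF := faf M L R e hM hL0 hR he p W hW hW1
  have hfin : volume (EE (2 * M) c L x h) ≠ ⊤ := by
    refine ne_top_of_le_ne_top (measure_closedBall_lt_top (x := (0 : ℝ × ℝ × ℝ)) (r := 2 * M)).ne
      (measure_mono fun A hA => ?_)
    rw [mem_closedBall_zero_iff]
    exact KM_abs_le (by linarith) hA.1.1
  have hint : Integrable ((EE (2 * M) c L x h).indicator fun _ => (256 * e ^ 2 : ℝ)) := by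
    rw [integrable_indicator_iff (measurableSet_EE _ _ _ _ _)]
    exact integrableOn_const hfin
  have h1 : FF M L R e p W (r3 x) (r3 x + r3 h) ≤
      ∫ A, (EE (2 * M) c L x h).indicator (fun _ => (256 * e ^ 2 : ℝ)) A := by
    refine integral_mono_of_nonneg (Filter.Eventually.of_forall fun A => ?_) hint
      (Filter.Eventually.of_forall fun A => ?_)
    · exact mul_nonneg ((chk M hM).1 A).1 (hF.2.1 A _ _).1
    · by_cases hA : chK M A * FA L R e p W A (r3 x) (r3 x + r3 h) = 0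
      · simp only [hA]
        exact Set.indicator_nonneg (fun _ _ => by positivity) _
      · have hs := support kaf faf chk hM he p hc hR P hW hW1 hWg hh hA
        rw [Set.indicator_of_mem hs.2.2]
        have k1 := (chk M hM).1 A
        have k2 := hF.2.1 A (r3 x) (r3 x + r3 h)
        have e1 : (64 : ℝ) * (4 * e ^ 2) = 256 * e ^ 2 := by ring
        rw [e1] at k2
        exact (mul_le_of_le_one_left k2.1 k1.2).trans k2.2
  rw [integral_indicator (measurableSet_EE _ _ _ _ _), setIntegral_const, smul_eq_mul] at h1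
  refine (ENNReal.ofReal_le_ofReal h1).trans (le_of_eq ?_)
  rw [ENNReal.ofReal_mul (measureReal_nonneg), mul_comm, Measure.real, ENNReal.ofReal_toReal hfin]

end Pool.Agent.Helper96_DZ
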