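import Pool.Agent.Helper96_DZ.VolC
import Pool.Agent.Helper96_DZ.Fin

/-!
MP_f5cbfa_nt (helper96), row VOL: the sum over the differences of the volumes of the regions `Lev`
is at most `C Px T ^ 12 T ^ (6 + 2 rho0)`.
-/

set_option autoImplicit false

open MeasureTheory Set

open scoped BigOperators ENNReal

namespace Pool.Agent.Helper96_DZ

open Pool.Agent.BTL Pool.Agent.F5S Pool.Agent.Helper30_FC Pool.Agent.F5H

/-- VOL: total volume of the regions of midpoints. -/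
def VOLMStmt : Prop := ∃ C T0 : ℝ, 1 ≤ C ∧ 1 ≤ T0 ∧ ∀ T : ℝ, T0 ≤ T →
  ∀ H : Finset Z6, (∀ h ∈ H, NZ h ∧ T ^ (677 / 2000 : ℝ) < V2 h) →
    ∑ h ∈ H, volume {m : R6 | Lev 6 T (r3 h) m} ≤
      ENNReal.ofReal (C * (Px T ^ 12 * T ^ (6 + 2 * rho0)))

theorem norm_rc_le (x : ℤ × ℤ) : ‖rc x‖ ≤ ln x := by
  have h := ln_sq x
  rw [nz_eq] at h
  have h0 := ln_nonneg x
  rw [Prod.norm_def]
  refine max_le ?_ ?_
  · rw [Real.norm_eq_abs]
    exact abs_le_of_sq_le_sq (by simp only [rc]; nlinarith [sq_nonneg (x.2 : ℝ)]) h0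
  · rw [Real.norm_eq_abs]
    exact abs_le_of_sq_le_sq (by simp only [rc]; nlinarith [sq_nonneg (x.1 : ℝ)]) h0

theorem norm_rc_eq (x : ℤ × ℤ) : ‖rc x‖ = ‖x‖ := by
  simp only [rc, Prod.norm_def, Int.norm_eq_abs, Real.norm_eq_abs]

/-- two of the three components are large -/
theorem exists_small {D : ℝ} {h : Z6} (hV : D < V2 h) : ∃ k : Fin 3, ∀ l, l ≠ k →
    D < ‖t3 (r3 h) l‖ := by
  have e : ∀ l, ‖t3 (r3 h) l‖ = ![‖h.1‖, ‖h.2.1‖, ‖h.2.2‖] l := by
    intro l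
    fin_cases l
    · exact norm_rc_eq h.1
    · exact norm_rc_eq h.2.1
    · exact norm_rc_eq h.2.2
  unfold V2 at hV
  rcases lt_max_iff.1 hV with h1 | h1
  · obtain ⟨h2, h3⟩ := lt_min_iff.1 h1
    refine ⟨2, fun l hl => ?_⟩
    rw [e]
    fin_cases l
    · exact h2
    · exact h3
    · exact absurd rfl hl
  · rcases lt_max_iff.1 h1 with h1 | h1
    · obtain ⟨h2, h3⟩ := lt_min_iff.1 h1
      refine ⟨1, fun l hl => ?_⟩
      rw [e]
      fin_cases l
      · exact h2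
      · exact absurd rfl hl
      · exact h3
    · obtain ⟨h2, h3⟩ := lt_min_iff.1 h1
      refine ⟨0, fun l hl => ?_⟩
      rw [e]
      fin_cases l
      · exact absurd rfl hl
      · exact h2
      · exact h3

/-- one difference -/
theorem vol_lev {T : ℝ} (hb : Big T) {h : Z6} (hN : NZ h) (hV : T ^ (677 / 2000 : ℝ) < V2 h) :
    volume {m : R6 | Lev 6 T (r3 h) m} ≤
      ENNReal.ofReal (10 ^ 30 * Px T ^ 12 * T ^ 3 * Rx T * (1 / ln h.1 * (1 / ln h.2.1) *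
        (1 / ln h.2.2))) := by
  have hT := hb.hT
  have hT0 : 0 < T := by linarith
  have hP := hb.hP
  have hR := hb.hR
  have hL := hb.hL
  obtain ⟨s1, s2, s3, s4⟩ := hb.small
  rcases Set.eq_empty_or_nonempty {m : R6 | Lev 6 T (r3 h) m} with h0 | ⟨m0, hm0⟩
  · rw [h0, measure_empty]
    exact zero_le
  have hhL : ‖r3 h‖ ≤ 6 * Lx T := hm0.hh
  obtain ⟨M, hM⟩ : ∃ M, M = 12 * Px T := ⟨_, rfl⟩
  have hM1 : 1 ≤ M := by rw [hM]; linarith
  have hM0 : 0 < M := by linarith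
  obtain ⟨x, hx⟩ : ∃ x : Fin 3 → ℤ × ℤ, x = ![h.1, h.2.1, h.2.2] := ⟨_, rfl⟩
  have ht3 : ∀ l, t3 (r3 h) l = rc (x l) := by
    intro l
    rw [hx]
    fin_cases l <;> rfl
  have hx0 : ∀ l, x l ≠ 0 := by
    intro l
    rw [hx]
    fin_cases l
    · exact hN.1
    · exact hN.2.1
    · exact hN.2.2
  have hln : ∀ l, 0 < ln (x l) := fun l => lt_of_lt_of_le one_pos (one_le_ln (hx0 l))
  have hsq : ∀ A ∈ KM M, ∀ l, ln (x l) / M ≤ Real.sqrt (qf A (t3 (r3 h) l)) := by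
    intro A hA l
    rw [ht3]
    have := ln_le_rr hM1 hA (x l)
    rw [div_le_iff₀ hM0]
    unfold rr at this
    linarith
  have hq0 : ∀ A ∈ KM M, ∀ l, 0 < qf A (t3 (r3 h) l) := by
    intro A hA l
    rw [ht3]
    exact qf_pos_of_ne hM1 hA (hx0 l)
  obtain ⟨k, hk⟩ := exists_small hV
  obtain ⟨X, hX⟩ : ∃ X, X = 2 ^ 15 * (M ^ 9 * Rx T) / (T ^ 3 * (ln (x 0) * ln (x 1) * ln (x 2))) :=
    ⟨_, rfl⟩
  have l0 := hln 0
  have l1 := hln 1
  have l2 := hln 2
  have hX0 : 0 ≤ X := by rw [hX]; positivity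
  have hone : ∀ A ∈ KM (12 * Px T), volume {m : R6 | GG T (12 * Px T) (12 * Px T * Rx T) (r3 h) A m} ≤
      ENNReal.ofReal X := by
    intro A hA
    rw [← hM] at hA ⊢
    refine (vol_GG hM1 hA hT hM0.le (by positivity) (hq0 A hA) (fun l => ?_) k
      (fun l hl => ?_)).trans (ENNReal.ofReal_le_ofReal ?_)
    · have h1 := (hA (t3 (r3 h) l)).2
      have h2 : nr (t3 (r3 h) l) ≤ 2 * (6 * Lx T) ^ 2 := nr_le_of_norm ((norm_t3_le _ l).trans hhL)
      have h3 : M * nr (t3 (r3 h) l) ≤ M * (2 * (6 * Lx T) ^ 2) := mul_le_mul_of_nonneg_left h2 hM0.le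
      have h4 : M * (2 * (6 * Lx T) ^ 2) = 864 * Px T * Lx T ^ 2 := by rw [hM]; ring
      nlinarith
    · have h1 := hk l hl
      have h2 : T ^ (677 / 2000 : ℝ) / M ≤ Real.sqrt (qf A (t3 (r3 h) l)) := by
        refine le_trans ?_ (hsq A hA l)
        refine div_le_div_of_nonneg_right ?_ hM0.le
        refine h1.le.trans ?_
        rw [ht3]
        exact norm_rc_le _
      have hD0 : 0 < T ^ (677 / 2000 : ℝ) := Real.rpow_pos_of_pos hT0 _
      have h3 : M * Rx T + M ≤ 2 * M * Rx T := by nlinarith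
      have h4 : (M * Rx T + M) / Real.sqrt (qf A (t3 (r3 h) l)) ≤
          2 * M * Rx T / (T ^ (677 / 2000 : ℝ) / M) :=
        div_le_div₀ (by positivity) h3 (by positivity) h2
      have h5 := pow_le_pow_left₀ (div_nonneg (by positivity) (Real.sqrt_nonneg _)) h4 2
      have h6 : (2 * M * Rx T / (T ^ (677 / 2000 : ℝ) / M)) ^ 2 =
          4 * M ^ 4 * Rx T ^ 2 / (T ^ (677 / 2000 : ℝ)) ^ 2 := by
        field_simp
        ring
      have h7 : 16 * M ^ 4 * Rx T ^ 2 ≤ (T ^ (677 / 2000 : ℝ)) ^ 2 * T ^ 2 := by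
        have h8 := hb.c2
        have e : 16 * M ^ 4 * Rx T ^ 2 = 331776 * (Px T ^ 4 * Rx T ^ 2) := by rw [hM]; ring
        rw [e]
        have : 0 ≤ Px T ^ 4 * Rx T ^ 2 := by positivity
        nlinarith
      have h8 : 4 * M ^ 4 * Rx T ^ 2 / (T ^ (677 / 2000 : ℝ)) ^ 2 ≤ T ^ 2 / 4 := by
        rw [div_le_iff₀ (by positivity)]
        nlinarith
      rw [h6] at h5
      linarith
    · rw [hX, Fin.prod_univ_three]
      have a0 := hsq A hA 0
      have a1 := hsq A hA 1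
      have a2 := hsq A hA 2
      have b0 : 0 < ln (x 0) / M := by positivity
      have b1 : 0 < ln (x 1) / M := by positivity
      have b2 : 0 < ln (x 2) / M := by positivity
      have h1 : ln (x 0) / M * (ln (x 1) / M) * (ln (x 2) / M) ≤
          Real.sqrt (qf A (t3 (r3 h) 0)) * Real.sqrt (qf A (t3 (r3 h) 1)) *
            Real.sqrt (qf A (t3 (r3 h) 2)) := by
        refine mul_le_mul (mul_le_mul a0 a1 b1.le (b0.le.trans a0)) a2 b2.le ?_
        exact mul_nonneg (b0.le.trans a0) (b1.le.trans a1)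
      have h2 : (T / 2) ^ 3 * (ln (x 0) / M * (ln (x 1) / M) * (ln (x 2) / M)) ≤
          (T / 2) ^ 3 * (Real.sqrt (qf A (t3 (r3 h) 0)) * Real.sqrt (qf A (t3 (r3 h) 1)) *
            Real.sqrt (qf A (t3 (r3 h) 2))) := mul_le_mul_of_nonneg_left h1 (by positivity)
      refine (div_le_div_of_nonneg_left (by positivity) (by positivity) h2).trans (le_of_eq ?_)
      field_simp
      ring
  refine (vol_lev_le hb (r3 h) hX0 hone).trans (ENNReal.ofReal_le_ofReal ?_)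
  have e0 : x 0 = h.1 := by rw [hx]; rfl
  have e1 : x 1 = h.2.1 := by rw [hx]; rfl
  have e2 : x 2 = h.2.2 := by rw [hx]; rfl
  rw [e0] at l0
  rw [e1] at l1
  rw [e2] at l2
  have e : 10 ^ 6 * T ^ 6 * (X * (8 * (12 * Px T) ^ 3)) =
      10 ^ 6 * 2 ^ 18 * 12 ^ 12 * (Px T ^ 12 * T ^ 3 * Rx T * (1 / ln h.1 * (1 / ln h.2.1) *
        (1 / ln h.2.2))) := by
    rw [hX, hM, e0, e1, e2]
    field_simp
    ring
  rw [e]
  have hY : 0 ≤ Px T ^ 12 * T ^ 3 * Rx T * (1 / ln h.1 * (1 / ln h.2.1) * (1 / ln h.2.2)) := by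
    positivity
  calc 10 ^ 6 * 2 ^ 18 * 12 ^ 12 * (Px T ^ 12 * T ^ 3 * Rx T * (1 / ln h.1 * (1 / ln h.2.1) *
        (1 / ln h.2.2))) ≤ 10 ^ 30 * (Px T ^ 12 * T ^ 3 * Rx T * (1 / ln h.1 * (1 / ln h.2.1) *
        (1 / ln h.2.2))) := mul_le_mul_of_nonneg_right (by norm_num) hY
    _ = _ := by ring

theorem volm : VOLMStmt := by
  classical
  obtain ⟨T0, hT0, hbig⟩ := big_of_large
  obtain ⟨C1, hC1, hsh⟩ := Pool.Agent.BTL.Assembly.shellAll 1 (by norm_num) (by norm_num)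
  refine ⟨10 ^ 30 * (C1 * 12) ^ 3, T0, ?_, hT0, ?_⟩
  · have : 1 ≤ (C1 * 12) ^ 3 := one_le_pow₀ (by linarith)
    linarith
  intro T hT H hH
  have hb := hbig T hT
  have hT1 := hb.hT
  have hTp : 0 < T := by linarith
  have hP := hb.hP
  have hR := hb.hR
  have hL := hb.hL
  obtain ⟨B, hB⟩ : ∃ B, B = G0 (4 * Lx T) := ⟨_, rfl⟩
  obtain ⟨H', hH'⟩ : ∃ H', H' = H.filter fun h => ‖r3 h‖ ≤ 6 * Lx T := ⟨_, rfl⟩
  have hsum : ∑ h ∈ H, volume {m : R6 | Lev 6 T (r3 h) m} =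
      ∑ h ∈ H', volume {m : R6 | Lev 6 T (r3 h) m} := by
    rw [hH', Finset.sum_filter]
    refine Finset.sum_congr rfl fun h _ => ?_
    split_ifs with h1
    · rfl
    · have : {m : R6 | Lev 6 T (r3 h) m} = ∅ := by
        rw [Set.eq_empty_iff_forall_notMem]
        intro m hm
        exact h1 hm.hh
      rw [this, measure_empty]
  have hln : ∀ x : ℤ × ℤ, x ≠ 0 → ‖rc x‖ ≤ 6 * Lx T → x ∈ B := by
    intro x hx h1
    rw [hB, mem_G0]
    refine ⟨hx, ?_⟩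
    have h2 : nr (rc x) ≤ 2 * (6 * Lx T) ^ 2 := nr_le_of_norm h1
    have h3 : ln x ^ 2 ≤ 2 * (6 * Lx T) ^ 2 := by
      rw [ln_sq, nz_eq]
      exact h2
    have h4 : 0 ≤ ln x := ln_nonneg x
    nlinarith
  have hsub : H' ⊆ B ×ˢ (B ×ˢ B) := by
    intro h hh
    rw [hH', Finset.mem_filter] at hh
    obtain ⟨hN, _⟩ := hH h hh.1
    have h1 := fun l => (norm_t3_le (r3 h) l).trans hh.2
    rw [Finset.mem_product, Finset.mem_product]
    exact ⟨hln _ hN.1 (h1 0), hln _ hN.2.1 (h1 1), hln _ hN.2.2 (h1 2)⟩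
  have hlp : ∀ x : ℤ × ℤ, 0 ≤ 1 / ln x := fun x => div_nonneg zero_le_one (ln_nonneg x)
  obtain ⟨K, hK⟩ : ∃ K, K = 10 ^ 30 * Px T ^ 12 * T ^ 3 * Rx T := ⟨_, rfl⟩
  have hK0 : 0 ≤ K := by rw [hK]; positivity
  have hB1 : ∑ x ∈ B, 1 / ln x ≤ C1 * (12 * Lx T) := by
    have h1 := hsh B (3 * (4 * Lx T)) (by linarith) fun g hg => by
      rw [hB] at hg
      exact mem_G0.1 hg
    have h7 : (3 * (4 * Lx T)) ^ (2 - 1 : ℝ) = 12 * Lx T := by norm_num; ring
    rw [h7] at h1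
    refine le_trans (le_of_eq ?_) h1
    refine Finset.sum_congr rfl fun x _ => ?_
    rw [Real.rpow_neg_one, one_div]
  have hS0 : 0 ≤ ∑ x ∈ B, 1 / ln x := Finset.sum_nonneg fun x _ => hlp x
  rw [hsum]
  calc ∑ h ∈ H', volume {m : R6 | Lev 6 T (r3 h) m}
      ≤ ∑ h ∈ H', ENNReal.ofReal (K * (1 / ln h.1 * (1 / ln h.2.1) * (1 / ln h.2.2))) := by
        refine Finset.sum_le_sum fun h hh => ?_
        rw [hH', Finset.mem_filter] at hh
        obtain ⟨hN, hV⟩ := hH h hh.1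
        have := vol_lev hb hN hV
        rw [← hK] at this
        exact this
    _ ≤ ∑ h ∈ B ×ˢ (B ×ˢ B), ENNReal.ofReal (K * (1 / ln h.1 * (1 / ln h.2.1) *
          (1 / ln h.2.2))) := Finset.sum_le_sum_of_subset hsub
    _ = ENNReal.ofReal (∑ h ∈ B ×ˢ (B ×ˢ B), K * (1 / ln h.1 * (1 / ln h.2.1) *
          (1 / ln h.2.2))) := by
        rw [ENNReal.ofReal_sum_of_nonneg]
        intro h _
        exact mul_nonneg hK0 (mul_nonneg (mul_nonneg (hlp _) (hlp _)) (hlp _))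
    _ ≤ ENNReal.ofReal (K * (C1 * (12 * Lx T)) ^ 3) := by
        refine ENNReal.ofReal_le_ofReal ?_
        have e : ∑ h ∈ B ×ˢ (B ×ˢ B), K * (1 / ln h.1 * (1 / ln h.2.1) * (1 / ln h.2.2)) =
            K * (∑ x ∈ B, 1 / ln x) ^ 3 := by
          have e1 : ∑ h ∈ B ×ˢ (B ×ˢ B), K * (1 / ln h.1 * (1 / ln h.2.1) * (1 / ln h.2.2)) =
              K * ∑ x ∈ B, ∑ y ∈ B, ∑ z ∈ B, 1 / ln x * (1 / ln y) * (1 / ln z) := by
            rw [Finset.sum_product, Finset.mul_sum]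
            refine Finset.sum_congr rfl fun x _ => ?_
            rw [Finset.sum_product, Finset.mul_sum]
            refine Finset.sum_congr rfl fun y _ => ?_
            rw [Finset.mul_sum]
          rw [e1, pow_succ, pow_two, Finset.sum_mul_sum, Finset.sum_mul]
          congr 1
          refine Finset.sum_congr rfl fun x _ => ?_
          rw [Finset.sum_mul_sum]
        rw [e]
        exact mul_le_mul_of_nonneg_left (pow_le_pow_left₀ hS0 hB1 3) hK0
    _ ≤ _ := by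
        refine ENNReal.ofReal_le_ofReal (le_of_eq ?_)
        have e : T ^ (6 + 2 * rho0) = T ^ 3 * Rx T * Lx T ^ 3 := by
          unfold Rx Lx
          rw [← Real.rpow_natCast (T ^ (277 / 500 : ℝ)), ← Real.rpow_mul hTp.le,
            ← Real.rpow_natCast T 3, ← Real.rpow_add hTp, ← Real.rpow_add hTp]
          congr 1
          push_cast
          ring
        rw [e, hK]
        ring

end Pool.Agent.Helper96_DZ
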