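import Pool.Agent.Helper96_DZ.Fin

/-!
MP_f5cbfa_nt (helper96): `DZStmt`, the differences with a zero component.
-/

set_option autoImplicit false

open MeasureTheory Set

open scoped BigOperators ENNReal

namespace Pool.Agent.Helper96_DZ

open Pool.Agent.BTL Pool.Agent.Helper30_FC Pool.Agent.F5S Pool.Agent.F5H

/-- the conditions hold for large `T` -/
theorem par_large {M c κ T : ℝ} (hM : 1 ≤ M) (hc : 1 ≤ c) (hκ : 0 ≤ κ) (hκ2 : κ ≤ 1 / 1000)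
    (hT : (100 * M ^ 2 * c) ^ 3 ≤ T) : Par M c (T ^ κ) (T ^ (277 / 500 : ℝ)) T := by
  obtain ⟨S, hS⟩ : ∃ S, S = 100 * M ^ 2 * c := ⟨_, rfl⟩
  have hM2 : 1 ≤ M ^ 2 := one_le_pow₀ hM
  have hS1 : 100 ≤ S := by
    rw [hS]
    have := one_le_mul_of_one_le_of_one_le hM2 hc
    linarith
  rw [← hS] at hT
  have hT1 : 1 ≤ T := le_trans (one_le_pow₀ (by linarith)) hT
  have hT0 : 0 < T := by linarith
  obtain ⟨K, hK⟩ : ∃ K, K = T ^ κ := ⟨_, rfl⟩
  obtain ⟨L, hL⟩ : ∃ L, L = T ^ (277 / 500 : ℝ) := ⟨_, rfl⟩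
  have hK1 : 1 ≤ K := hK ▸ Real.one_le_rpow hT1 hκ
  have hL1 : 1 ≤ L := hL ▸ Real.one_le_rpow hT1 (by norm_num)
  have hK0 : 0 < K := by linarith
  have hL0 : 0 < L := by linarith
  have hST : S ≤ T ^ (2 / 5 : ℝ) := by
    have h1 : S ≤ T ^ (1 / 3 : ℝ) := by
      have h2 : S = (S ^ 3) ^ (1 / 3 : ℝ) := by
        rw [← Real.rpow_natCast, ← Real.rpow_mul (by linarith)]
        norm_num
      rw [h2]
      exact Real.rpow_le_rpow (by positivity) hT (by norm_num)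
    exact h1.trans (Real.rpow_le_rpow_of_exponent_le hT1 (by norm_num))
  have hKL : K * L ≤ T ^ (3 / 5 : ℝ) := by
    rw [hK, hL, ← Real.rpow_add hT0]
    exact Real.rpow_le_rpow_of_exponent_le hT1 (by linarith)
  have hmain : S * (K * L) ≤ T := by
    calc S * (K * L) ≤ T ^ (2 / 5 : ℝ) * T ^ (3 / 5 : ℝ) := by gcongr
      _ = T ^ (1 : ℝ) := by
        rw [← Real.rpow_add hT0]
        norm_num
      _ = T := Real.rpow_one T
  have hKL0 : 0 < K * L := by positivity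
  rw [← hK, ← hL]
  refine ⟨hM, hc, hK1, hL1, hT1, ?_, ?_, ?_⟩
  · nlinarith
  · have h1 : S * L / 6 ≤ T / (6 * K) := by
      rw [le_div_iff₀ (by positivity)]
      calc S * L / 6 * (6 * K) = S * (K * L) := by ring
        _ ≤ T := hmain
    have h2 : (S * L / 6) ^ 2 ≤ (T / (6 * K)) ^ 2 := pow_le_pow_left₀ (by positivity) h1 2
    refine le_trans ?_ h2
    rw [hS]
    have hc2 : 1 ≤ c ^ 2 := one_le_pow₀ hc
    have hL2 : 1 ≤ L ^ 2 := one_le_pow₀ hL1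
    have a1 : M ^ 2 * c ^ 2 ≤ M ^ 2 * (c ^ 2 * L ^ 2) :=
      mul_le_mul_of_nonneg_left (le_mul_of_one_le_right (by positivity) hL2) (by positivity)
    have a2 : M ^ 2 * L ^ 2 ≤ M ^ 2 * (c ^ 2 * L ^ 2) :=
      mul_le_mul_of_nonneg_left (le_mul_of_one_le_left (by positivity) hc2) (by positivity)
    have a3 : M ^ 2 * (c ^ 2 * L ^ 2) ≤ M ^ 2 * (M ^ 2 * (c ^ 2 * L ^ 2)) :=
      le_mul_of_one_le_left (by positivity) hM2
    have e1 : M * (M * c ^ 2 + M * (3 * L) ^ 2) = M ^ 2 * c ^ 2 + 9 * (M ^ 2 * L ^ 2) := by ring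
    have e2 : (100 * M ^ 2 * c * L / 6) ^ 2 = 10000 / 36 * (M ^ 2 * (M ^ 2 * (c ^ 2 * L ^ 2))) := by
      ring
    rw [e1, e2]
    have a4 : 0 ≤ M ^ 2 * (M ^ 2 * (c ^ 2 * L ^ 2)) := by positivity
    linarith
  · have a1 : M ^ 2 ≤ M ^ 2 * c := le_mul_of_one_le_right (by positivity) hc
    have a2 : 72 * M ^ 2 ≤ S := by
      rw [hS]
      linarith
    calc 72 * M ^ 2 * K * L = 72 * M ^ 2 * (K * L) := by ring
      _ ≤ S * (K * L) := by gcongr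
      _ ≤ T := hmain

/-- the powers of `T` -/
theorem arith {κ ρ T : ℝ} (hκ : 0 ≤ κ) (hκ2 : κ ≤ 1 / 1000) (hρ : 3 * κ ≤ ρ) (hT : 1 ≤ T) :
    (T ^ κ) ^ 3 * T ^ 2 + (1 + T ^ (277 / 500 : ℝ) * (T ^ κ / T ^ (1 / 3 : ℝ))) *
      ((T ^ κ) ^ 3 * ((T ^ κ) ^ 2 * (T * T ^ (277 / 500 : ℝ)) +
        (T ^ (277 / 500 : ℝ)) ^ 2 * T ^ (2 / 3 : ℝ))) ≤ 5 * T ^ (2 + ρ) := by
  have hT0 : 0 < T := by linarith
  have e1 : (T ^ κ) ^ 3 = T ^ (3 * κ) := by
    rw [← Real.rpow_natCast, ← Real.rpow_mul hT0.le]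
    congr 1
    push_cast
    ring
  have e2 : (T ^ κ) ^ 2 = T ^ (2 * κ) := by
    rw [← Real.rpow_natCast, ← Real.rpow_mul hT0.le]
    congr 1
    push_cast
    ring
  have e3 : (T ^ (277 / 500 : ℝ)) ^ 2 = T ^ (277 / 250 : ℝ) := by
    rw [← Real.rpow_natCast, ← Real.rpow_mul hT0.le]
    norm_num
  have e4 : T ^ 2 = T ^ (2 : ℝ) := by
    rw [← Real.rpow_natCast]
    norm_num
  have e5 : T * T ^ (277 / 500 : ℝ) = T ^ (777 / 500 : ℝ) := by
    nth_rewrite 1 [← Real.rpow_one T]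
    rw [← Real.rpow_add hT0]
    norm_num
  have mono : ∀ {a b : ℝ}, a ≤ b → T ^ a ≤ T ^ b := fun h =>
    Real.rpow_le_rpow_of_exponent_le hT h
  have f1 : (T ^ κ) ^ 3 * T ^ 2 ≤ T ^ (2 + ρ) := by
    rw [e1, e4, ← Real.rpow_add hT0]
    exact mono (by linarith)
  have f2 : 1 + T ^ (277 / 500 : ℝ) * (T ^ κ / T ^ (1 / 3 : ℝ)) ≤
      2 * T ^ (277 / 500 + κ - 1 / 3 : ℝ) := by
    have h1 : T ^ (277 / 500 : ℝ) * (T ^ κ / T ^ (1 / 3 : ℝ)) = T ^ (277 / 500 + κ - 1 / 3 : ℝ) := by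
      rw [Real.rpow_sub hT0, Real.rpow_add hT0]
      ring
    rw [h1]
    have h2 : (1 : ℝ) ≤ T ^ (277 / 500 + κ - 1 / 3 : ℝ) := Real.one_le_rpow hT (by linarith)
    linarith
  have f3 : (T ^ κ) ^ 2 * (T * T ^ (277 / 500 : ℝ)) + (T ^ (277 / 500 : ℝ)) ^ 2 * T ^ (2 / 3 : ℝ) ≤
      2 * T ^ (277 / 250 + 2 / 3 : ℝ) := by
    rw [e2, e3, e5, ← Real.rpow_add hT0, ← Real.rpow_add hT0]
    have h1 : T ^ (2 * κ + 777 / 500) ≤ T ^ (277 / 250 + 2 / 3 : ℝ) := mono (by linarith)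
    linarith
  have f4 : (1 + T ^ (277 / 500 : ℝ) * (T ^ κ / T ^ (1 / 3 : ℝ))) *
      ((T ^ κ) ^ 3 * ((T ^ κ) ^ 2 * (T * T ^ (277 / 500 : ℝ)) +
        (T ^ (277 / 500 : ℝ)) ^ 2 * T ^ (2 / 3 : ℝ))) ≤ 4 * T ^ (2 + ρ) := by
    calc _ ≤ (2 * T ^ (277 / 500 + κ - 1 / 3 : ℝ)) *
          (T ^ (3 * κ) * (2 * T ^ (277 / 250 + 2 / 3 : ℝ))) := by
          rw [e1]
          gcongr
      _ = 4 * T ^ ((277 / 500 + κ - 1 / 3) + (3 * κ + (277 / 250 + 2 / 3)) : ℝ) := by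
          rw [Real.rpow_add hT0 (277 / 500 + κ - 1 / 3), Real.rpow_add hT0 (3 * κ)]
          ring
      _ ≤ 4 * T ^ (2 + ρ) := by
          have := mono (a := (277 / 500 + κ - 1 / 3) + (3 * κ + (277 / 250 + 2 / 3))) (b := 2 + ρ)
            (by linarith)
          linarith
  linarith

/-- **DZ** -/
theorem dz (kaf : KAFStmt) (faf : FAFStmt) (chk : CHKStmt) : DZStmt := by
  classical
  refine ⟨rho0 / 8, by linarith [rho0_pos], ?_⟩
  intro M hM e he p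
  obtain ⟨c, hc⟩ : ∃ c, c = 4 * e + |p.1| + 2 * |p.2| + 1 := ⟨_, rfl⟩
  have hc1 : 1 ≤ c := by
    rw [hc]
    have := abs_nonneg p.1
    have := abs_nonneg p.2
    linarith
  have hM2 : 1 ≤ 2 * M := by linarith
  obtain ⟨C, hC1, hC⟩ := grand hM2 hc1
  have hS1 : 1 ≤ 100 * (2 * M) ^ 2 * c := by
    have := one_le_mul_of_one_le_of_one_le (one_le_pow₀ hM2 (n := 2)) hc1
    linarith
  refine ⟨1 + 256 * e ^ 2 * (C * 5), (100 * (2 * M) ^ 2 * c) ^ 3, by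
    have : 0 ≤ 256 * e ^ 2 * (C * 5) := by positivity
    linarith, one_le_pow₀ hS1, ?_⟩
  intro T hT W hW H hH
  obtain ⟨hWm, hW1, hWg, -⟩ := hW
  have hκ0 : 0 ≤ rho0 / 8 := by linarith [rho0_pos]
  have hκ1 : rho0 / 8 ≤ 1 / 1000 := by linarith [rho0_le, rho0_pos]
  have P : Par (2 * M) c (T ^ (rho0 / 8)) (Lx T) T := par_large hM2 hc1 hκ0 hκ1 hT
  have hT1 := P.hT
  have hT0 : 0 < T := by linarith
  have hR : 0 < Rx T := Real.rpow_pos_of_pos hT0 _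
  have hF := faf M (Lx T) (Rx T) e hM (by linarith [P.hL]) hR he p W hWm hW1
  obtain ⟨B, hB⟩ : ∃ B, B = ball (3 * T) := ⟨_, rfl⟩
  obtain ⟨D, hD⟩ : ∃ D, D = T ^ 2 / (2 * T ^ (rho0 / 8)) := ⟨_, rfl⟩
  -- the support
  have hsupp : ∀ h ∈ H, ∀ x : Z6, ¬ ((x.1 ∈ B ∧ x.2.1 ∈ B ∧ x.2.2 ∈ B) ∧
      Gd D x.1 x.2.1 x.2.2) → fx M T e p W h (r3 x) = 0 := by
    intro h hh x hx
    change ∫ A, chK M A * FA (Lx T) (Rx T) e p W A (r3 x) (r3 x + r3 h) = 0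
    have : ∀ A, chK M A * FA (Lx T) (Rx T) e p W A (r3 x) (r3 x + r3 h) = 0 := by
      intro A
      by_contra hne
      have hs := support kaf faf chk hM he p (by rw [hc]; linarith) hR P hWm hW1 hWg (hH h hh) hne
      rw [← hB, ← hD] at hs
      exact hx ⟨hs.1, hs.2.1⟩
    simp only [this]
    exact integral_zero _ _
  have hts : ∀ h ∈ H, ∑' x : Z6, fx M T e p W h (r3 x) =
      ∑ x ∈ B ×ˢ (B ×ˢ B), fx M T e p W h (r3 x) := by
    intro h hh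
    refine tsum_eq_sum fun x hx => hsupp h hh x fun hx' => hx ?_
    exact Finset.mem_product.2 ⟨hx'.1.1, Finset.mem_product.2 ⟨hx'.1.2.1, hx'.1.2.2⟩⟩
  rw [Finset.sum_congr rfl hts]
  have hnn : ∀ h x, 0 ≤ fx M T e p W h (r3 x) := fun h x => (hF.2.2.2.2.1 _ _).1
  have hub : ∀ h ∈ H, ∀ a b d : ℤ × ℤ, ENNReal.ofReal (fx M T e p W h (r3 (a, b, d))) ≤
      ENNReal.ofReal (256 * e ^ 2) *
        (if Gd D a b d then volume (EE (2 * M) c (Lx T) (a, b, d) h) else 0) := by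
    intro h hh a b d
    by_cases hG : Gd D a b d
    · rw [if_pos hG]
      exact fh_le kaf faf chk hM he p (by rw [hc]; linarith) hR P hWm hW1 hWg (hH h hh)
    · rw [hsupp h hh (a, b, d) fun hx => hG hx.2, ENNReal.ofReal_zero]
      exact zero_le
  have hfin := hC (T ^ (rho0 / 8)) (Lx T) T P H hH
  rw [← hB, ← hD] at hfin
  have key : ENNReal.ofReal (∑ h ∈ H, ∑ x ∈ B ×ˢ (B ×ˢ B), fx M T e p W h (r3 x)) ≤
      ENNReal.ofReal (256 * e ^ 2 * (C * (5 * T ^ (2 + rho0)))) := by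
    rw [ENNReal.ofReal_sum_of_nonneg fun h _ => Finset.sum_nonneg fun x _ => hnn h x]
    calc ∑ h ∈ H, ENNReal.ofReal (∑ x ∈ B ×ˢ (B ×ˢ B), fx M T e p W h (r3 x)) =
        ∑ h ∈ H, ∑ a ∈ B, ∑ b ∈ B, ∑ d ∈ B, ENNReal.ofReal (fx M T e p W h (r3 (a, b, d))) := by
          refine Finset.sum_congr rfl fun h _ => ?_
          rw [ENNReal.ofReal_sum_of_nonneg fun x _ => hnn h x, Finset.sum_product]
          refine Finset.sum_congr rfl fun a _ => ?_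
          rw [Finset.sum_product]
      _ ≤ ∑ h ∈ H, ∑ a ∈ B, ∑ b ∈ B, ∑ d ∈ B, ENNReal.ofReal (256 * e ^ 2) *
          (if Gd D a b d then volume (EE (2 * M) c (Lx T) (a, b, d) h) else 0) :=
          Finset.sum_le_sum fun h hh => Finset.sum_le_sum fun a _ => Finset.sum_le_sum fun b _ =>
            Finset.sum_le_sum fun d _ => hub h hh a b d
      _ = ENNReal.ofReal (256 * e ^ 2) * ∑ h ∈ H, ∑ a ∈ B, ∑ b ∈ B, ∑ d ∈ B,
          (if Gd D a b d then volume (EE (2 * M) c (Lx T) (a, b, d) h) else 0) := by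
          simp only [Finset.mul_sum]
      _ = ENNReal.ofReal (256 * e ^ 2) * ∑ a ∈ B, ∑ b ∈ B, ∑ d ∈ B,
          (if Gd D a b d then ∑ h ∈ H, volume (EE (2 * M) c (Lx T) (a, b, d) h) else 0) := by
          congr 1
          rw [Finset.sum_comm]
          refine Finset.sum_congr rfl fun a _ => ?_
          rw [Finset.sum_comm]
          refine Finset.sum_congr rfl fun b _ => ?_
          rw [Finset.sum_comm]
          refine Finset.sum_congr rfl fun d _ => ?_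
          by_cases hG : Gd D a b d
          · simp only [if_pos hG]
          · simp only [if_neg hG, Finset.sum_const_zero]
      _ ≤ ENNReal.ofReal (256 * e ^ 2) * ENNReal.ofReal (C * (5 * T ^ (2 + rho0))) := by
          refine mul_le_mul_right (hfin.trans (ENNReal.ofReal_le_ofReal ?_)) _
          refine mul_le_mul_of_nonneg_left ?_ (by linarith)
          exact arith hκ0 hκ1 (by linarith [rho0_pos]) hT1
      _ = _ := by
          rw [← ENNReal.ofReal_mul (by positivity)]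
  have hpos : 0 ≤ T ^ (2 + rho0) := Real.rpow_nonneg hT0.le _
  have h1 := (ENNReal.ofReal_le_ofReal_iff (by positivity)).1 key
  refine h1.trans ?_
  change _ ≤ (1 + 256 * e ^ 2 * (C * 5)) * T ^ (2 + rho0)
  nlinarith

end Pool.Agent.Helper96_DZ
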