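import Pool.Agent.Helper30_FC.Near

/-!
MP_f5cbfa_nt (helper96): lattice points of a thin annulus near one of its points.
-/

set_option autoImplicit false

open MeasureTheory Set

namespace Pool.Agent.Helper96_DZ

open Pool.Agent.BTL Pool.Agent.Helper30_FC

/-- the error terms -/
theorem arc_aux {R c δ w D2 D3 : ℝ} (hR : 1 ≤ R) (hc : 1 ≤ c) (hδ1 : 1 ≤ δ) (hw0 : 0 ≤ w)
    (hw : 4 * w ≤ R) (hD2u : D2 ≤ 5 / 2 * R) (hD3u : D3 ≤ 5 / 2 * R) :
    2 * c * δ * D3 + 2 * c * δ * D2 +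
        δ * δ * (2 * w * ((2 * c + 2 * δ * w) / (3 / 2 * R)) + δ * D2) ≤
      18 * c * δ ^ 3 * R := by
  have hR0 : 0 < R := by linarith
  have hδ0 : 0 < δ := by linarith
  have hc0 : 0 < c := by linarith
  have h1 : 2 * w * ((2 * c + 2 * δ * w) / (3 / 2 * R)) ≤ 2 / 3 * c + 1 / 6 * (δ * R) := by
    rw [mul_div_assoc', div_le_iff₀ (by positivity)]
    have h2 : 4 * w * c ≤ R * c := mul_le_mul_of_nonneg_right hw hc0.le
    have h3 : (4 * w) * (4 * w) ≤ R * R := mul_le_mul hw hw (by positivity) hR0.le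
    have h4 : δ * ((4 * w) * (4 * w)) ≤ δ * (R * R) := mul_le_mul_of_nonneg_left h3 hδ0.le
    have e1 : 2 * w * (2 * c + 2 * δ * w) = 4 * w * c + 1 / 4 * (δ * ((4 * w) * (4 * w))) := by
      ring
    have e2 : (2 / 3 * c + 1 / 6 * (δ * R)) * (3 / 2 * R) = R * c + 1 / 4 * (δ * (R * R)) := by
      ring
    rw [e1, e2]
    linarith
  have hδ2 : 1 ≤ δ ^ 2 := one_le_pow₀ hδ1
  have h4 : δ ≤ δ ^ 3 := by
    calc δ = δ * 1 := (mul_one δ).symm
      _ ≤ δ * δ ^ 2 := mul_le_mul_of_nonneg_left hδ2 hδ0.le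
      _ = δ ^ 3 := by ring
  have h5 : δ * δ ≤ δ ^ 3 := by
    calc δ * δ = δ * δ * 1 := (mul_one _).symm
      _ ≤ δ * δ * δ := mul_le_mul_of_nonneg_left hδ1 (by positivity)
      _ = δ ^ 3 := by ring
  have h6 : 2 * c * δ * D3 ≤ 5 * (c * δ ^ 3 * R) := by
    calc 2 * c * δ * D3 ≤ 2 * c * δ * (5 / 2 * R) := by gcongr
      _ ≤ 2 * c * δ ^ 3 * (5 / 2 * R) := by gcongr
      _ = _ := by ring
  have h7 : 2 * c * δ * D2 ≤ 5 * (c * δ ^ 3 * R) := by
    calc 2 * c * δ * D2 ≤ 2 * c * δ * (5 / 2 * R) := by gcongr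
      _ ≤ 2 * c * δ ^ 3 * (5 / 2 * R) := by gcongr
      _ = _ := by ring
  have h8 : δ * δ * (2 * w * ((2 * c + 2 * δ * w) / (3 / 2 * R)) + δ * D2) ≤
      2 / 3 * (c * δ ^ 3 * R) + 1 / 6 * (c * δ ^ 3 * R) + 5 / 2 * (c * δ ^ 3 * R) := by
    have h9 : δ * δ * (2 * w * ((2 * c + 2 * δ * w) / (3 / 2 * R)) + δ * D2) ≤
        δ * δ * (2 / 3 * c + 1 / 6 * (δ * R) + δ * (5 / 2 * R)) := by gcongr
    have h10 : δ * δ * c ≤ c * δ ^ 3 * R := by
      calc δ * δ * c ≤ δ ^ 3 * c := mul_le_mul_of_nonneg_right h5 hc0.le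
        _ = c * δ ^ 3 * 1 := by ring
        _ ≤ c * δ ^ 3 * R := mul_le_mul_of_nonneg_left hR (by positivity)
    have h11 : δ * δ * (δ * R) ≤ c * δ ^ 3 * R := by
      calc δ * δ * (δ * R) = 1 * (δ ^ 3 * R) := by ring
        _ ≤ c * (δ ^ 3 * R) := mul_le_mul_of_nonneg_right hc (by positivity)
        _ = _ := by ring
    have e3 : δ * δ * (2 / 3 * c + 1 / 6 * (δ * R) + δ * (5 / 2 * R)) =
        2 / 3 * (δ * δ * c) + 1 / 6 * (δ * δ * (δ * R)) + 5 / 2 * (δ * δ * (δ * R)) := by ring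
    rw [e3] at h9
    linarith
  have h11 : 0 ≤ c * δ ^ 3 * R := by positivity
  have e : 18 * c * δ ^ 3 * R = 18 * (c * δ ^ 3 * R) := by ring
  rw [e]
  linarith

/-- three points with nearly the same value: area -/
theorem tri_area {R c δ w : ℝ} (hR : 1 ≤ R) (hc : 1 ≤ c) (hδ1 : 1 ≤ δ) (hδR : δ ≤ R)
    (hw : 4 * w ≤ R) {u1 u2 u3 w1 w2 w3 : ℝ} (hu1 : |u1| ≤ R / 4) (hu2 : |u2| ≤ R / 4)
    (hu3 : |u3| ≤ R / 4) (hw1 : |w1| ≤ w) (hw2 : |w2| ≤ w) (hw3 : |w3| ≤ w)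
    (h12 : |w2 - w1| ≤ δ) (h13 : |w3 - w1| ≤ δ) (h23 : |w3 - w2| ≤ δ)
    (hf1 : |2 * R * u1 + (u1 ^ 2 + w1 ^ 2)| ≤ c) (hf2 : |2 * R * u2 + (u2 ^ 2 + w2 ^ 2)| ≤ c)
    (hf3 : |2 * R * u3 + (u3 ^ 2 + w3 ^ 2)| ≤ c) :
    |(u2 - u1) * (w3 - w1) - (w2 - w1) * (u3 - u1)| ≤ 8 * c * δ ^ 3 / R := by
  have hR0 : 0 < R := by linarith
  obtain ⟨f1, e1⟩ : ∃ f, f = 2 * R * u1 + (u1 ^ 2 + w1 ^ 2) := ⟨_, rfl⟩
  obtain ⟨f2, e2⟩ : ∃ f, f = 2 * R * u2 + (u2 ^ 2 + w2 ^ 2) := ⟨_, rfl⟩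
  obtain ⟨f3, e3⟩ : ∃ f, f = 2 * R * u3 + (u3 ^ 2 + w3 ^ 2) := ⟨_, rfl⟩
  rw [← e1] at hf1
  rw [← e2] at hf2
  rw [← e3] at hf3
  have hw0 : 0 ≤ w := (abs_nonneg _).trans hw1
  rw [abs_le] at hu1 hu2 hu3
  obtain ⟨D2, hD2⟩ : ∃ D, D = 2 * R + u1 + u2 := ⟨_, rfl⟩
  obtain ⟨D3, hD3⟩ : ∃ D, D = 2 * R + u1 + u3 := ⟨_, rfl⟩
  have hD2l : 3 / 2 * R ≤ D2 := by linarith
  have hD2u : D2 ≤ 5 / 2 * R := by linarith
  have hD3l : 3 / 2 * R ≤ D3 := by linarith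
  have hD3u : D3 ≤ 5 / 2 * R := by linarith
  have hD20 : 0 < D2 := by linarith
  have hD30 : 0 < D3 := by linarith
  -- the difference of the radial coordinates
  have hu : |u3 - u2| ≤ (2 * c + 2 * δ * w) / (3 / 2 * R) := by
    rw [le_div_iff₀ (by positivity)]
    have e : (u3 - u2) * (2 * R + u2 + u3) = (f3 - f2) - (w3 - w2) * (w3 + w2) := by
      rw [e2, e3]
      ring
    have h1 : |u3 - u2| * (3 / 2 * R) ≤ |u3 - u2| * |2 * R + u2 + u3| := by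
      refine mul_le_mul_of_nonneg_left ?_ (abs_nonneg _)
      rw [abs_of_pos (by linarith)]
      linarith
    rw [← abs_mul, e] at h1
    refine h1.trans ?_
    have h2 : |(f3 - f2) - (w3 - w2) * (w3 + w2)| ≤ |f3 - f2| + |w3 - w2| * |w3 + w2| := by
      rw [← abs_mul]
      exact abs_sub _ _
    have h3 : |f3 - f2| ≤ 2 * c := by
      have := abs_sub f3 f2
      linarith
    have h4 : |w3 + w2| ≤ 2 * w := by
      have := abs_add_le w3 w2
      linarith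
    have h5 : |w3 - w2| * |w3 + w2| ≤ δ * (2 * w) :=
      mul_le_mul h23 h4 (abs_nonneg _) (by linarith)
    linarith
  have key : ((u2 - u1) * (w3 - w1) - (w2 - w1) * (u3 - u1)) * (D2 * D3) =
      (f2 - f1) * (w3 - w1) * D3 - (f3 - f1) * (w2 - w1) * D2 -
        (w2 - w1) * (w3 - w1) * ((w1 + w2) * (u3 - u2) - (w3 - w2) * D2) := by
    rw [e1, e2, e3, hD2, hD3]
    ring
  have hb : |(u2 - u1) * (w3 - w1) - (w2 - w1) * (u3 - u1)| * (D2 * D3) ≤
      2 * c * δ * D3 + 2 * c * δ * D2 +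
        δ * δ * (2 * w * ((2 * c + 2 * δ * w) / (3 / 2 * R)) + δ * D2) := by
    have h0 : |(u2 - u1) * (w3 - w1) - (w2 - w1) * (u3 - u1)| * (D2 * D3) =
        |((u2 - u1) * (w3 - w1) - (w2 - w1) * (u3 - u1)) * (D2 * D3)| := by
      rw [abs_mul, abs_of_pos (by positivity : 0 < D2 * D3)]
    rw [h0, key]
    have g1 : |(f2 - f1) * (w3 - w1) * D3| ≤ 2 * c * δ * D3 := by
      rw [abs_mul, abs_mul, abs_of_pos hD30]
      refine mul_le_mul_of_nonneg_right ?_ hD30.le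
      refine mul_le_mul ?_ h13 (abs_nonneg _) (by linarith)
      have := abs_sub f2 f1
      linarith
    have g2 : |(f3 - f1) * (w2 - w1) * D2| ≤ 2 * c * δ * D2 := by
      rw [abs_mul, abs_mul, abs_of_pos hD20]
      refine mul_le_mul_of_nonneg_right ?_ hD20.le
      refine mul_le_mul ?_ h12 (abs_nonneg _) (by linarith)
      have := abs_sub f3 f1
      linarith
    have g3 : |(w2 - w1) * (w3 - w1) * ((w1 + w2) * (u3 - u2) - (w3 - w2) * D2)| ≤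
        δ * δ * (2 * w * ((2 * c + 2 * δ * w) / (3 / 2 * R)) + δ * D2) := by
      rw [abs_mul, abs_mul]
      refine mul_le_mul (mul_le_mul h12 h13 (abs_nonneg _) (by linarith)) ?_ (abs_nonneg _)
        (by positivity)
      refine (abs_sub _ _).trans (add_le_add ?_ ?_)
      · rw [abs_mul]
        refine mul_le_mul ?_ hu (abs_nonneg _) (by linarith)
        have := abs_add_le w1 w2
        linarith
      · rw [abs_mul, abs_of_pos hD20]
        exact mul_le_mul_of_nonneg_right h23 hD20.le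
    have t1 := abs_sub ((f2 - f1) * (w3 - w1) * D3 - (f3 - f1) * (w2 - w1) * D2)
      ((w2 - w1) * (w3 - w1) * ((w1 + w2) * (u3 - u2) - (w3 - w2) * D2))
    have t2 := abs_sub ((f2 - f1) * (w3 - w1) * D3) ((f3 - f1) * (w2 - w1) * D2)
    linarith
  have hδ0 : 0 < δ := by linarith
  rw [le_div_iff₀ hR0]
  -- lower bound of the left side
  have hl : |(u2 - u1) * (w3 - w1) - (w2 - w1) * (u3 - u1)| * (9 / 4 * R ^ 2) ≤
      |(u2 - u1) * (w3 - w1) - (w2 - w1) * (u3 - u1)| * (D2 * D3) := by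
    refine mul_le_mul_of_nonneg_left ?_ (abs_nonneg _)
    nlinarith
  have hr := arc_aux hR hc hδ1 hw0 hw hD2u hD3u
  have h12 : |(u2 - u1) * (w3 - w1) - (w2 - w1) * (u3 - u1)| * (9 / 4 * R ^ 2) ≤
      18 * c * δ ^ 3 * R := hl.trans (hb.trans hr)
  have h13 : (|(u2 - u1) * (w3 - w1) - (w2 - w1) * (u3 - u1)| * R) * (9 / 4 * R) ≤
      (8 * c * δ ^ 3) * (9 / 4 * R) := by
    calc _ = |(u2 - u1) * (w3 - w1) - (w2 - w1) * (u3 - u1)| * (9 / 4 * R ^ 2) := by ring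
      _ ≤ 18 * c * δ ^ 3 * R := h12
      _ = _ := by ring
  exact le_of_mul_le_mul_right h13 (by positivity)

/-- the radial and the tangential coordinate of `g` at `x` -/
noncomputable def ru (A : ℝ × ℝ × ℝ) (x g : ℝ × ℝ) : ℝ := (zc A x g).1

/-- the tangential coordinate -/
noncomputable def rw' (A : ℝ × ℝ × ℝ) (x g : ℝ × ℝ) : ℝ := (zc A x g).2

theorem ru_sub (A : ℝ × ℝ × ℝ) (x g h : ℝ × ℝ) : ru A x (g - h) = ru A x g - ru A x h := by
  simp only [ru, zc, bf, Prod.fst_sub, Prod.snd_sub]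
  ring

theorem rw'_sub (A : ℝ × ℝ × ℝ) (x g h : ℝ × ℝ) : rw' A x (g - h) = rw' A x g - rw' A x h := by
  simp only [rw', zc, cd, Prod.fst_sub, Prod.snd_sub]
  ring

theorem det_coord {A : ℝ × ℝ × ℝ} {x : ℝ × ℝ} (hx : 0 < qf A x) (a b : ℝ × ℝ) :
    ru A x a * rw' A x b - rw' A x a * ru A x b = -(Real.sqrt (disc A) * cd a b) := by
  have h1 : Real.sqrt (qf A x) * Real.sqrt (qf A x) = qf A x := Real.mul_self_sqrt hx.le
  have h0 : Real.sqrt (qf A x) ≠ 0 := (Real.sqrt_pos.2 hx).ne'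
  have e : bf A a x * cd b x - cd a x * bf A b x = -(qf A x * cd a b) := by
    simp only [bf, cd, qf]
    ring
  have e2 : ru A x a * rw' A x b - rw' A x a * ru A x b =
      Real.sqrt (disc A) * (bf A a x * cd b x - cd a x * bf A b x) /
        (Real.sqrt (qf A x) * Real.sqrt (qf A x)) := by
    simp only [ru, rw', zc]
    field_simp
  rw [e2, e, h1]
  field_simp

/-- collinear points of a thin annulus -/
theorem coll {f1 f2 f3 c E q t : ℝ} (hc : 0 ≤ c) (hf1 : |f1| ≤ c) (hf2 : |f2| ≤ c)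
    (hf3 : |f3| ≤ c) (hE : 0 < E) (hq : E ≤ q) (ht : E ≤ t ^ 2 * q) (ht1 : E ≤ (t - 1) ^ 2 * q)
    (h : (t ^ 2 - t) * q = f3 - f1 - t * (f2 - f1)) : E ≤ 6 * c := by
  have hq0 : 0 < q := by linarith
  have ha : |t| * |t - 1| * q ≤ 2 * c * (1 + |t|) := by
    have h1 : |t| * |t - 1| * q = |(t ^ 2 - t) * q| := by
      rw [abs_mul, abs_of_pos hq0, ← abs_mul]
      congr 2
      ring
    rw [h1, h]
    have h2 := abs_sub (f3 - f1) (t * (f2 - f1))
    have h3 := abs_sub f3 f1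
    have h4 : |t * (f2 - f1)| ≤ |t| * (2 * c) := by
      rw [abs_mul]
      refine mul_le_mul_of_nonneg_left ?_ (abs_nonneg _)
      have := abs_sub f2 f1
      linarith
    nlinarith
  have hsE : E ≤ |t| * q := by
    have h1 : E ^ 2 ≤ (|t| * q) ^ 2 := by
      rw [mul_pow, sq_abs]
      nlinarith
    exact le_of_sq_le_sq h1 (by positivity)
  have hsE1 : E ≤ |t - 1| * q := by
    have h1 : E ^ 2 ≤ (|t - 1| * q) ^ 2 := by
      rw [mul_pow, sq_abs]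
      nlinarith
    exact le_of_sq_le_sq h1 (by positivity)
  rcases le_or_gt (1 / 2) |t| with h5 | h5
  · have h6 : |t| * E ≤ |t| * (|t - 1| * q) := mul_le_mul_of_nonneg_left hsE1 (abs_nonneg _)
    have h7 : |t| * E ≤ |t| * (6 * c) := by nlinarith
    exact le_of_mul_le_mul_left h7 (by linarith)
  · have h6 : 1 / 2 ≤ |t - 1| := by
      have := abs_lt.1 h5
      rw [abs_of_neg (by linarith)]
      linarith
    have h7 : 1 / 2 * E ≤ |t - 1| * (|t| * q) := mul_le_mul h6 hsE hE.le (abs_nonneg _)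
    nlinarith

theorem coord_bound {M : ℝ} (hM : 1 ≤ M) {A : ℝ × ℝ × ℝ} (hA : A ∈ KM M) {x : ℝ × ℝ}
    (hx : 0 < qf A x) {L : ℝ} {g : ℤ × ℤ} (hg : ln g ≤ L) :
    |ru A x (rc g)| ≤ M * L ∧ |rw' A x (rc g)| ≤ M * L := by
  have hd := disc_pos_of_KM hM hA
  have h1 := zc_sq hd hx (rc g)
  have h2 := (hA (rc g)).2
  have h3 : nr (rc g) = ln g ^ 2 := (ln_sq g).symm
  have h0 := ln_nonneg g
  have h4 : qf A (rc g) ≤ (M * L) ^ 2 := by
    rw [h3] at h2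
    have h5 : ln g ^ 2 ≤ L ^ 2 := pow_le_pow_left₀ h0 hg 2
    have h6 : M * ln g ^ 2 ≤ M * L ^ 2 := mul_le_mul_of_nonneg_left h5 (by linarith)
    have h7 : M * L ^ 2 ≤ M ^ 2 * L ^ 2 := mul_le_mul_of_nonneg_right (by nlinarith) (sq_nonneg L)
    nlinarith
  have hML : 0 ≤ M * L := mul_nonneg (by linarith) (h0.trans hg)
  constructor
  · refine abs_le_of_sq_le_sq ?_ hML
    change (zc A x (rc g)).1 ^ 2 ≤ _
    nlinarith [sq_nonneg (zc A x (rc g)).2]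
  · refine abs_le_of_sq_le_sq ?_ hML
    change (zc A x (rc g)).2 ^ 2 ≤ _
    nlinarith [sq_nonneg (zc A x (rc g)).1]

theorem rc_sub (a b : ℤ × ℤ) : rc (a - b) = rc a - rc b := by
  ext <;> simp [rc]

theorem exists_mul {N : ℤ} {a b : ℤ × ℤ} (hab : a ≠ b) (h1 : a.1 % N = b.1 % N)
    (h2 : a.2 % N = b.2 % N) : ∃ v : ℤ × ℤ, v ≠ 0 ∧ rc b - rc a = (N : ℝ) • rc v := by
  obtain ⟨v1, hv1⟩ := (Int.ModEq.dvd h1 : N ∣ b.1 - a.1)
  obtain ⟨v2, hv2⟩ := (Int.ModEq.dvd h2 : N ∣ b.2 - a.2)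
  refine ⟨(v1, v2), ?_, ?_⟩
  · intro h
    rw [Prod.mk_eq_zero] at h
    rw [h.1, mul_zero] at hv1
    rw [h.2, mul_zero] at hv2
    apply hab
    ext
    · linarith
    · linarith
  · rw [← rc_sub]
    ext
    · simp only [rc, Prod.fst_sub, hv1, Prod.smul_fst, smul_eq_mul]
      push_cast
      ring
    · simp only [rc, Prod.snd_sub, hv2, Prod.smul_snd, smul_eq_mul]
      push_cast
      ring

theorem qf_smul (A : ℝ × ℝ × ℝ) (t : ℝ) (x : ℝ × ℝ) : qf A (t • x) = t ^ 2 * qf A x := by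
  simp only [qf, Prod.smul_fst, Prod.smul_snd, smul_eq_mul]
  ring

theorem one_le_M_qf {M : ℝ} (hM : 1 ≤ M) {A : ℝ × ℝ × ℝ} (hA : A ∈ KM M) {v : ℤ × ℤ}
    (hv : v ≠ 0) : 1 / M ≤ qf A (rc v) := by
  have h1 := (hA (rc v)).1
  have h2 := one_le_ln hv
  have h3 : nr (rc v) = ln v ^ 2 := (ln_sq v).symm
  rw [h3] at h1
  refine le_trans ?_ h1
  have : 1 ≤ ln v ^ 2 := one_le_pow₀ h2
  exact div_le_div_of_nonneg_right this (by linarith)

/-- three points of the annulus, in one arc and in one class, do not exist -/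
theorem no_three {M : ℝ} (hM : 1 ≤ M) {c : ℝ} (hc : 1 ≤ c) {A : ℝ × ℝ × ℝ} (hA : A ∈ KM M)
    {x : ℝ × ℝ} {L δ : ℝ} (hR : 1 ≤ rr A x) (hLR : 4 * (M * L) ≤ rr A x) (hδ : 1 ≤ δ)
    (hδR : δ ^ 3 ≤ rr A x) {N : ℤ} (hN : 8 * c * M < N) {g1 g2 g3 : ℤ × ℤ}
    (hg1 : ln g1 ≤ L ∧ |qf A (x + rc g1) - qf A x| ≤ c)
    (hg2 : ln g2 ≤ L ∧ |qf A (x + rc g2) - qf A x| ≤ c)
    (hg3 : ln g3 ≤ L ∧ |qf A (x + rc g3) - qf A x| ≤ c)
    (h12 : g1 ≠ g2) (h13 : g1 ≠ g3) (h23 : g2 ≠ g3)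
    (m12 : g1.1 % N = g2.1 % N ∧ g1.2 % N = g2.2 % N)
    (m13 : g1.1 % N = g3.1 % N ∧ g1.2 % N = g3.2 % N)
    (w12 : |rw' A x (rc g2) - rw' A x (rc g1)| ≤ δ) (w13 : |rw' A x (rc g3) - rw' A x (rc g1)| ≤ δ)
    (w23 : |rw' A x (rc g3) - rw' A x (rc g2)| ≤ δ) : False := by
  have hM0 : 0 < M := by linarith
  have hx : 0 < qf A x := by
    by_contra h
    have : rr A x = 0 := Real.sqrt_eq_zero_of_nonpos (not_lt.1 h)
    linarith
  have hd := disc_pos_of_KM hM hA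
  have hNr : (1 : ℝ) ≤ N := by nlinarith
  have hN2 : (N : ℝ) ≤ (N : ℝ) ^ 2 := by nlinarith
  obtain ⟨R, hRd⟩ : ∃ R, R = rr A x := ⟨_, rfl⟩
  have hRd' : Real.sqrt (qf A x) = R := hRd.symm
  rw [← hRd] at hR hLR hδR
  have b1 := coord_bound hM hA hx hg1.1
  have b2 := coord_bound hM hA hx hg2.1
  have b3 := coord_bound hM hA hx hg3.1
  have hval : ∀ g : ℤ × ℤ, qf A (x + rc g) - qf A x =
      2 * R * ru A x (rc g) + (ru A x (rc g) ^ 2 + rw' A x (rc g) ^ 2) := by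
    intro g
    have h1 := qf_add_zc hd hx (rc g)
    rw [add_comm, h1, hRd', hRd, rr_sq hM hA]
    simp only [ru, rw', rr]
    ring
  have f1 := hg1.2
  have f2 := hg2.2
  have f3 := hg3.2
  rw [hval] at f1 f2 f3
  have hδR' : δ ≤ R := by
    have : δ ≤ δ ^ 3 := by nlinarith [one_le_pow₀ hδ (n := 2)]
    linarith
  have area := tri_area hR hc hδ hδR' hLR (b1.1.trans (by linarith)) (b2.1.trans (by linarith))
    (b3.1.trans (by linarith)) b1.2 b2.2 b3.2 w12 w13 w23 f1 f2 f3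
  have hsmall : |cd (rc g2 - rc g1) (rc g3 - rc g1)| ≤ 8 * c * M := by
    have h1 := det_coord hx (rc g2 - rc g1) (rc g3 - rc g1)
    rw [ru_sub, rw'_sub, ru_sub, rw'_sub] at h1
    rw [h1, abs_neg, abs_mul, abs_of_nonneg (Real.sqrt_nonneg _)] at area
    have h2 : 8 * c * δ ^ 3 / R ≤ 8 * c := by
      rw [div_le_iff₀ (by linarith)]
      exact mul_le_mul_of_nonneg_left hδR (by linarith)
    have h3 := area.trans h2
    have h4 := inv_sqrt_disc_le hM hA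
    have h5 : 0 < Real.sqrt (disc A) := Real.sqrt_pos.2 hd
    have h6 : |cd (rc g2 - rc g1) (rc g3 - rc g1)| =
        (Real.sqrt (disc A))⁻¹ * (Real.sqrt (disc A) * |cd (rc g2 - rc g1) (rc g3 - rc g1)|) := by
      field_simp
    rw [h6]
    calc _ ≤ M * (8 * c) := mul_le_mul h4 h3 (by positivity) hM0.le
      _ = _ := by ring
  obtain ⟨v2, hv2, e2⟩ := exists_mul h12 m12.1 m12.2
  obtain ⟨v3, hv3, e3⟩ := exists_mul h13 m13.1 m13.2
  obtain ⟨v, hv, e⟩ := exists_mul h23 (m12.1.symm.trans m13.1) (m12.2.symm.trans m13.2)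
  have hcd : cd (rc g2 - rc g1) (rc g3 - rc g1) = 0 := by
    have h1 : cd (rc g2 - rc g1) (rc g3 - rc g1) = (N : ℝ) ^ 2 * ((dt v2 v3 : ℤ) : ℝ) := by
      rw [e2, e3]
      simp only [cd, dt, rc, Prod.smul_fst, Prod.smul_snd, smul_eq_mul]
      push_cast
      ring
    by_contra hne
    have h2 : dt v2 v3 ≠ 0 := by
      intro h
      apply hne
      rw [h1, h]
      simp
    have h3 : (1 : ℝ) ≤ |((dt v2 v3 : ℤ) : ℝ)| := by
      exact_mod_cast Int.one_le_abs h2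
    rw [h1, abs_mul, abs_of_nonneg (sq_nonneg (N : ℝ))] at hsmall
    have h4 : (N : ℝ) ^ 2 ≤ (N : ℝ) ^ 2 * |((dt v2 v3 : ℤ) : ℝ)| :=
      le_mul_of_one_le_right (sq_nonneg _) h3
    linarith
  -- collinear
  obtain ⟨d, hdd⟩ : ∃ d, d = rc g2 - rc g1 := ⟨_, rfl⟩
  obtain ⟨d', hdd'⟩ : ∃ d', d' = rc g3 - rc g1 := ⟨_, rfl⟩
  rw [← hdd, ← hdd'] at hcd
  have hE : ∀ v : ℤ × ℤ, v ≠ 0 → (N : ℝ) ^ 2 / M ≤ qf A ((N : ℝ) • rc v) := by
    intro v hv
    rw [qf_smul]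
    have := one_le_M_qf hM hA hv
    calc (N : ℝ) ^ 2 / M = (N : ℝ) ^ 2 * (1 / M) := by ring
      _ ≤ _ := mul_le_mul_of_nonneg_left this (sq_nonneg _)
  have hq : (N : ℝ) ^ 2 / M ≤ qf A d := by
    rw [hdd, e2]
    exact hE _ hv2
  have hq3 : (N : ℝ) ^ 2 / M ≤ qf A d' := by
    rw [hdd', e3]
    exact hE _ hv3
  have hq23 : (N : ℝ) ^ 2 / M ≤ qf A (d' - d) := by
    have : d' - d = (N : ℝ) • rc v := by
      rw [hdd, hdd', ← e]
      abel
    rw [this]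
    exact hE _ hv
  have hE0 : 0 < (N : ℝ) ^ 2 / M := by positivity
  have hnd : 0 < d.1 ^ 2 + d.2 ^ 2 := by
    by_contra hn
    have h1 : d.1 = 0 := by nlinarith [sq_nonneg d.1, sq_nonneg d.2]
    have h2 : d.2 = 0 := by nlinarith [sq_nonneg d.1, sq_nonneg d.2]
    have h3 : qf A d = 0 := by
      simp [qf, h1, h2]
    linarith
  obtain ⟨t, ht⟩ : ∃ t : ℝ, d' = t • d := by
    refine ⟨(d.1 * d'.1 + d.2 * d'.2) / (d.1 ^ 2 + d.2 ^ 2), ?_⟩
    simp only [cd] at hcd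
    ext
    · simp only [Prod.smul_fst, smul_eq_mul]
      field_simp
      linear_combination (-d.2) * hcd
    · simp only [Prod.smul_snd, smul_eq_mul]
      field_simp
      linear_combination d.1 * hcd
  have ht1 : d' - d = (t - 1) • d := by
    rw [ht, sub_smul, one_smul]
  rw [ht, qf_smul] at hq3
  rw [ht1, qf_smul] at hq23
  have hfin := coll (f1 := qf A (x + rc g1) - qf A x) (f2 := qf A (x + rc g2) - qf A x)
    (f3 := qf A (x + rc g3) - qf A x) (by linarith) hg1.2 hg2.2 hg3.2 hE0 hq hq3 hq23 (by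
      have k2 : qf A (x + rc g2) = qf A (x + rc g1) + 2 * bf A (x + rc g1) d + qf A d := by
        rw [← qf_add]
        congr 1
        rw [hdd]
        abel
      have k3 : qf A (x + rc g3) = qf A (x + rc g1) + 2 * (t * bf A (x + rc g1) d) +
          t ^ 2 * qf A d := by
        have h1 : x + rc g3 = (x + rc g1) + t • d := by
          rw [← ht, hdd']
          abel
        rw [h1, qf_add, qf_smul]
        have h2 : bf A (x + rc g1) (t • d) = t * bf A (x + rc g1) d := by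
          simp only [bf, Prod.smul_fst, Prod.smul_snd, smul_eq_mul]
          ring
        rw [h2]
      rw [k2, k3]
      ring)
  rw [div_le_iff₀ hM0] at hfin
  nlinarith

/-- **(ARC)** lattice points of a thin annulus near the point `x` of it -/
theorem arc {M : ℝ} (hM : 1 ≤ M) {c : ℝ} (hc : 1 ≤ c) : ∃ C : ℝ, 1 ≤ C ∧ ∀ A ∈ KM M,
    ∀ (x : ℝ × ℝ) (L δ : ℝ), 1 ≤ rr A x → 1 ≤ L → 4 * (M * L) ≤ rr A x → 1 ≤ δ →
    δ ^ 3 ≤ rr A x → ∀ G : Finset (ℤ × ℤ),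
    (∀ g ∈ G, ln g ≤ L ∧ |qf A (x + rc g) - qf A x| ≤ c) → (G.card : ℝ) ≤ C * (1 + L / δ) := by
  classical
  have hM0 : 0 < M := by linarith
  obtain ⟨N, hN⟩ : ∃ N : ℤ, N = ⌈8 * c * M⌉ + 1 := ⟨_, rfl⟩
  have hNr : 8 * c * M < N := by
    rw [hN]
    push_cast
    have := Int.le_ceil (8 * c * M)
    linarith
  have hN1 : (1 : ℝ) ≤ N := by nlinarith
  have hN1' : (1 : ℤ) ≤ N := by exact_mod_cast hN1
  refine ⟨2 * ((5 * M) * (N : ℝ) ^ 2), by nlinarith, ?_⟩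
  intro A hA x L δ hR hL hLR hδ hδR G hG
  have hδ0 : 0 < δ := by linarith
  have hx : 0 < qf A x := by
    by_contra h
    have : rr A x = 0 := Real.sqrt_eq_zero_of_nonpos (not_lt.1 h)
    linarith
  obtain ⟨K, hK⟩ : ∃ K : ℤ, K = ⌊M * L / δ⌋ + 1 := ⟨_, rfl⟩
  obtain ⟨F, hF⟩ : ∃ F : ℤ × ℤ → ℤ × (ℤ × ℤ),
    F = fun g => (⌊rw' A x (rc g) / δ⌋, (g.1 % N, g.2 % N)) := ⟨_, rfl⟩
  have h1 : G.card ≤ 2 * (G.image F).card := by
    refine Finset.card_le_mul_card_image G 2 fun b _ => ?_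
    by_contra hlt
    push Not at hlt
    obtain ⟨g1, m1, g2, m2, g3, m3, n12, n13, n23⟩ := Finset.two_lt_card.1 hlt
    rw [Finset.mem_filter] at m1 m2 m3
    have fl : ∀ {g g' : ℤ × ℤ}, F g = b → F g' = b →
        |rw' A x (rc g) - rw' A x (rc g')| ≤ δ ∧ g.1 % N = g'.1 % N ∧ g.2 % N = g'.2 % N := by
      intro g g' e e'
      have e'' := e.trans e'.symm
      rw [hF] at e''
      simp only [Prod.mk.injEq] at e''
      refine ⟨?_, e''.2.1, e''.2.2⟩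
      have a1 := Int.floor_le (rw' A x (rc g) / δ)
      have a2 := Int.lt_floor_add_one (rw' A x (rc g) / δ)
      have a3 := Int.floor_le (rw' A x (rc g') / δ)
      have a4 := Int.lt_floor_add_one (rw' A x (rc g') / δ)
      rw [e''.1] at a1 a2
      have a5 : |rw' A x (rc g) / δ - rw' A x (rc g') / δ| ≤ 1 := by
        rw [abs_le]
        constructor <;> linarith
      rw [← sub_div, abs_div, abs_of_pos hδ0, div_le_one hδ0] at a5
      exact a5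
    have k21 := fl m2.2 m1.2
    have k31 := fl m3.2 m1.2
    have k32 := fl m3.2 m2.2
    exact no_three hM hc hA hR hLR hδ hδR hNr (hG g1 m1.1) (hG g2 m2.1) (hG g3 m3.1) n12 n13 n23
      ⟨k21.2.1.symm, k21.2.2.symm⟩ ⟨k31.2.1.symm, k31.2.2.symm⟩ k21.1 k31.1 k32.1
  have h2 : G.image F ⊆ (Finset.Icc (-K) K) ×ˢ ((Finset.Ico 0 N) ×ˢ (Finset.Ico 0 N)) := by
    intro b hb
    obtain ⟨g, hg, rfl⟩ := Finset.mem_image.1 hb
    rw [hF]
    simp only [Finset.mem_product, Finset.mem_Icc, Finset.mem_Ico]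
    have hb := (coord_bound hM hA hx (hG g hg).1).2
    rw [abs_le] at hb
    refine ⟨⟨?_, ?_⟩, ⟨Int.emod_nonneg _ (by linarith), Int.emod_lt_of_pos _ (by linarith)⟩,
      ⟨Int.emod_nonneg _ (by linarith), Int.emod_lt_of_pos _ (by linarith)⟩⟩
    · rw [Int.le_floor, hK]
      push_cast
      have a1 := Int.lt_floor_add_one (M * L / δ)
      have a2 : -(M * L / δ) ≤ rw' A x (rc g) / δ := by
        rw [← neg_div]
        exact div_le_div_of_nonneg_right hb.1 hδ0.le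
      linarith
    · have a2 : rw' A x (rc g) / δ ≤ M * L / δ := div_le_div_of_nonneg_right hb.2 hδ0.le
      have := Int.floor_le_floor a2
      linarith
  have h3 := Finset.card_le_card h2
  rw [Finset.card_product, Finset.card_product, Int.card_Icc, Int.card_Ico] at h3
  have hK0 : 0 ≤ K := by
    have : 0 ≤ ⌊M * L / δ⌋ := Int.floor_nonneg.2 (by positivity)
    linarith
  have h4 : (((K + 1 - (-K)).toNat * ((N - 0).toNat * (N - 0).toNat) : ℕ) : ℝ) =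
      (2 * K + 1) * (N : ℝ) ^ 2 := by
    have e1 : (((K + 1 - (-K)).toNat : ℕ) : ℝ) = 2 * K + 1 := by
      have h : (0 : ℤ) ≤ K + 1 - (-K) := by linarith
      have h' : (((K + 1 - (-K)).toNat : ℤ) : ℝ) = ((K + 1 - (-K) : ℤ) : ℝ) := by
        rw [Int.toNat_of_nonneg h]
      rw [Int.cast_natCast] at h'
      rw [h']
      push_cast
      ring
    have e2 : (((N - 0).toNat : ℕ) : ℝ) = N := by
      have h' : (((N - 0).toNat : ℤ) : ℝ) = ((N - 0 : ℤ) : ℝ) := by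
        rw [Int.toNat_of_nonneg (by linarith)]
      rw [Int.cast_natCast] at h'
      rw [h']
      push_cast
      ring
    push_cast
    rw [e1, e2]
    ring
  have h5 : (G.card : ℝ) ≤ 2 * ((2 * K + 1) * (N : ℝ) ^ 2) := by
    rw [← h4]
    exact_mod_cast h1.trans (Nat.mul_le_mul_left 2 h3)
  refine h5.trans ?_
  have h6 : (2 * K + 1 : ℝ) ≤ 5 * M * (1 + L / δ) := by
    have a1 : (K : ℝ) ≤ M * L / δ + 1 := by
      rw [hK]
      push_cast
      have := Int.floor_le (M * L / δ)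
      linarith
    have a2 : 0 ≤ M * (L / δ) := by positivity
    have a3 : M * L / δ = M * (L / δ) := by ring
    rw [a3] at a1
    nlinarith
  calc 2 * ((2 * K + 1) * (N : ℝ) ^ 2) ≤ 2 * ((5 * M * (1 + L / δ)) * (N : ℝ) ^ 2) := by gcongr
    _ = _ := by ring

end Pool.Agent.Helper96_DZ
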