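import Pool.Agent.Helper96_DZ.Form

/-!
MP_f5cbfa_nt (helper96): two forms with the same near coincidences are nearly proportional.
-/

set_option autoImplicit false

open MeasureTheory Set

namespace Pool.Agent.Helper96_DZ

open Pool.Agent.BTL Pool.Agent.Helper30_FC

theorem qf_sub_smul (A A1 : ℝ × ℝ × ℝ) (t : ℝ) (z : ℝ × ℝ) :
    qf (A - t • A1) z = qf A z - t * qf A1 z := by
  simp only [qf, Prod.fst_sub, Prod.snd_sub, Prod.smul_fst, Prod.smul_snd, smul_eq_mul]
  ring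

theorem cd_rc (a b : ℤ × ℤ) : cd (rc a) (rc b) = (dt a b : ℝ) := by
  simp only [cd, rc, dt]
  push_cast
  ring

/-- the parameters -/
structure Par (M c K L T : ℝ) : Prop where
  hM : 1 ≤ M
  hc : 1 ≤ c
  hK : 1 ≤ K
  hL : 1 ≤ L
  hT : 1 ≤ T
  h1 : 36 * L * K ≤ T
  h2 : M * (M * c ^ 2 + M * (3 * L) ^ 2) ≤ (T / (6 * K)) ^ 2
  h3 : 72 * M ^ 2 * K * L ≤ T

theorem Par.nr_lower {M c K L T : ℝ} (P : Par M c K L T) {a b : ℤ × ℤ}
    (hb : nz b ≤ (3 * T) ^ 2) (hab : T ^ 2 / (2 * K) ≤ |(dt a b : ℝ)|) :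
    (T / (6 * K)) ^ 2 ≤ nz a := by
  have hK0 : 0 < K := by linarith [P.hK]
  have hT0 : 0 < T := by linarith [P.hT]
  obtain ⟨s, hs⟩ : ∃ s, s = ln a := ⟨_, rfl⟩
  have hs0 : 0 ≤ s := hs ▸ ln_nonneg a
  have hss : s ^ 2 = nz a := hs ▸ ln_sq a
  have h1 := abs_cd_le (u := rc a) (v := rc b) hs0 (by linarith : 0 ≤ 3 * T) (le_of_eq hss.symm) hb
  rw [cd_rc] at h1
  have h2 : T ^ 2 / (2 * K) ≤ s * (3 * T) := hab.trans h1
  have h3 : T / (6 * K) ≤ s := by
    rw [div_le_iff₀ (by positivity)] at h2 ⊢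
    have h4 : T * T ≤ T * (s * (6 * K)) := by nlinarith
    exact le_of_mul_le_mul_left h4 hT0
  rw [← hss]
  exact pow_le_pow_left₀ (by positivity) h3 2

theorem Par.close {M c K L T : ℝ} (P : Par M c K L T) {A A1 : ℝ × ℝ × ℝ} (hA : A ∈ KM M)
    (hA1 : A1 ∈ KM M) {a b g : ℤ × ℤ} (ha : nz a ≤ (3 * T) ^ 2) (hb : nz b ≤ (3 * T) ^ 2)
    (hg : g ≠ 0) (hgL : ln g ≤ 3 * L) (hab : T ^ 2 / (2 * K) ≤ |(dt a b : ℝ)|)
    (v1 : |qz A a - qz A b| ≤ c) (v2 : |qz A (a + g) - qz A a| ≤ c)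
    (w1 : |qz A1 a - qz A1 b| ≤ c) (w2 : |qz A1 (a + g) - qz A1 a| ≤ c) :
    ∃ t : ℝ, 1 / M ^ 2 ≤ t ∧ t ≤ M ^ 2 ∧ qz A a = t * qz A1 a ∧
      ∀ z : ℝ × ℝ, nr z ≤ (3 * T) ^ 2 →
        |qf A z - t * qf A1 z| ≤ 20000 * K ^ 2 * M ^ 4 * c * (T / ln g) := by
  have hM := P.hM
  have hM0 : 0 < M := by linarith
  have hK0 : 0 < K := by linarith [P.hK]
  have hT0 : 0 < T := by linarith [P.hT]
  have hL0 : 0 < L := by linarith [P.hL]
  have hc0 : 0 < c := by linarith [P.hc]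
  have hna := P.nr_lower hb hab
  have hp0 : 0 < T / (6 * K) := by positivity
  have hna0 : 0 < nr (rc a) := lt_of_lt_of_le (by positivity) hna
  have hg1 := one_le_ln hg
  have hgn : nr (rc g) = ln g ^ 2 := (ln_sq g).symm
  -- the factor
  have hq : 0 < qf A (rc a) := lt_of_lt_of_le (by positivity) (hA (rc a)).1
  have hq1 : 0 < qf A1 (rc a) := lt_of_lt_of_le (by positivity) (hA1 (rc a)).1
  obtain ⟨t, ht⟩ : ∃ t, t = qf A (rc a) / qf A1 (rc a) := ⟨_, rfl⟩
  have hta : qf A (rc a) = t * qf A1 (rc a) := by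
    rw [ht]
    field_simp
  have e1 := (hA (rc a)).1
  have e2 := (hA (rc a)).2
  have e3 := (hA1 (rc a)).1
  have e4 := (hA1 (rc a)).2
  have htl : 1 / M ^ 2 ≤ t := by
    rw [ht, div_le_div_iff₀ (by positivity) hq1]
    rw [div_le_iff₀ hM0] at e1
    nlinarith
  have htu : t ≤ M ^ 2 := by
    rw [ht, div_le_iff₀ hq1]
    rw [div_le_iff₀ hM0] at e3
    nlinarith
  have ht0 : 0 < t := lt_of_lt_of_le (by positivity) htl
  refine ⟨t, htl, htu, hta, fun z hz => ?_⟩
  obtain ⟨B, hB⟩ : ∃ B, B = A - t • A1 := ⟨_, rfl⟩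
  have hBz : ∀ z, qf B z = qf A z - t * qf A1 z := by
    intro z
    rw [hB, qf_sub_smul]
  have x1 : qf B (rc a) = 0 := by
    rw [hBz, hta]
    ring
  have hcc : c * (1 + t) ≤ 2 * c * M ^ 2 := by
    have : 1 ≤ M ^ 2 := one_le_pow₀ hM
    nlinarith
  have x2 : |qf B (rc b)| ≤ 2 * c * M ^ 2 := by
    have e : qf B (rc b) = -(qz A a - qz A b) + t * (qz A1 a - qz A1 b) := by
      have e5 : qz A a = t * qz A1 a := hta
      rw [hBz, e5]
      simp only [qz]
      ring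
    rw [e]
    refine (abs_add_le _ _).trans ?_
    rw [abs_neg, abs_mul, abs_of_pos ht0]
    have := mul_le_mul_of_nonneg_left w1 ht0.le
    linarith
  have x3 : |qf B (rc a + rc g)| ≤ 2 * c * M ^ 2 := by
    have e0 : rc a + rc g = rc (a + g) := by
      ext <;> simp [rc]
    have e : qf B (rc a + rc g) = (qz A (a + g) - qz A a) - t * (qz A1 (a + g) - qz A1 a) := by
      have e5 : qz A a = t * qz A1 a := hta
      rw [hBz, e5, e0]
      simp only [qz]
      ring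
    rw [e]
    refine (abs_sub _ _).trans ?_
    rw [abs_mul, abs_of_pos ht0]
    have := mul_le_mul_of_nonneg_left w2 ht0.le
    linarith
  have y1 := expand B (rc a) (rc b) (rc a + rc g)
  have y2 := expand B (rc a) (rc b) z
  have s1 : cd (rc a + rc g) (rc b) = cd (rc a) (rc b) + cd (rc g) (rc b) := by
    simp only [cd, Prod.fst_add, Prod.snd_add]
    ring
  have s2 : cd (rc a) (rc a + rc g) = cd (rc a) (rc g) := by
    simp only [cd, Prod.fst_add, Prod.snd_add]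
    ring
  rw [s1, s2] at y1
  have hΔ : T ^ 2 / (2 * K) ≤ |cd (rc a) (rc b)| := by
    rw [cd_rc]
    exact hab
  have hΔ0 : 0 < T ^ 2 / (2 * K) := by positivity
  have z1 : 9 * T * L ≤ T ^ 2 / (4 * K) := by
    rw [le_div_iff₀ (by positivity)]
    have := mul_le_mul_of_nonneg_left P.h1 hT0.le
    nlinarith
  have z2 : T ^ 2 / (4 * K) = T ^ 2 / (2 * K) / 2 := by
    field_simp
    ring
  have z3 : |cd (rc a) (rc g)| ≤ 9 * T * L := by
    have := abs_cd_le (u := rc a) (v := rc g) (by linarith : 0 ≤ 3 * T)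
      (by linarith : 0 ≤ 3 * L) ha (by
        rw [hgn]
        exact pow_le_pow_left₀ (by linarith) hgL 2)
    linarith
  have z4 : |cd (rc g) (rc b)| ≤ 9 * T * L := by
    have := abs_cd_le (u := rc g) (v := rc b) (by linarith : 0 ≤ 3 * L)
      (by linarith : 0 ≤ 3 * T) (by
        rw [hgn]
        exact pow_le_pow_left₀ (by linarith) hgL 2) hb
    linarith
  have z5 : ln g * (T / (6 * K)) ≤ 2 * M ^ 2 * |cd (rc a) (rc g)| := by
    refine cd_lower hM hA1 (c := c) (l := 3 * L) (by linarith) ?_ ?_ hgn hp0.le hna ?_ P.h2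
    · rw [hgn]
      exact one_le_pow₀ hg1
    · rw [hgn]
      exact pow_le_pow_left₀ (by linarith) hgL 2
    · have e0 : rc a + rc g = rc (a + g) := by
        ext <;> simp [rc]
      rw [e0]
      exact w2
  have z6 : ln g * T / (12 * K * M ^ 2) ≤ |cd (rc a) (rc g)| := by
    rw [div_le_iff₀ (by positivity)]
    have e : ln g * (T / (6 * K)) = ln g * T / (6 * K) := by ring
    rw [e, div_le_iff₀ (by positivity)] at z5
    linarith
  have z7 : 0 < ln g * T / (12 * K * M ^ 2) := by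
    have : 0 < ln g := by linarith
    positivity
  have fin := small_form (c := 2 * c * M ^ 2) (P := 9 * T ^ 2) (by positivity) x1 x2 x3 y1 y2
    (by linarith) (by linarith) (by linarith) (by linarith) (by
      have := abs_cd_le (u := z) (v := rc b) (by linarith : 0 ≤ 3 * T) (by linarith : 0 ≤ 3 * T)
        hz hb
      linarith) (by
      have := abs_cd_le (u := rc a) (v := z) (by linarith : 0 ≤ 3 * T) (by linarith : 0 ≤ 3 * T)
        ha hz
      linarith)
  rw [← hBz]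
  refine fin.trans ?_
  calc 5 * (9 * T ^ 2) ^ 2 * (2 * c * M ^ 2) / (|cd (rc a) (rc b)| * |cd (rc a) (rc g)|) ≤
      5 * (9 * T ^ 2) ^ 2 * (2 * c * M ^ 2) / (T ^ 2 / (2 * K) * (ln g * T / (12 * K * M ^ 2))) := by
        gcongr
    _ = 19440 * K ^ 2 * M ^ 4 * c * (T / ln g) := by
        have : 0 < ln g := by linarith
        field_simp
        ring
    _ ≤ _ := by
        have h0 : 0 < ln g := by linarith
        have h1 : 0 ≤ K ^ 2 * M ^ 4 * c * (T / ln g) := by positivity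
        have e5 : 19440 * K ^ 2 * M ^ 4 * c * (T / ln g) =
            19440 * (K ^ 2 * M ^ 4 * c * (T / ln g)) := by ring
        have e6 : 20000 * K ^ 2 * M ^ 4 * c * (T / ln g) =
            20000 * (K ^ 2 * M ^ 4 * c * (T / ln g)) := by ring
        rw [e5, e6]
        linarith

end Pool.Agent.Helper96_DZ
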