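import Pool.Agent.Helper96_DZ.Close

/-!
MP_f5cbfa_nt (helper96): sums over triples and differences of the measures of the sets of forms.
-/

set_option autoImplicit false

open MeasureTheory Set

open scoped BigOperators ENNReal

namespace Pool.Agent.Helper96_DZ

open Pool.Agent.BTL Pool.Agent.Helper30_FC

/-- forms with three nearly equal values -/
def Tb (M c : ℝ) (a b d : ℤ × ℤ) : Set (ℝ × ℝ × ℝ) :=
  {A | A ∈ KM M ∧ |qz A a - qz A b| ≤ c ∧ |qz A a - qz A d| ≤ c ∧ |qz A b - qz A d| ≤ c}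

/-- and in addition the value at `a + g` -/
def Tg (M c : ℝ) (a b d g : ℤ × ℤ) : Set (ℝ × ℝ × ℝ) :=
  {A | A ∈ Tb M c a b d ∧ |qz A (a + g) - qz A a| ≤ c}

theorem dot_vv_sub (A : ℝ × ℝ × ℝ) (x y : ℤ × ℤ) : dot A (vv x - vv y) = qz A x - qz A y := by
  simp only [dot, vv, qz, qf, rc, Prod.fst_sub, Prod.snd_sub]
  ring

theorem continuous_qz (x : ℤ × ℤ) : Continuous fun A : ℝ × ℝ × ℝ => qz A x := by
  unfold qz qf
  fun_prop

theorem isClosed_KM (M : ℝ) : IsClosed (KM M) := by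
  have : KM M = ⋂ x : ℝ × ℝ, ({A | nr x / M ≤ qf A x} ∩ {A | qf A x ≤ M * nr x}) := by
    ext A
    simp only [KM, Set.mem_ofPred_eq, Set.mem_iInter, Set.mem_inter_iff]
  rw [this]
  have hc : ∀ x : ℝ × ℝ, Continuous fun A : ℝ × ℝ × ℝ => qf A x := by
    intro x
    unfold qf
    fun_prop
  exact isClosed_iInter fun x =>
    (isClosed_le continuous_const (hc x)).inter (isClosed_le (hc x) continuous_const)

theorem measurableSet_Tb (M c : ℝ) (a b d : ℤ × ℤ) : MeasurableSet (Tb M c a b d) := by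
  have h : ∀ x y : ℤ × ℤ, IsClosed {A : ℝ × ℝ × ℝ | |qz A x - qz A y| ≤ c} := fun x y =>
    isClosed_le ((continuous_qz x).sub (continuous_qz y)).abs continuous_const
  exact ((isClosed_KM M).inter ((h a b).inter ((h a d).inter (h b d)))).measurableSet

theorem measurableSet_Tg (M c : ℝ) (a b d g : ℤ × ℤ) : MeasurableSet (Tg M c a b d g) := by
  have h : ∀ x y : ℤ × ℤ, IsClosed {A : ℝ × ℝ × ℝ | |qz A x - qz A y| ≤ c} := fun x y =>
    isClosed_le ((continuous_qz x).sub (continuous_qz y)).abs continuous_const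
  exact (measurableSet_Tb M c a b d).inter (h (a + g) a).measurableSet

/-- measure of the set of forms with three nearly equal values -/
theorem Par.vol_Tb {M c K L T : ℝ} (P : Par M c K L T) {a b d : ℤ × ℤ} (ha : nz a ≤ (3 * T) ^ 2)
    (hab : T ^ 2 / (2 * K) ≤ |(dt a b : ℝ)|) (had : T ^ 2 / (2 * K) ≤ |(dt a d : ℝ)|)
    (hbd : T ^ 2 / (2 * K) ≤ |(dt b d : ℝ)|) :
    volume (Tb M c a b d) ≤ ENNReal.ofReal (576 * M * c ^ 2 * K ^ 3 / T ^ 4) := by
  have hM := P.hM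
  have hM0 : 0 < M := by linarith
  have hK0 : 0 < K := by linarith [P.hK]
  have hT0 : 0 < T := by linarith [P.hT]
  have hc0 : 0 < c := by linarith [P.hc]
  have hD0 : 0 < T ^ 2 / (2 * K) := by positivity
  have h1 := Pool.Agent.BTL.Assembly.kr_lower a b d
  have h2 : (T ^ 2 / (2 * K)) ^ 3 ≤ |(dt a b : ℝ) * (dt a d : ℝ) * (dt b d : ℝ)| := by
    rw [abs_mul, abs_mul]
    calc (T ^ 2 / (2 * K)) ^ 3 = T ^ 2 / (2 * K) * (T ^ 2 / (2 * K)) * (T ^ 2 / (2 * K)) := by ring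
      _ ≤ _ := by gcongr
  have hkr0 : 0 ≤ kr a b d := norm_nonneg _
  have h3 : (T ^ 2 / (2 * K)) ^ 3 ≤ kr a b d * (3 * T) ^ 2 :=
    h2.trans (h1.trans (mul_le_mul_of_nonneg_left ha hkr0))
  have h4 : T ^ 4 / (72 * K ^ 3) ≤ kr a b d := by
    rw [div_le_iff₀ (by positivity)]
    have e : (T ^ 2 / (2 * K)) ^ 3 = T ^ 6 / (8 * K ^ 3) := by
      rw [div_pow, mul_pow]
      ring
    rw [e, div_le_iff₀ (by positivity)] at h3
    have h5 : T ^ 2 * T ^ 4 ≤ T ^ 2 * (kr a b d * (72 * K ^ 3)) := by nlinarith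
    exact le_of_mul_le_mul_left h5 (by positivity)
  have h40 : 0 < T ^ 4 / (72 * K ^ 3) := by positivity
  have hcr : cr (vv a - vv b) (vv b - vv d) ≠ 0 := by
    intro h
    have : kr a b d = 0 := by
      rw [kr, h, norm_zero]
    linarith
  have h5 := Pool.Agent.BTL.Assembly.slab2 M hM0 (vv a - vv b) (vv b - vv d) hcr 0 0 c c hc0.le
    hc0.le
  refine (measure_mono fun A hA => ?_).trans (h5.trans (ENNReal.ofReal_le_ofReal ?_))
  · refine ⟨KM_abs_le hM hA.1, ?_, ?_⟩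
    · rw [dot_vv_sub, sub_zero]
      exact hA.2.1
    · rw [dot_vv_sub, sub_zero]
      exact hA.2.2.2
  · change 8 * M * c * c / kr a b d ≤ _
    calc 8 * M * c * c / kr a b d ≤ 8 * M * c * c / (T ^ 4 / (72 * K ^ 3)) := by gcongr
      _ = _ := by
        field_simp
        ring

/-- the points `d` for fixed `a`, `b`, `g` -/
theorem sum_d {M : ℝ} (hM : 1 ≤ M) {c : ℝ} (hc : 1 ≤ c) : ∃ C : ℝ, 1 ≤ C ∧ ∀ K L T : ℝ,
    Par M c K L T → ∀ a b g : ℤ × ℤ, nz a ≤ (3 * T) ^ 2 → nz b ≤ (3 * T) ^ 2 → g ≠ 0 →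
    ln g ≤ 3 * L → T ^ 2 / (2 * K) ≤ |(dt a b : ℝ)| → ∀ S : Finset (ℤ × ℤ),
    (∀ d ∈ S, nz d ≤ (3 * T) ^ 2 ∧ T ^ 2 / (2 * K) ≤ |(dt a d : ℝ)| ∧
      T ^ 2 / (2 * K) ≤ |(dt b d : ℝ)|) →
    ∑ d ∈ S, volume (Tg M c a b d g) ≤
      ENNReal.ofReal (C * (K ^ 3 / T ^ 4 * (K ^ 2 * (T / ln g) + T ^ (2 / 3 : ℝ)))) := by
  classical
  obtain ⟨CJ, hCJ, hJ⟩ := annulus hM
  have hM0 : 0 < M := by linarith
  have hc0 : 0 < c := by linarith
  have hM6 : 1 ≤ M ^ 6 := one_le_pow₀ hM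
  refine ⟨CJ * (20001 * M ^ 6 * c) * (576 * M * c ^ 2), by
    have h1 : 1 ≤ 20001 * M ^ 6 * c := by nlinarith
    have h2 : 1 ≤ 576 * M * c ^ 2 := by nlinarith [one_le_pow₀ hc (n := 2)]
    have h3 : 1 ≤ CJ * (20001 * M ^ 6 * c) := one_le_mul_of_one_le_of_one_le hCJ h1
    exact one_le_mul_of_one_le_of_one_le h3 h2, ?_⟩
  intro K L T P a b g ha hb hg hgL hab S hS
  have hK0 : 0 < K := by linarith [P.hK]
  have hT0 : 0 < T := by linarith [P.hT]
  have hL0 : 0 < L := by linarith [P.hL]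
  have hg1 := one_le_ln hg
  have hg0 : 0 < ln g := by linarith
  have hT23 : 0 ≤ T ^ (2 / 3 : ℝ) := Real.rpow_nonneg hT0.le _
  obtain ⟨S', hS'⟩ : ∃ S' : Finset (ℤ × ℤ), S' = S.filter fun d => (Tg M c a b d g).Nonempty :=
    ⟨_, rfl⟩
  have hsum : ∑ d ∈ S, volume (Tg M c a b d g) = ∑ d ∈ S', volume (Tg M c a b d g) := by
    rw [hS', Finset.sum_filter]
    refine Finset.sum_congr rfl fun d _ => ?_
    split_ifs with h
    · rfl
    · rw [Set.not_nonempty_iff_eq_empty.1 h, measure_empty]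
  have hle : ∀ d ∈ S', volume (Tg M c a b d g) ≤
      ENNReal.ofReal (576 * M * c ^ 2 * K ^ 3 / T ^ 4) := by
    intro d hd
    rw [hS', Finset.mem_filter] at hd
    obtain ⟨h1, h2, h3⟩ := hS d hd.1
    exact (measure_mono fun A hA => hA.1).trans (P.vol_Tb ha hab h2 h3)
  have hcard : (S'.card : ℝ) ≤ CJ * (20001 * M ^ 6 * c) * (K ^ 2 * (T / ln g) + T ^ (2 / 3 : ℝ)) := by
    rcases S'.eq_empty_or_nonempty with h0 | ⟨d0, hd0⟩
    · rw [h0]
      simp only [Finset.card_empty, Nat.cast_zero]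
      positivity
    · rw [hS', Finset.mem_filter] at hd0
      obtain ⟨A1, hA1⟩ := hd0.2
      obtain ⟨W0, hW0⟩ : ∃ W0, W0 = 20000 * K ^ 2 * M ^ 4 * c * (T / ln g) := ⟨_, rfl⟩
      have hW00 : 0 ≤ W0 := by
        rw [hW0]
        positivity
      have hin : ∀ d ∈ S', |qz A1 d - qz A1 a| ≤ M ^ 2 * (c + W0) := by
        intro d hd
        rw [hS', Finset.mem_filter] at hd
        obtain ⟨A, hA⟩ := hd.2
        obtain ⟨t, ht1, ht2, ht3, ht4⟩ := P.close hA.1.1 hA1.1.1 ha hb hg hgL hab hA.1.2.1 hA.2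
          hA1.1.2.1 hA1.2
        have h1 := ht4 (rc d) (hS d hd.1).1
        rw [← hW0] at h1
        have h2 : |qz A a - qz A d| ≤ c := hA.1.2.2.1
        have ht0 : 0 < t := lt_of_lt_of_le (by positivity) ht1
        have h3 : t * (qz A1 d - qz A1 a) = -(qz A a - qz A d) - (qf A (rc d) - t * qf A1 (rc d)) := by
          rw [ht3]
          simp only [qz]
          ring
        have h4 : t * |qz A1 d - qz A1 a| ≤ c + W0 := by
          have h5 : t * |qz A1 d - qz A1 a| = |t * (qz A1 d - qz A1 a)| := by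
            rw [abs_mul, abs_of_pos ht0]
          rw [h5, h3]
          refine (abs_sub _ _).trans ?_
          rw [abs_neg]
          exact add_le_add h2 h1
        have h5 : 1 / M ^ 2 * |qz A1 d - qz A1 a| ≤ c + W0 :=
          (mul_le_mul_of_nonneg_right ht1 (abs_nonneg _)).trans h4
        have h6 : |qz A1 d - qz A1 a| = M ^ 2 * (1 / M ^ 2 * |qz A1 d - qz A1 a|) := by
          field_simp
        rw [h6]
        exact mul_le_mul_of_nonneg_left h5 (sq_nonneg _)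
      have hs : qz A1 a ≤ 9 * M * T ^ 2 := by
        have h1 := (hA1.1.1 (rc a)).2
        have h2 : nr (rc a) = nz a := rfl
        rw [h2] at h1
        have h3 := mul_le_mul_of_nonneg_left ha hM0.le
        calc qz A1 a ≤ M * nz a := h1
          _ ≤ M * (3 * T) ^ 2 := h3
          _ = _ := by ring
      have h23 : (T ^ (2 / 3 : ℝ)) ^ 3 = T ^ 2 := by
        rw [← Real.rpow_natCast, ← Real.rpow_mul hT0.le, ← Real.rpow_natCast]
        norm_num
      have hfin := hJ A1 hA1.1.1 (M ^ 2 * (c + W0) + 9 * M * T ^ (2 / 3 : ℝ)) (qz A1 a) (by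
        have h1 : 1 ≤ M ^ 2 := one_le_pow₀ hM
        have h2 : 1 ≤ M ^ 2 * (c + W0) := by nlinarith
        have h3 : 0 ≤ 9 * M * T ^ (2 / 3 : ℝ) := by positivity
        linarith) (by
        calc qz A1 a ≤ 9 * M * T ^ 2 := hs
          _ ≤ 729 * M ^ 3 * T ^ 2 := by
            have h1 : M ≤ M ^ 3 := by
              have := pow_le_pow_right₀ hM (show 1 ≤ 3 by norm_num)
              linarith [pow_one M]
            have h2 : 9 * M ≤ 729 * M ^ 3 := by nlinarith
            exact mul_le_mul_of_nonneg_right h2 (sq_nonneg T)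
          _ = (9 * M * T ^ (2 / 3 : ℝ)) ^ 3 := by
            rw [mul_pow, mul_pow, h23]
            ring
          _ ≤ _ := by
            have : 0 ≤ M ^ 2 * (c + W0) := by positivity
            gcongr
            linarith) S' (fun d hd => (hin d hd).trans (by
        have h3 : 0 ≤ 9 * M * T ^ (2 / 3 : ℝ) := by positivity
        linarith))
      refine hfin.trans ?_
      have hTg : 1 ≤ T / ln g := by
        rw [one_le_div hg0]
        have h1 := P.h3
        have h2 : 3 * L ≤ 72 * M ^ 2 * K * L := by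
          have h3 : 1 ≤ M ^ 2 * K := one_le_mul_of_one_le_of_one_le (one_le_pow₀ hM) P.hK
          nlinarith
        linarith
      have hK2 : 1 ≤ K ^ 2 := one_le_pow₀ P.hK
      have h4 : M ^ 2 * (c + W0) ≤ 20001 * M ^ 6 * c * (K ^ 2 * (T / ln g)) := by
        rw [hW0]
        have h5 : M ^ 2 * c ≤ M ^ 6 * c * (K ^ 2 * (T / ln g)) := by
          have h6 : M ^ 2 ≤ M ^ 6 := pow_le_pow_right₀ hM (by norm_num)
          calc M ^ 2 * c ≤ M ^ 6 * c := by gcongr
            _ ≤ _ := le_mul_of_one_le_right (by positivity)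
                (one_le_mul_of_one_le_of_one_le hK2 hTg)
        calc _ = M ^ 2 * c + 20000 * (M ^ 6 * c * (K ^ 2 * (T / ln g))) := by ring
          _ ≤ M ^ 6 * c * (K ^ 2 * (T / ln g)) + 20000 * (M ^ 6 * c * (K ^ 2 * (T / ln g))) := by
            linarith
          _ = _ := by ring
      have h5 : 9 * M * T ^ (2 / 3 : ℝ) ≤ 20001 * M ^ 6 * c * T ^ (2 / 3 : ℝ) := by
        refine mul_le_mul_of_nonneg_right ?_ hT23
        have h6 : M ≤ M ^ 6 := by
          have := pow_le_pow_right₀ hM (show 1 ≤ 6 by norm_num)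
          linarith [pow_one M]
        have h7 : M ^ 6 ≤ M ^ 6 * c := le_mul_of_one_le_right (by positivity) hc
        nlinarith
      calc CJ * (M ^ 2 * (c + W0) + 9 * M * T ^ (2 / 3 : ℝ)) ≤
          CJ * (20001 * M ^ 6 * c * (K ^ 2 * (T / ln g)) + 20001 * M ^ 6 * c * T ^ (2 / 3 : ℝ)) := by
            gcongr
        _ = _ := by ring
  rw [hsum]
  calc ∑ d ∈ S', volume (Tg M c a b d g) ≤
      ∑ _d ∈ S', ENNReal.ofReal (576 * M * c ^ 2 * K ^ 3 / T ^ 4) := Finset.sum_le_sum hle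
    _ = (S'.card : ℝ≥0∞) * ENNReal.ofReal (576 * M * c ^ 2 * K ^ 3 / T ^ 4) := by
        rw [Finset.sum_const, nsmul_eq_mul]
    _ = ENNReal.ofReal (S'.card * (576 * M * c ^ 2 * K ^ 3 / T ^ 4)) := by
        rw [ENNReal.ofReal_mul (Nat.cast_nonneg _), ENNReal.ofReal_natCast]
    _ ≤ _ := by
        refine ENNReal.ofReal_le_ofReal ?_
        calc _ ≤ CJ * (20001 * M ^ 6 * c) * (K ^ 2 * (T / ln g) + T ^ (2 / 3 : ℝ)) *
              (576 * M * c ^ 2 * K ^ 3 / T ^ 4) := by gcongr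
          _ = _ := by ring

end Pool.Agent.Helper96_DZ
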