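import Pool.Agent.Helper96_DZ.Arc
import Pool.Agent.Helper96_DZ.J

/-!
MP_f5cbfa_nt (helper96): forms with three nearly equal values; they agree up to a factor.
-/

set_option autoImplicit false

open MeasureTheory Set

namespace Pool.Agent.Helper96_DZ

open Pool.Agent.BTL Pool.Agent.Helper30_FC

theorem abs_cd_le {u v : ℝ × ℝ} {p q : ℝ} (hp : 0 ≤ p) (hq : 0 ≤ q) (hu : nr u ≤ p ^ 2)
    (hv : nr v ≤ q ^ 2) : |cd u v| ≤ p * q := by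
  apply abs_le_of_sq_le_sq _ (mul_nonneg hp hq)
  have h1 : cd u v ^ 2 ≤ nr u * nr v := by
    simp only [cd, nr]
    nlinarith [sq_nonneg (u.1 * v.1 + u.2 * v.2)]
  have h2 : nr u * nr v ≤ p ^ 2 * q ^ 2 := mul_le_mul hu hv (nr_nonneg _) (sq_nonneg _)
  calc cd u v ^ 2 ≤ nr u * nr v := h1
    _ ≤ p ^ 2 * q ^ 2 := h2
    _ = (p * q) ^ 2 := by ring

/-- expansion of a form in the basis `a`, `b` -/
theorem expand (A : ℝ × ℝ × ℝ) (a b z : ℝ × ℝ) :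
    cd a b ^ 2 * qf A z = cd z b ^ 2 * qf A a + 2 * cd z b * cd a z * bf A a b +
      cd a z ^ 2 * qf A b := by
  simp only [cd, qf, bf]
  ring

/-- a form which is zero at `a` and small at `b` and `a + g` is small -/
theorem small_form {qa qb qag qz' d12 Δ cg cgb czb caz c P : ℝ} (hc : 0 ≤ c) (hqa : qa = 0)
    (hqb : |qb| ≤ c) (hqag : |qag| ≤ c)
    (h1 : Δ ^ 2 * qag = (Δ + cgb) ^ 2 * qa + 2 * (Δ + cgb) * cg * d12 + cg ^ 2 * qb)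
    (h2 : Δ ^ 2 * qz' = czb ^ 2 * qa + 2 * czb * caz * d12 + caz ^ 2 * qb)
    (hΔ : 0 < |Δ|) (hcg : 0 < |cg|) (hcgΔ : |cg| ≤ |Δ|) (hcgb : 2 * |cgb| ≤ |Δ|)
    (hczb : |czb| ≤ P) (hcaz : |caz| ≤ P) :
    |qz'| ≤ 5 * P ^ 2 * c / (|Δ| * |cg|) := by
  have hP : 0 ≤ P := (abs_nonneg _).trans hczb
  rw [hqa, mul_zero, zero_add] at h1 h2
  have hΔ2 : |Δ| ^ 2 = Δ ^ 2 := sq_abs Δ
  -- the mixed entry
  have hm : |d12| ≤ 2 * c * |Δ| / |cg| := by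
    rw [le_div_iff₀ hcg]
    have e : 2 * (Δ + cgb) * cg * d12 = Δ ^ 2 * qag - cg ^ 2 * qb := by linarith
    have h3 : |Δ| / 2 ≤ |Δ + cgb| := by
      have := abs_sub_abs_le_abs_sub Δ (-cgb)
      rw [abs_neg, sub_neg_eq_add] at this
      linarith
    have h4 : |2 * (Δ + cgb) * cg * d12| ≤ 2 * (|Δ| ^ 2 * c) := by
      rw [e]
      refine (abs_sub _ _).trans ?_
      rw [abs_mul, abs_mul, abs_of_nonneg (sq_nonneg Δ), abs_of_nonneg (sq_nonneg cg), ← hΔ2]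
      have h5 : cg ^ 2 ≤ |Δ| ^ 2 := by
        rw [← sq_abs cg]
        exact pow_le_pow_left₀ (abs_nonneg _) hcgΔ 2
      have h6 : |Δ| ^ 2 * |qag| ≤ |Δ| ^ 2 * c := mul_le_mul_of_nonneg_left hqag (sq_nonneg _)
      have h7 : cg ^ 2 * |qb| ≤ |Δ| ^ 2 * c := mul_le_mul h5 hqb (abs_nonneg _) (sq_nonneg _)
      linarith
    have h8 : |2 * (Δ + cgb) * cg * d12| = 2 * |Δ + cgb| * (|d12| * |cg|) := by
      rw [abs_mul, abs_mul, abs_mul, abs_two]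
      ring
    rw [h8] at h4
    have h9 : |Δ| * (|d12| * |cg|) ≤ |Δ| * (2 * c * |Δ|) := by
      calc |Δ| * (|d12| * |cg|) = 2 * (|Δ| / 2) * (|d12| * |cg|) := by ring
        _ ≤ 2 * |Δ + cgb| * (|d12| * |cg|) := by gcongr
        _ ≤ 2 * (|Δ| ^ 2 * c) := h4
        _ = _ := by ring
    exact le_of_mul_le_mul_left h9 hΔ
  have h3 : |Δ| ^ 2 * |qz'| ≤ 2 * P * P * (2 * c * |Δ| / |cg|) + P ^ 2 * c := by
    have e : |Δ| ^ 2 * |qz'| = |Δ ^ 2 * qz'| := by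
      rw [abs_mul, abs_of_nonneg (sq_nonneg Δ), hΔ2]
    rw [e, h2]
    refine (abs_add_le _ _).trans (add_le_add ?_ ?_)
    · rw [abs_mul, abs_mul, abs_mul, abs_two]
      gcongr
    · rw [abs_mul, abs_of_nonneg (sq_nonneg caz), ← sq_abs caz]
      gcongr
  rw [le_div_iff₀ (by positivity)]
  have h4 : 2 * P * P * (2 * c * |Δ| / |cg|) + P ^ 2 * c ≤ 5 * P ^ 2 * c * (|Δ| / |cg|) := by
    have h5 : 1 ≤ |Δ| / |cg| := by
      rw [one_le_div hcg]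
      exact hcgΔ
    have h6 : P ^ 2 * c * 1 ≤ P ^ 2 * c * (|Δ| / |cg|) :=
      mul_le_mul_of_nonneg_left h5 (by positivity)
    have e : 2 * P * P * (2 * c * |Δ| / |cg|) = 4 * (P ^ 2 * c * (|Δ| / |cg|)) := by ring
    rw [e]
    linarith
  have h5 : |Δ| ^ 2 * |qz'| ≤ 5 * P ^ 2 * c * (|Δ| / |cg|) := h3.trans h4
  have h6 : |Δ| * (|qz'| * (|Δ| * |cg|)) ≤ |Δ| * (5 * P ^ 2 * c) := by
    calc |Δ| * (|qz'| * (|Δ| * |cg|)) = (|Δ| ^ 2 * |qz'|) * |cg| := by ring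
      _ ≤ (5 * P ^ 2 * c * (|Δ| / |cg|)) * |cg| := by gcongr
      _ = _ := by
        field_simp
  exact le_of_mul_le_mul_left h6 hΔ

/-- `g` is not parallel to `a` -/
theorem cd_lower {M : ℝ} (hM : 1 ≤ M) {A : ℝ × ℝ × ℝ} (hA : A ∈ KM M) {a g : ℝ × ℝ} {c l p ρ : ℝ}
    (hρ : 0 ≤ ρ) (hg1 : 1 ≤ nr g) (hgl : nr g ≤ l ^ 2) (hgρ : nr g = ρ ^ 2)
    (hp : 0 ≤ p) (hap : p ^ 2 ≤ nr a) (hv : |qf A (a + g) - qf A a| ≤ c)
    (hlp : M * (M * c ^ 2 + M * l ^ 2) ≤ p ^ 2) : ρ * p ≤ 2 * M ^ 2 * |cd a g| := by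
  have hM0 : 0 < M := by linarith
  obtain ⟨q, hq⟩ : ∃ q, q = qf A g := ⟨_, rfl⟩
  obtain ⟨Q, hQ⟩ : ∃ Q, Q = qf A a := ⟨_, rfl⟩
  have h1 := qf_add A a g
  have hq1 : nr g / M ≤ q := by
    rw [hq]
    exact (hA g).1
  have hq2 : q ≤ M * nr g := by
    rw [hq]
    exact (hA g).2
  have hQ1 : nr a / M ≤ Q := by
    rw [hQ]
    exact (hA a).1
  rw [div_le_iff₀ hM0] at hq1 hQ1
  have hq0 : 0 < q := by nlinarith
  have hb : |2 * bf A a g + q| ≤ c := by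
    have : qf A (a + g) - qf A a = 2 * bf A a g + q := by
      rw [h1, hq]
      ring
    rwa [this] at hv
  have hc0 : 0 ≤ c := (abs_nonneg _).trans hb
  have hb2 : 4 * bf A a g ^ 2 ≤ 2 * (c ^ 2 + q ^ 2) := by
    have h2 : (2 * bf A a g) ^ 2 ≤ (c + q) ^ 2 := by
      apply sq_le_sq'
      · rw [abs_le] at hb
        linarith [hb.1]
      · rw [abs_le] at hb
        linarith [hb.2]
    nlinarith [sq_nonneg (c - q)]
  have hb3 : 2 * bf A a g ^ 2 ≤ q * Q := by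
    have h2 : c ^ 2 ≤ c ^ 2 * (M * q) := by
      refine le_mul_of_one_le_right (sq_nonneg _) ?_
      linarith
    have h3 : q ^ 2 ≤ q * (M * l ^ 2) := by
      have : q ≤ M * l ^ 2 := hq2.trans (mul_le_mul_of_nonneg_left hgl hM0.le)
      nlinarith
    have h4 : M * (q * (M * c ^ 2 + M * l ^ 2)) ≤ M * (q * Q) := by
      have h5 : M * (M * c ^ 2 + M * l ^ 2) ≤ M * Q := by linarith
      have h6 := mul_le_mul_of_nonneg_left h5 hq0.le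
      nlinarith
    have h5 := le_of_mul_le_mul_left h4 hM0
    nlinarith
  have h2 := qf_mul_qf A a g
  rw [← hq, ← hQ] at h2
  have hd : disc A ≤ M ^ 2 := (KM_disc hM hA).2
  have h3 : q * Q ≤ 2 * (M ^ 2 * cd a g ^ 2) := by
    have h4 : disc A * cd a g ^ 2 ≤ M ^ 2 * cd a g ^ 2 :=
      mul_le_mul_of_nonneg_right hd (sq_nonneg _)
    nlinarith
  have h4 : ρ ^ 2 * p ^ 2 ≤ M ^ 2 * (q * Q) := by
    have h5 : ρ ^ 2 ≤ M * q := by
      rw [← hgρ]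
      linarith
    have h6 : p ^ 2 ≤ M * Q := by linarith
    calc ρ ^ 2 * p ^ 2 ≤ (M * q) * (M * Q) := mul_le_mul h5 h6 (sq_nonneg _) (by positivity)
      _ = _ := by ring
  have h5 : (ρ * p) ^ 2 ≤ (2 * M ^ 2 * |cd a g|) ^ 2 := by
    rw [mul_pow, mul_pow, sq_abs]
    have h6 : M ^ 2 * (q * Q) ≤ M ^ 2 * (2 * (M ^ 2 * cd a g ^ 2)) :=
      mul_le_mul_of_nonneg_left h3 (sq_nonneg _)
    have h7 : 0 ≤ M ^ 2 * (M ^ 2 * cd a g ^ 2) := by positivity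
    nlinarith
  exact le_of_sq_le_sq h5 (by positivity)

end Pool.Agent.Helper96_DZ
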