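import Pool.Agent.Helper96_DZ.Tot
import Pool.Agent.F5H.Defs

/-!
MP_f5cbfa_nt (helper96): the sum over triples and differences with a zero component.
-/

set_option autoImplicit false

open MeasureTheory Set

open scoped BigOperators ENNReal

namespace Pool.Agent.Helper96_DZ

open Pool.Agent.BTL Pool.Agent.Helper30_FC Pool.Agent.F5S Pool.Agent.F5H

/-- the value at `a + g` is close to the value at `a` -/
def nb (c L : ℝ) (A : ℝ × ℝ × ℝ) (a g : ℤ × ℤ) : Prop :=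
  ln g ≤ 3 * L ∧ |qz A (a + g) - qz A a| ≤ c

/-- forms for which all six values are close -/
def EE (M c L : ℝ) (x h : Z6) : Set (ℝ × ℝ × ℝ) :=
  {A | A ∈ Tb M c x.1 x.2.1 x.2.2 ∧ nb c L A x.1 h.1 ∧ nb c L A x.2.1 h.2.1 ∧
    nb c L A x.2.2 h.2.2}

theorem measurableSet_nb (c L : ℝ) (a g : ℤ × ℤ) : MeasurableSet {A : ℝ × ℝ × ℝ | nb c L A a g} := by
  have h : IsClosed {A : ℝ × ℝ × ℝ | |qz A (a + g) - qz A a| ≤ c} :=
    isClosed_le ((continuous_qz (a + g)).sub (continuous_qz a)).abs continuous_const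
  exact (MeasurableSet.const _).inter h.measurableSet

theorem measurableSet_EE (M c L : ℝ) (x h : Z6) : MeasurableSet (EE M c L x h) :=
  (measurableSet_Tb M c _ _ _).inter ((measurableSet_nb c L _ _).inter
    ((measurableSet_nb c L _ _).inter (measurableSet_nb c L _ _)))

open Classical in
/-- number of differences for one form -/
theorem comb {c L : ℝ} (A : ℝ × ℝ × ℝ) (x : Z6) (H : Finset Z6) (hH : ∀ h ∈ H, ¬ NZ h) :
    (H.filter fun h => nb c L A x.1 h.1 ∧ nb c L A x.2.1 h.2.1 ∧ nb c L A x.2.2 h.2.2).card ≤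
      (nc c L A x.2.1 + 1) * (nc c L A x.2.2 + 1) + (nc c L A x.1 + 1) * (nc c L A x.2.2 + 1) +
        (nc c L A x.1 + 1) * (nc c L A x.2.1 + 1) := by
  obtain ⟨F, hF⟩ : ∃ F : ℤ × ℤ → Finset (ℤ × ℤ), F = fun a =>
    insert 0 ((G0 L).filter fun g => |qz A (a + g) - qz A a| ≤ c) := ⟨_, rfl⟩
  have hcard : ∀ a, (F a).card ≤ nc c L A a + 1 := by
    intro a
    rw [hF]
    exact Finset.card_insert_le _ _
  have hmem : ∀ a g, nb c L A a g → g ∈ F a := by
    intro a g h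
    rw [hF]
    by_cases hg : g = 0
    · rw [hg]
      exact Finset.mem_insert_self _ _
    · exact Finset.mem_insert_of_mem (Finset.mem_filter.2 ⟨mem_G0.2 ⟨hg, h.1⟩, h.2⟩)
  have hsub : (H.filter fun h => nb c L A x.1 h.1 ∧ nb c L A x.2.1 h.2.1 ∧ nb c L A x.2.2 h.2.2) ⊆
      (({0} ×ˢ (F x.2.1 ×ˢ F x.2.2)) ∪ (F x.1 ×ˢ ({0} ×ˢ F x.2.2))) ∪
        (F x.1 ×ˢ (F x.2.1 ×ˢ {0})) := by
    intro h hh
    rw [Finset.mem_filter] at hh
    have m1 := hmem _ _ hh.2.1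
    have m2 := hmem _ _ hh.2.2.1
    have m3 := hmem _ _ hh.2.2.2
    have hz := hH h hh.1
    simp only [Finset.mem_union, Finset.mem_product, Finset.mem_singleton]
    by_cases h1 : h.1 = 0
    · exact Or.inl (Or.inl ⟨h1, m2, m3⟩)
    · by_cases h2 : h.2.1 = 0
      · exact Or.inl (Or.inr ⟨m1, h2, m3⟩)
      · by_cases h3 : h.2.2 = 0
        · exact Or.inr ⟨m1, m2, h3⟩
        · exact absurd ⟨h1, h2, h3⟩ hz
  refine (Finset.card_le_card hsub).trans ((Finset.card_union_le _ _).trans ?_)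
  refine add_le_add ((Finset.card_union_le _ _).trans (add_le_add ?_ ?_)) ?_
  · rw [Finset.card_product, Finset.card_product, Finset.card_singleton, one_mul]
    exact Nat.mul_le_mul (hcard _) (hcard _)
  · rw [Finset.card_product, Finset.card_product, Finset.card_singleton, one_mul]
    exact Nat.mul_le_mul (hcard _) (hcard _)
  · rw [Finset.card_product, Finset.card_product, Finset.card_singleton, mul_one]
    exact Nat.mul_le_mul (hcard _) (hcard _)

theorem Tb_swap12 (M c : ℝ) (a b d : ℤ × ℤ) : Tb M c a b d = Tb M c b a d := by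
  ext A
  simp only [Tb, Set.mem_ofPred_eq]
  rw [abs_sub_comm (qz A a) (qz A b)]
  tauto

theorem Tb_rot (M c : ℝ) (a b d : ℤ × ℤ) : Tb M c a b d = Tb M c d a b := by
  ext A
  simp only [Tb, Set.mem_ofPred_eq]
  rw [abs_sub_comm (qz A a) (qz A d), abs_sub_comm (qz A b) (qz A d)]
  tauto

theorem Gd_swap12 (D : ℝ) (a b d : ℤ × ℤ) : Gd D a b d ↔ Gd D b a d := by
  simp only [Gd]
  rw [dt_comm a b]
  tauto

theorem Gd_rot (D : ℝ) (a b d : ℤ × ℤ) : Gd D a b d ↔ Gd D d a b := by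
  simp only [Gd]
  rw [dt_comm a d, dt_comm b d]
  tauto

/-- the mean of the number of near coincidences -/
theorem lint_nc (M c L : ℝ) (a b d : ℤ × ℤ) :
    ∫⁻ A in Tb M c a b d, (nc c L A a : ℝ≥0∞) = ∑ g ∈ G0 L, volume (Tg M c a b d g) := by
  classical
  have h1 : ∀ A : ℝ × ℝ × ℝ, (nc c L A a : ℝ≥0∞) =
      ∑ g ∈ G0 L, ({A : ℝ × ℝ × ℝ | |qz A (a + g) - qz A a| ≤ c}).indicator 1 A := by
    intro A
    rw [nc, Finset.card_filter]
    push_cast
    refine Finset.sum_congr rfl fun g _ => ?_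
    by_cases h : |qz A (a + g) - qz A a| ≤ c
    · rw [Set.indicator_of_mem (show A ∈ {A : ℝ × ℝ × ℝ | |qz A (a + g) - qz A a| ≤ c} from h)]
      simp [h]
    · rw [Set.indicator_of_notMem (show A ∉ {A : ℝ × ℝ × ℝ | |qz A (a + g) - qz A a| ≤ c} from h)]
      simp [h]
  have hm : ∀ g, MeasurableSet {A : ℝ × ℝ × ℝ | |qz A (a + g) - qz A a| ≤ c} := fun g =>
    (isClosed_le ((continuous_qz (a + g)).sub (continuous_qz a)).abs
      continuous_const).measurableSet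
  simp only [h1]
  rw [lintegral_finsetSum _ fun g _ => measurable_one.indicator (hm g)]
  refine Finset.sum_congr rfl fun g _ => ?_
  rw [lintegral_indicator_one (hm g), Measure.restrict_apply (hm g)]
  congr 1
  ext A
  simp only [Tg, Set.mem_inter_iff, Set.mem_ofPred_eq]
  tauto

/-- one triple -/
theorem one_triple {M : ℝ} (hM : 1 ≤ M) {c : ℝ} (hc : 1 ≤ c) : ∃ C : ℝ, 1 ≤ C ∧ ∀ K L T : ℝ,
    Par M c K L T → ∀ H : Finset Z6, (∀ h ∈ H, ¬ NZ h) → ∀ a b d : ℤ × ℤ,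
    a ∈ ball (3 * T) → b ∈ ball (3 * T) → d ∈ ball (3 * T) → Gd (T ^ 2 / (2 * K)) a b d →
    ∑ h ∈ H, volume (EE M c L (a, b, d) h) ≤
      3 * volume (Tb M c a b d) + ENNReal.ofReal (2 * (1 + C * (1 + L * (K / T ^ (1 / 3 : ℝ))))) *
        (∑ g ∈ G0 L, volume (Tg M c a b d g) + ∑ g ∈ G0 L, volume (Tg M c b a d g) +
          ∑ g ∈ G0 L, volume (Tg M c d a b g)) := by
  classical
  obtain ⟨C, hC1, hC⟩ := nc_le hM hc
  refine ⟨C, hC1, ?_⟩
  intro K L T P H hH a b d ha hb hd hG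
  have hK0 : 0 < K := by linarith [P.hK]
  have hT0 : 0 < T := by linarith [P.hT]
  have hL0 : 0 < L := by linarith [P.hL]
  have hT13 : 0 < T ^ (1 / 3 : ℝ) := Real.rpow_pos_of_pos hT0 _
  obtain ⟨ns, hns⟩ : ∃ ns, ns = C * (1 + L * (K / T ^ (1 / 3 : ℝ))) := ⟨_, rfl⟩
  have hns0 : 0 ≤ ns := by
    rw [hns]
    positivity
  rw [← hns]
  have la := P.nr_lower (nz_le_of_mem hb) hG.1
  have lb := P.nr_lower (a := b) (nz_le_of_mem ha) (by rw [dt_comm]; exact hG.1)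
  have ld := P.nr_lower (a := d) (nz_le_of_mem ha) (by rw [dt_comm]; exact hG.2.1)
  have hpt : ∀ A, (∑ h ∈ H, (EE M c L (a, b, d) h).indicator 1 A : ℝ≥0∞) ≤
      (Tb M c a b d).indicator (fun A => 3 + ENNReal.ofReal (2 * (1 + ns)) *
        ((nc c L A a : ℝ≥0∞) + nc c L A b + nc c L A d)) A := by
    intro A
    by_cases hA : A ∈ Tb M c a b d
    · rw [Set.indicator_of_mem hA]
      have e1 : (∑ h ∈ H, (EE M c L (a, b, d) h).indicator 1 A : ℝ≥0∞) =
          ((H.filter fun h => nb c L A a h.1 ∧ nb c L A b h.2.1 ∧ nb c L A d h.2.2).card : ℝ≥0∞) := by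
        rw [Finset.card_filter]
        push_cast
        refine Finset.sum_congr rfl fun h _ => ?_
        by_cases hh : nb c L A a h.1 ∧ nb c L A b h.2.1 ∧ nb c L A d h.2.2
        · rw [Set.indicator_of_mem (show A ∈ EE M c L (a, b, d) h from ⟨hA, hh⟩)]
          simp [hh]
        · rw [Set.indicator_of_notMem (show A ∉ EE M c L (a, b, d) h from fun h' => hh h'.2)]
          simp [hh]
      rw [e1]
      have h1 := comb (c := c) (L := L) A (a, b, d) H hH
      simp only at h1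
      have ka := hC K L T P A hA.1 a la
      have kb := hC K L T P A hA.1 b lb
      have kd := hC K L T P A hA.1 d ld
      rw [← hns] at ka kb kd
      obtain ⟨na, hna⟩ : ∃ n, n = nc c L A a := ⟨_, rfl⟩
      obtain ⟨nb', hnb⟩ : ∃ n, n = nc c L A b := ⟨_, rfl⟩
      obtain ⟨nd, hnd⟩ : ∃ n, n = nc c L A d := ⟨_, rfl⟩
      rw [← hna, ← hnb, ← hnd] at h1
      rw [← hna] at ka
      rw [← hnb] at kb
      rw [← hnd] at kd
      rw [← hna, ← hnb, ← hnd]
      have h2 : (((H.filter fun h => nb c L A a h.1 ∧ nb c L A b h.2.1 ∧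
          nb c L A d h.2.2).card : ℕ) : ℝ) ≤ 3 + 2 * (1 + ns) * ((na : ℝ) + nb' + nd) := by
        have h3 : (((H.filter fun h => nb c L A a h.1 ∧ nb c L A b h.2.1 ∧
            nb c L A d h.2.2).card : ℕ) : ℝ) ≤ ((nb' : ℝ) + 1) * (nd + 1) +
              ((na : ℝ) + 1) * (nd + 1) + ((na : ℝ) + 1) * (nb' + 1) := by
          exact_mod_cast h1
        have a0 : (0 : ℝ) ≤ na := Nat.cast_nonneg _
        have b0 : (0 : ℝ) ≤ nb' := Nat.cast_nonneg _
        have d0 : (0 : ℝ) ≤ nd := Nat.cast_nonneg _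
        have p1 : (nb' : ℝ) * nd ≤ ns * nd := mul_le_mul_of_nonneg_right kb d0
        have p2 : (na : ℝ) * nd ≤ ns * nd := mul_le_mul_of_nonneg_right ka d0
        have p3 : (na : ℝ) * nb' ≤ ns * nb' := mul_le_mul_of_nonneg_right ka b0
        have q1 : 0 ≤ ns * na := mul_nonneg hns0 a0
        have q2 : 0 ≤ ns * nb' := mul_nonneg hns0 b0
        nlinarith
      rw [← ENNReal.ofReal_natCast]
      refine (ENNReal.ofReal_le_ofReal h2).trans (le_of_eq ?_)
      rw [ENNReal.ofReal_add (by norm_num) (by positivity), ENNReal.ofReal_mul (by positivity),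
        ENNReal.ofReal_add (by positivity) (by positivity),
        ENNReal.ofReal_add (by positivity) (by positivity)]
      simp only [ENNReal.ofReal_natCast]
      norm_num
    · rw [Set.indicator_of_notMem hA]
      rw [Finset.sum_eq_zero fun h _ => Set.indicator_of_notMem (fun h' => hA h'.1) _]
  have hTm := measurableSet_Tb M c a b d
  have hcn : ∀ a, Measurable fun A : ℝ × ℝ × ℝ => (nc c L A a : ℝ≥0∞) := by
    intro a
    have h1 : (fun A : ℝ × ℝ × ℝ => (nc c L A a : ℝ≥0∞)) = fun A =>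
        ∑ g ∈ G0 L, ({A : ℝ × ℝ × ℝ | |qz A (a + g) - qz A a| ≤ c}).indicator 1 A := by
      funext A
      rw [nc, Finset.card_filter]
      push_cast
      refine Finset.sum_congr rfl fun g _ => ?_
      by_cases h : |qz A (a + g) - qz A a| ≤ c
      · rw [Set.indicator_of_mem (show A ∈ {A : ℝ × ℝ × ℝ | |qz A (a + g) - qz A a| ≤ c} from h)]
        simp [h]
      · rw [Set.indicator_of_notMem (show A ∉ {A : ℝ × ℝ × ℝ | |qz A (a + g) - qz A a| ≤ c} from h)]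
        simp [h]
    rw [h1]
    exact Finset.measurable_sum _ fun g _ => measurable_one.indicator
      (isClosed_le ((continuous_qz (a + g)).sub (continuous_qz a)).abs
        continuous_const).measurableSet
  calc ∑ h ∈ H, volume (EE M c L (a, b, d) h) =
      ∫⁻ A, ∑ h ∈ H, (EE M c L (a, b, d) h).indicator 1 A := by
        rw [lintegral_finsetSum _ fun h _ => measurable_one.indicator (measurableSet_EE M c L _ _)]
        refine Finset.sum_congr rfl fun h _ => ?_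
        rw [lintegral_indicator_one (measurableSet_EE M c L _ _)]
    _ ≤ ∫⁻ A, (Tb M c a b d).indicator (fun A => 3 + ENNReal.ofReal (2 * (1 + ns)) *
        ((nc c L A a : ℝ≥0∞) + nc c L A b + nc c L A d)) A := lintegral_mono hpt
    _ = ∫⁻ A in Tb M c a b d, (3 + ENNReal.ofReal (2 * (1 + ns)) *
        ((nc c L A a : ℝ≥0∞) + nc c L A b + nc c L A d)) := lintegral_indicator hTm _
    _ = 3 * volume (Tb M c a b d) + ENNReal.ofReal (2 * (1 + ns)) *
        ((∫⁻ A in Tb M c a b d, (nc c L A a : ℝ≥0∞)) +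
          (∫⁻ A in Tb M c a b d, (nc c L A b : ℝ≥0∞)) +
          (∫⁻ A in Tb M c a b d, (nc c L A d : ℝ≥0∞))) := by
        have hadd : ∫⁻ A in Tb M c a b d, ((nc c L A a : ℝ≥0∞) + nc c L A b + nc c L A d) =
            (∫⁻ A in Tb M c a b d, (nc c L A a : ℝ≥0∞)) +
            (∫⁻ A in Tb M c a b d, (nc c L A b : ℝ≥0∞)) +
            (∫⁻ A in Tb M c a b d, (nc c L A d : ℝ≥0∞)) :=
          (lintegral_add_left ((hcn a).add (hcn b)) _).trans
            (congrArg₂ (· + ·) (lintegral_add_left (hcn a) _) rfl)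
        have hmul : ∫⁻ A in Tb M c a b d, ENNReal.ofReal (2 * (1 + ns)) *
            ((nc c L A a : ℝ≥0∞) + nc c L A b + nc c L A d) = ENNReal.ofReal (2 * (1 + ns)) *
            ∫⁻ A in Tb M c a b d, ((nc c L A a : ℝ≥0∞) + nc c L A b + nc c L A d) :=
          lintegral_const_mul _ (((hcn a).add (hcn b)).add (hcn d))
        rw [lintegral_add_left measurable_const, hmul, hadd, setLIntegral_const]
    _ = _ := by
        have e1 := lint_nc M c L a b d
        have e2 := lint_nc M c L b a d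
        have e3 := lint_nc M c L d a b
        rw [← Tb_swap12] at e2
        rw [← Tb_rot] at e3
        rw [e1, e2, e3]

open Classical in
/-- **The total.** -/
theorem grand {M : ℝ} (hM : 1 ≤ M) {c : ℝ} (hc : 1 ≤ c) : ∃ C : ℝ, 1 ≤ C ∧ ∀ K L T : ℝ,
    Par M c K L T → ∀ H : Finset Z6, (∀ h ∈ H, ¬ NZ h) →
    ∑ a ∈ ball (3 * T), ∑ b ∈ ball (3 * T), ∑ d ∈ ball (3 * T),
      (if Gd (T ^ 2 / (2 * K)) a b d then ∑ h ∈ H, volume (EE M c L (a, b, d) h) else 0) ≤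
      ENNReal.ofReal (C * (K ^ 3 * T ^ 2 + (1 + L * (K / T ^ (1 / 3 : ℝ))) *
        (K ^ 3 * (K ^ 2 * (T * L) + L ^ 2 * T ^ (2 / 3 : ℝ))))) := by
  obtain ⟨C0, hC0, h0⟩ := tot0 hM hc
  obtain ⟨C1, hC1, h1⟩ := tot1 hM hc
  obtain ⟨C2, hC2, h2⟩ := one_triple hM hc
  refine ⟨3 * C0 + 12 * (C2 * C1), by
    have := one_le_mul_of_one_le_of_one_le hC2 hC1
    linarith, ?_⟩
  intro K L T P H hH
  have hK0 : 0 < K := by linarith [P.hK]
  have hT0 : 0 < T := by linarith [P.hT]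
  have hL0 : 0 < L := by linarith [P.hL]
  have hT13 : 0 < T ^ (1 / 3 : ℝ) := Real.rpow_pos_of_pos hT0 _
  have hT23 : 0 ≤ T ^ (2 / 3 : ℝ) := Real.rpow_nonneg hT0.le _
  obtain ⟨X, hX⟩ : ∃ X, X = K ^ 3 * (K ^ 2 * (T * L) + L ^ 2 * T ^ (2 / 3 : ℝ)) := ⟨_, rfl⟩
  have hX0 : 0 ≤ X := by
    rw [hX]
    positivity
  obtain ⟨y, hy⟩ : ∃ y, y = L * (K / T ^ (1 / 3 : ℝ)) := ⟨_, rfl⟩
  have hy0 : 0 ≤ y := by
    rw [hy]
    positivity
  have t0 := h0 K L T P
  have t1 := h1 K L T P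
  rw [← hX] at t1
  rw [← hX, ← hy]
  obtain ⟨B, hB⟩ : ∃ B, B = ball (3 * T) := ⟨_, rfl⟩
  obtain ⟨D, hD⟩ : ∃ D, D = T ^ 2 / (2 * K) := ⟨_, rfl⟩
  obtain ⟨U, hU⟩ : ∃ U : ℤ × ℤ → ℤ × ℤ → ℤ × ℤ → ℝ≥0∞, U = fun a b d =>
    if Gd D a b d then ∑ g ∈ G0 L, volume (Tg M c a b d g) else 0 := ⟨_, rfl⟩
  obtain ⟨V, hV⟩ : ∃ V : ℤ × ℤ → ℤ × ℤ → ℤ × ℤ → ℝ≥0∞, V = fun a b d =>
    if Gd D a b d then volume (Tb M c a b d) else 0 := ⟨_, rfl⟩
  obtain ⟨q, hq⟩ : ∃ q, q = ENNReal.ofReal (2 * (1 + C2 * (1 + y))) := ⟨_, rfl⟩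
  have hpt : ∀ a ∈ B, ∀ b ∈ B, ∀ d ∈ B,
      (if Gd D a b d then ∑ h ∈ H, volume (EE M c L (a, b, d) h) else 0) ≤
        3 * V a b d + q * (U a b d + U b a d + U d a b) := by
    intro a ha b hb d hd
    rw [hB] at ha hb hd
    by_cases hG : Gd D a b d
    · have g2 := (Gd_swap12 D a b d).1 hG
      have g3 := (Gd_rot D a b d).1 hG
      rw [hV, hU]
      simp only [if_pos hG, if_pos g2, if_pos g3]
      rw [hD] at hG
      have := h2 K L T P H hH a b d ha hb hd hG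
      rw [← hy, ← hq] at this
      exact this
    · rw [if_neg hG]
      exact zero_le
  rw [← hB, ← hD] at t0 t1 ⊢
  have s1 : ∑ a ∈ B, ∑ b ∈ B, ∑ d ∈ B, U a b d ≤ ENNReal.ofReal (C1 * X) := by
    rw [hU]
    exact t1
  have s0 : ∑ a ∈ B, ∑ b ∈ B, ∑ d ∈ B, V a b d ≤ ENNReal.ofReal (C0 * (K ^ 3 * T ^ 2)) := by
    rw [hV]
    exact t0
  have s2 : ∑ a ∈ B, ∑ b ∈ B, ∑ d ∈ B, U b a d ≤ ENNReal.ofReal (C1 * X) := by
    rw [Finset.sum_comm]
    exact s1
  have s3 : ∑ a ∈ B, ∑ b ∈ B, ∑ d ∈ B, U d a b ≤ ENNReal.ofReal (C1 * X) := by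
    have e : ∑ a ∈ B, ∑ b ∈ B, ∑ d ∈ B, U d a b = ∑ d ∈ B, ∑ a ∈ B, ∑ b ∈ B, U d a b := by
      calc ∑ a ∈ B, ∑ b ∈ B, ∑ d ∈ B, U d a b = ∑ a ∈ B, ∑ d ∈ B, ∑ b ∈ B, U d a b :=
            Finset.sum_congr rfl fun a _ => Finset.sum_comm
        _ = _ := Finset.sum_comm
    rw [e]
    exact s1
  calc _ ≤ ∑ a ∈ B, ∑ b ∈ B, ∑ d ∈ B, (3 * V a b d + q * (U a b d + U b a d + U d a b)) :=
        Finset.sum_le_sum fun a ha => Finset.sum_le_sum fun b hb => Finset.sum_le_sum fun d hd =>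
          hpt a ha b hb d hd
    _ = 3 * (∑ a ∈ B, ∑ b ∈ B, ∑ d ∈ B, V a b d) + q * ((∑ a ∈ B, ∑ b ∈ B, ∑ d ∈ B, U a b d) +
        (∑ a ∈ B, ∑ b ∈ B, ∑ d ∈ B, U b a d) + (∑ a ∈ B, ∑ b ∈ B, ∑ d ∈ B, U d a b)) := by
        simp only [Finset.sum_add_distrib, Finset.mul_sum, mul_add]
    _ ≤ 3 * ENNReal.ofReal (C0 * (K ^ 3 * T ^ 2)) + q * (ENNReal.ofReal (C1 * X) +
        ENNReal.ofReal (C1 * X) + ENNReal.ofReal (C1 * X)) := by
        gcongr
    _ = ENNReal.ofReal (3 * (C0 * (K ^ 3 * T ^ 2)) + 2 * (1 + C2 * (1 + y)) *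
        (C1 * X + C1 * X + C1 * X)) := by
        rw [ENNReal.ofReal_add (by positivity) (by positivity), hq,
          ENNReal.ofReal_mul (by norm_num : (0 : ℝ) ≤ 3),
          ENNReal.ofReal_mul (p := 2 * (1 + C2 * (1 + y))) (by positivity),
          ENNReal.ofReal_add (by positivity) (by positivity),
          ENNReal.ofReal_add (by positivity) (by positivity)]
        norm_num
    _ ≤ _ := by
        refine ENNReal.ofReal_le_ofReal ?_
        have p1 : 1 + C2 * (1 + y) ≤ 2 * C2 * (1 + y) := by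
          have : 1 ≤ C2 * (1 + y) := one_le_mul_of_one_le_of_one_le hC2 (by linarith)
          linarith
        have p2 : 0 ≤ C1 * X := by positivity
        have p3 : 0 ≤ K ^ 3 * T ^ 2 := by positivity
        have p4 : 0 ≤ (1 + y) * X := by positivity
        have p5 : 2 * (1 + C2 * (1 + y)) * (C1 * X + C1 * X + C1 * X) ≤
            12 * (C2 * C1) * ((1 + y) * X) := by
          calc _ = 6 * (C1 * X) * (1 + C2 * (1 + y)) := by ring
            _ ≤ 6 * (C1 * X) * (2 * C2 * (1 + y)) := by gcongr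
            _ = _ := by ring
        have p6 : 0 ≤ C2 * C1 := by positivity
        nlinarith [mul_nonneg p6 p3, mul_nonneg (by linarith : 0 ≤ C0) p4]

end Pool.Agent.Helper96_DZ
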