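import Pool.Agent.Helper30_FC.Near

/-!
MP_f5cbfa_nt (helper96): area of the part of an annulus in a strip through the origin.
-/

set_option autoImplicit false

open MeasureTheory Set

namespace Pool.Agent.Helper96_DZ

open Pool.Agent.BTL Pool.Agent.Helper30_FC

theorem strip_ann {M : ℝ} (hM : 1 ≤ M) {A : ℝ × ℝ × ℝ} (hA : A ∈ KM M) {B s τ : ℝ} (hB : 0 ≤ B)
    (hs : 0 < s) (hτ : 0 ≤ τ) {h : ℝ × ℝ} (hh : 0 < qf A h) :
    volume {x : ℝ × ℝ | |qf A x - s| ≤ B ∧ |bf A x h| ≤ τ} ≤
      ENNReal.ofReal (16 * M * B * τ / (Real.sqrt s * Real.sqrt (qf A h))) := by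
  have hd := disc_pos_of_KM hM hA
  have hM0 : 0 < M := by linarith
  set ρ := Real.sqrt (qf A h) with hρ
  have hρ0 : 0 < ρ := Real.sqrt_pos.mpr hh
  have hs0 : 0 < Real.sqrt s := Real.sqrt_pos.mpr hs
  have hss : Real.sqrt s * Real.sqrt s = s := Real.mul_self_sqrt hs.le
  rcases le_or_gt (2 * (τ / ρ) ^ 2) s with hc | hc
  · set I := Set.Icc (-(τ / ρ)) (τ / ρ) with hI
    set E : Set (ℝ × ℝ) := {z | z.1 ∈ I ∧ |z.1 ^ 2 + z.2 ^ 2 - s| ≤ B} with hE
    have hEm : MeasurableSet E := by
      have h1 : MeasurableSet {z : ℝ × ℝ | |z.1 ^ 2 + z.2 ^ 2 - s| ≤ B} :=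
        measurableSet_le (by fun_prop) measurable_const
      exact (measurable_fst measurableSet_Icc).inter h1
    have hsub : {x : ℝ × ℝ | |qf A x - s| ≤ B ∧ |bf A x h| ≤ τ} ⊆ (zc A h) ⁻¹' E := by
      intro x hx
      obtain ⟨h1, h2⟩ := hx
      refine ⟨?_, ?_⟩
      · have h3 : |(zc A h x).1| ≤ τ / ρ := by
          change |bf A x h / ρ| ≤ τ / ρ
          rw [abs_div, abs_of_pos hρ0]
          exact div_le_div_of_nonneg_right h2 hρ0.le
        rw [abs_le] at h3
        exact h3
      · change |(zc A h x).1 ^ 2 + (zc A h x).2 ^ 2 - s| ≤ B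
        rw [zc_sq hd hh]; exact h1
    have hzc : Measurable (zc A h) := by
      have : (zc A h) = zl A h := by ext x <;> rw [zl_apply]
      rw [this]
      exact (zl A h).continuous_of_finiteDimensional.measurable
    calc volume {x : ℝ × ℝ | |qf A x - s| ≤ B ∧ |bf A x h| ≤ τ} ≤ volume ((zc A h) ⁻¹' E) :=
          measure_mono hsub
      _ = ∫⁻ x, (E.indicator 1) (zc A h x) := by
          rw [← lintegral_indicator_one (hzc hEm)]
          rfl
      _ = ENNReal.ofReal (Real.sqrt (disc A))⁻¹ * ∫⁻ z, E.indicator 1 z :=
          lintegral_zc hd hh _ (measurable_one.indicator hEm)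
      _ ≤ ENNReal.ofReal M * (ENNReal.ofReal (4 * B / (Real.sqrt s / 2) * (2 * (τ / ρ)))) := by
          refine mul_le_mul' (ENNReal.ofReal_le_ofReal (inv_sqrt_disc_le hM hA)) ?_
          rw [lintegral_indicator_one hEm, Measure.volume_eq_prod, Measure.prod_apply hEm]
          calc ∫⁻ z : ℝ, volume (Prod.mk z ⁻¹' E)
              ≤ ∫⁻ z in I, ENNReal.ofReal (4 * B / (Real.sqrt s / 2)) := by
                rw [← lintegral_indicator measurableSet_Icc]
                refine lintegral_mono fun z => ?_
                by_cases hz : z ∈ I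
                · rw [Set.indicator_of_mem hz]
                  have hz2 : z ^ 2 ≤ s / 2 := by
                    have : |z| ≤ τ / ρ := abs_le.2 hz
                    have h5 : z ^ 2 ≤ (τ / ρ) ^ 2 := by
                      rw [← sq_abs z]
                      exact pow_le_pow_left₀ (abs_nonneg _) this 2
                    linarith
                  have h6 : (Prod.mk z ⁻¹' E) = {y : ℝ | |z ^ 2 + y ^ 2 - s| ≤ B} := by
                    ext y
                    simp only [hE, Set.mem_preimage, Set.mem_ofPred_eq]
                    exact ⟨fun h => h.2, fun h => ⟨hz, h⟩⟩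
                  rw [h6]
                  refine (sl_le_inv (s := s) hB (by linarith)).trans
                    (ENNReal.ofReal_le_ofReal ?_)
                  refine div_le_div_of_nonneg_left (by positivity) (by positivity) ?_
                  apply Real.le_sqrt_of_sq_le
                  nlinarith
                · rw [Set.indicator_of_notMem hz]
                  have : (Prod.mk z ⁻¹' E) = ∅ := by
                    ext y
                    simp only [hE, Set.mem_preimage, Set.mem_ofPred_eq, Set.mem_empty_iff_false,
                      iff_false]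
                    exact fun h => hz h.1
                  rw [this, measure_empty]
            _ = _ := by
                rw [setLIntegral_const, hI, Real.volume_Icc, ← ENNReal.ofReal_mul (by positivity)]
                congr 1
                ring
      _ = ENNReal.ofReal (16 * M * B * τ / (Real.sqrt s * ρ)) := by
          rw [← ENNReal.ofReal_mul hM0.le]
          congr 1
          field_simp
          ring
  · refine ((measure_mono fun x hx => hx.1).trans (area_ann hM hA hB s)).trans
      (ENNReal.ofReal_le_ofReal ?_)
    rw [le_div_iff₀ (by positivity)]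
    have h0 : 0 < τ / ρ := by
      by_contra hn
      have : τ / ρ = 0 := le_antisymm (by linarith) (by positivity)
      rw [this] at hc
      norm_num at hc
      linarith
    have h1 : Real.sqrt s < 2 * (τ / ρ) := by
      apply (Real.sqrt_lt' (by linarith)).2
      nlinarith
    have h2 : Real.sqrt s * ρ ≤ 2 * τ := by
      have := mul_le_mul_of_nonneg_right h1.le hρ0.le
      rw [mul_assoc, div_mul_cancel₀ _ hρ0.ne'] at this
      exact this
    calc 8 * M * B * (Real.sqrt s * ρ) ≤ 8 * M * B * (2 * τ) :=
          mul_le_mul_of_nonneg_left h2 (by positivity)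
      _ = 16 * M * B * τ := by ring

end Pool.Agent.Helper96_DZ
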