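import Pool.Agent.Helper96_DZ.Cnt

/-!
MP_f5cbfa_nt (helper96): the total count for differences with a zero component.
-/

set_option autoImplicit false

open MeasureTheory Set

open scoped BigOperators ENNReal

namespace Pool.Agent.Helper96_DZ

open Pool.Agent.BTL Pool.Agent.Helper30_FC

open Classical in
/-- nonzero differences of length at most `3 L` -/
noncomputable def G0 (L : ℝ) : Finset (ℤ × ℤ) :=
  (ball (3 * L + 1)).filter fun g => g ≠ 0 ∧ ln g ≤ 3 * L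

theorem mem_G0 {L : ℝ} {g : ℤ × ℤ} : g ∈ G0 L ↔ g ≠ 0 ∧ ln g ≤ 3 * L := by
  unfold G0
  rw [Finset.mem_filter, and_iff_right_iff_imp]
  intro h
  rw [mem_ball, ← ln_sq]
  have := ln_nonneg g
  exact pow_lt_pow_left₀ (by linarith [h.2]) this (by norm_num)

/-- sum over the differences -/
theorem sum_g : ∃ C : ℝ, 1 ≤ C ∧ ∀ K L T : ℝ, 1 ≤ L → 0 ≤ T → 0 ≤ K →
    ∑ g ∈ G0 L, (K ^ 2 * (T / ln g) + T ^ (2 / 3 : ℝ)) ≤
      C * (K ^ 2 * (T * L) + L ^ 2 * T ^ (2 / 3 : ℝ)) := by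
  obtain ⟨C1, hC1, hsh⟩ := Pool.Agent.BTL.Assembly.shellAll 1 (by norm_num) (by norm_num)
  refine ⟨81 * C1, by linarith, ?_⟩
  intro K L T hL hT hK
  have hT23 : 0 ≤ T ^ (2 / 3 : ℝ) := Real.rpow_nonneg hT _
  have h1 := hsh (G0 L) (3 * L) (by linarith) fun g hg => mem_G0.1 hg
  have h2 := Pool.Agent.BTL.Assembly.cardLn (G0 L) (3 * L) (by linarith) fun g hg =>
    (mem_G0.1 hg).2
  have h7 : (3 * L) ^ (2 - 1 : ℝ) = 3 * L := by norm_num
  rw [h7] at h1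
  rw [Finset.sum_add_distrib, Finset.sum_const, nsmul_eq_mul]
  have h3 : ∑ g ∈ G0 L, K ^ 2 * (T / ln g) = K ^ 2 * T * ∑ g ∈ G0 L, ln g ^ (-1 : ℝ) := by
    rw [Finset.mul_sum]
    refine Finset.sum_congr rfl fun g _ => ?_
    rw [Real.rpow_neg_one]
    ring
  rw [h3]
  have h4 : K ^ 2 * T * ∑ g ∈ G0 L, ln g ^ (-1 : ℝ) ≤ K ^ 2 * T * (C1 * (3 * L)) :=
    mul_le_mul_of_nonneg_left h1 (by positivity)
  have h5 : ((G0 L).card : ℝ) * T ^ (2 / 3 : ℝ) ≤ 9 * (3 * L) ^ 2 * T ^ (2 / 3 : ℝ) :=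
    mul_le_mul_of_nonneg_right h2 hT23
  have h6 : 0 ≤ K ^ 2 * (T * L) := by positivity
  have h8 : 0 ≤ L ^ 2 * T ^ (2 / 3 : ℝ) := by positivity
  nlinarith [mul_nonneg (by linarith : 0 ≤ C1) h6, mul_nonneg (by linarith : 0 ≤ C1 - 1) h8]

/-- the determinants are not small -/
def Gd (D : ℝ) (a b d : ℤ × ℤ) : Prop :=
  D ≤ |(dt a b : ℝ)| ∧ D ≤ |(dt a d : ℝ)| ∧ D ≤ |(dt b d : ℝ)|

theorem dt_comm (a b : ℤ × ℤ) : |(dt b a : ℝ)| = |(dt a b : ℝ)| := by
  rw [← abs_neg]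
  congr 1
  simp only [dt]
  push_cast
  ring

open Classical in
/-- the number of near coincidences at `a` -/
noncomputable def nc (c L : ℝ) (A : ℝ × ℝ × ℝ) (a : ℤ × ℤ) : ℕ :=
  ((G0 L).filter fun g => |qz A (a + g) - qz A a| ≤ c).card

theorem card_B {T : ℝ} (hT : 1 ≤ T) : ((ball (3 * T)).card : ℝ) ≤ 81 * T ^ 2 := by
  have h := Pool.Agent.BTL.Assembly.cardLn (ball (3 * T)) (3 * T) (by linarith) (by
    intro x hx
    rw [mem_ball, ← ln_sq] at hx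
    exact (lt_of_pow_lt_pow_left₀ 2 (by linarith) hx).le)
  calc _ ≤ _ := h
    _ = _ := by ring

theorem nz_le_of_mem {T : ℝ} {a : ℤ × ℤ} (ha : a ∈ ball (3 * T)) : nz a ≤ (3 * T) ^ 2 :=
  (mem_ball.1 ha).le

open Classical in
/-- all triples, no difference -/
theorem tot0 {M : ℝ} (hM : 1 ≤ M) {c : ℝ} (hc : 1 ≤ c) : ∃ C : ℝ, 1 ≤ C ∧ ∀ K L T : ℝ,
    Par M c K L T → ∑ a ∈ ball (3 * T), ∑ b ∈ ball (3 * T), ∑ d ∈ ball (3 * T),
      (if Gd (T ^ 2 / (2 * K)) a b d then volume (Tb M c a b d) else 0) ≤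
      ENNReal.ofReal (C * (K ^ 3 * T ^ 2)) := by
  have hM0 : 0 < M := by linarith
  have hc0 : 0 < c := by linarith
  refine ⟨81 ^ 3 * (576 * M * c ^ 2), by nlinarith [one_le_pow₀ hc (n := 2)], ?_⟩
  intro K L T P
  have hK0 : 0 < K := by linarith [P.hK]
  have hT0 : 0 < T := by linarith [P.hT]
  have h1 : ∀ a ∈ ball (3 * T), ∀ b ∈ ball (3 * T), ∀ d ∈ ball (3 * T),
      (if Gd (T ^ 2 / (2 * K)) a b d then volume (Tb M c a b d) else 0) ≤
        ENNReal.ofReal (576 * M * c ^ 2 * K ^ 3 / T ^ 4) := by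
    intro a ha b _ d _
    split_ifs with h
    · exact P.vol_Tb (nz_le_of_mem ha) h.1 h.2.1 h.2.2
    · exact zero_le
  have h2 := card_B P.hT
  calc _ ≤ ∑ a ∈ ball (3 * T), ∑ b ∈ ball (3 * T), ∑ d ∈ ball (3 * T),
        ENNReal.ofReal (576 * M * c ^ 2 * K ^ 3 / T ^ 4) :=
        Finset.sum_le_sum fun a ha => Finset.sum_le_sum fun b hb => Finset.sum_le_sum fun d hd =>
          h1 a ha b hb d hd
    _ = ENNReal.ofReal (((ball (3 * T)).card : ℝ) ^ 3 * (576 * M * c ^ 2 * K ^ 3 / T ^ 4)) := by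
        simp only [Finset.sum_const, nsmul_eq_mul]
        rw [ENNReal.ofReal_mul (by positivity), ENNReal.ofReal_pow (Nat.cast_nonneg _),
          ENNReal.ofReal_natCast]
        ring
    _ ≤ _ := by
        refine ENNReal.ofReal_le_ofReal ?_
        calc _ ≤ (81 * T ^ 2) ^ 3 * (576 * M * c ^ 2 * K ^ 3 / T ^ 4) := by gcongr
          _ = _ := by
            field_simp

open Classical in
/-- all triples, one difference -/
theorem tot1 {M : ℝ} (hM : 1 ≤ M) {c : ℝ} (hc : 1 ≤ c) : ∃ C : ℝ, 1 ≤ C ∧ ∀ K L T : ℝ,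
    Par M c K L T → ∑ a ∈ ball (3 * T), ∑ b ∈ ball (3 * T), ∑ d ∈ ball (3 * T),
      (if Gd (T ^ 2 / (2 * K)) a b d then ∑ g ∈ G0 L, volume (Tg M c a b d g) else 0) ≤
      ENNReal.ofReal (C * (K ^ 3 * (K ^ 2 * (T * L) + L ^ 2 * T ^ (2 / 3 : ℝ)))) := by
  obtain ⟨C1, hC1, h1⟩ := sum_d hM hc
  obtain ⟨C2, hC2, h2⟩ := sum_g
  refine ⟨81 ^ 2 * (C1 * C2), by
    have := one_le_mul_of_one_le_of_one_le hC1 hC2
    linarith, ?_⟩
  intro K L T P
  have hK0 : 0 < K := by linarith [P.hK]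
  have hT0 : 0 < T := by linarith [P.hT]
  have hL0 : 0 < L := by linarith [P.hL]
  have hT23 : 0 ≤ T ^ (2 / 3 : ℝ) := Real.rpow_nonneg hT0.le _
  have hab : ∀ a ∈ ball (3 * T), ∀ b ∈ ball (3 * T), ∑ d ∈ ball (3 * T),
      (if Gd (T ^ 2 / (2 * K)) a b d then ∑ g ∈ G0 L, volume (Tg M c a b d g) else 0) ≤
      ENNReal.ofReal (C1 * (K ^ 3 / T ^ 4 * (C2 * (K ^ 2 * (T * L) + L ^ 2 * T ^ (2 / 3 : ℝ))))) := by
    intro a ha b hb
    by_cases h : T ^ 2 / (2 * K) ≤ |(dt a b : ℝ)|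
    · rw [← Finset.sum_filter, Finset.sum_comm]
      calc _ ≤ ∑ g ∈ G0 L, ENNReal.ofReal (C1 * (K ^ 3 / T ^ 4 *
            (K ^ 2 * (T / ln g) + T ^ (2 / 3 : ℝ)))) := by
            refine Finset.sum_le_sum fun g hg => ?_
            have hg' := mem_G0.1 hg
            refine h1 K L T P a b g (nz_le_of_mem ha) (nz_le_of_mem hb) hg'.1 hg'.2 h _ ?_
            intro d hd
            rw [Finset.mem_filter] at hd
            exact ⟨nz_le_of_mem hd.1, hd.2.2.1, hd.2.2.2⟩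
        _ = ENNReal.ofReal (C1 * (K ^ 3 / T ^ 4 *
            ∑ g ∈ G0 L, (K ^ 2 * (T / ln g) + T ^ (2 / 3 : ℝ)))) := by
            rw [← ENNReal.ofReal_sum_of_nonneg, Finset.mul_sum, Finset.mul_sum]
            intro g hg
            have : 0 ≤ ln g := ln_nonneg g
            positivity
        _ ≤ _ := by
            refine ENNReal.ofReal_le_ofReal ?_
            have := h2 K L T P.hL hT0.le hK0.le
            gcongr
    · rw [Finset.sum_eq_zero fun d _ => by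
        rw [if_neg fun hG => h hG.1]]
      exact zero_le
  have h3 := card_B P.hT
  calc _ ≤ ∑ a ∈ ball (3 * T), ∑ b ∈ ball (3 * T),
        ENNReal.ofReal (C1 * (K ^ 3 / T ^ 4 * (C2 * (K ^ 2 * (T * L) + L ^ 2 * T ^ (2 / 3 : ℝ))))) :=
        Finset.sum_le_sum fun a ha => Finset.sum_le_sum fun b hb => hab a ha b hb
    _ = ENNReal.ofReal (((ball (3 * T)).card : ℝ) ^ 2 * (C1 * (K ^ 3 / T ^ 4 *
        (C2 * (K ^ 2 * (T * L) + L ^ 2 * T ^ (2 / 3 : ℝ)))))) := by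
        simp only [Finset.sum_const, nsmul_eq_mul]
        rw [ENNReal.ofReal_mul (p := ((ball (3 * T)).card : ℝ) ^ 2) (by positivity),
          ENNReal.ofReal_pow (Nat.cast_nonneg _), ENNReal.ofReal_natCast]
        ring
    _ ≤ _ := by
        refine ENNReal.ofReal_le_ofReal ?_
        calc _ ≤ (81 * T ^ 2) ^ 2 * (C1 * (K ^ 3 / T ^ 4 *
            (C2 * (K ^ 2 * (T * L) + L ^ 2 * T ^ (2 / 3 : ℝ))))) := by gcongr
          _ = _ := by
            field_simp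

/-- the largest number of near coincidences at one point -/
theorem nc_le {M : ℝ} (hM : 1 ≤ M) {c : ℝ} (hc : 1 ≤ c) : ∃ C : ℝ, 1 ≤ C ∧ ∀ K L T : ℝ,
    Par M c K L T → ∀ A ∈ KM M, ∀ a : ℤ × ℤ, (T / (6 * K)) ^ 2 ≤ nz a →
      (nc c L A a : ℝ) ≤ C * (1 + L * (K / T ^ (1 / 3 : ℝ))) := by
  classical
  obtain ⟨C, hC1, hC⟩ := arc hM hc
  have hM0 : 0 < M := by linarith
  refine ⟨C * (18 * M), one_le_mul_of_one_le_of_one_le hC1 (by linarith), ?_⟩
  intro K L T P A hA a ha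
  have hK0 : 0 < K := by linarith [P.hK]
  have hT0 : 0 < T := by linarith [P.hT]
  have hL0 : 0 < L := by linarith [P.hL]
  have hK1 := P.hK
  have hL1 := P.hL
  obtain ⟨R, hR⟩ : ∃ R, R = T / (6 * K * M) := ⟨_, rfl⟩
  have hR12 : 12 * (M * L) ≤ R := by
    rw [hR, le_div_iff₀ (by positivity)]
    calc 12 * (M * L) * (6 * K * M) = 72 * M ^ 2 * K * L := by ring
      _ ≤ T := P.h3
  have hML : 1 ≤ M * L := one_le_mul_of_one_le_of_one_le hM hL1
  have hR1 : 1 ≤ R := by linarith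
  have hrr : R ≤ rr A (rc a) := by
    rw [rr]
    apply Real.le_sqrt_of_sq_le
    have h1 := (hA (rc a)).1
    refine le_trans ?_ h1
    rw [le_div_iff₀ hM0]
    have h2 : nr (rc a) = nz a := rfl
    rw [h2]
    refine le_trans ?_ ha
    have h3 : R ^ 2 * M = (T / (6 * K)) ^ 2 / M := by
      rw [hR]
      field_simp
    rw [h3]
    exact div_le_self (sq_nonneg _) hM
  obtain ⟨δ, hδ⟩ : ∃ δ, δ = R ^ (1 / 3 : ℝ) := ⟨_, rfl⟩
  have hδ3 : δ ^ 3 = R := by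
    rw [hδ, ← Real.rpow_natCast, ← Real.rpow_mul (by linarith)]
    norm_num
  have hδ1 : 1 ≤ δ := by
    rw [hδ]
    exact Real.one_le_rpow hR1 (by norm_num)
  have h := hC A hA (rc a) (3 * L) δ (by linarith) (by linarith) (by linarith) hδ1
    (by linarith) ((G0 L).filter fun g => |qz A (a + g) - qz A a| ≤ c) (by
      intro g hg
      rw [Finset.mem_filter] at hg
      refine ⟨(mem_G0.1 hg.1).2, ?_⟩
      have e : rc a + rc g = rc (a + g) := by
        ext <;> simp [rc]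
      rw [e]
      exact hg.2)
  have hT13 : 0 < T ^ (1 / 3 : ℝ) := Real.rpow_pos_of_pos hT0 _
  have hδl : T ^ (1 / 3 : ℝ) / (6 * K * M) ≤ δ := by
    rw [hδ, hR, Real.div_rpow hT0.le (by positivity)]
    refine div_le_div_of_nonneg_left hT13.le (by positivity) ?_
    have h6 : 1 ≤ 6 * K * M := by nlinarith
    calc (6 * K * M) ^ (1 / 3 : ℝ) ≤ (6 * K * M) ^ (1 : ℝ) :=
          Real.rpow_le_rpow_of_exponent_le h6 (by norm_num)
      _ = _ := Real.rpow_one _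
  refine h.trans ?_
  have h7 : 3 * L / δ ≤ 3 * L / (T ^ (1 / 3 : ℝ) / (6 * K * M)) :=
    div_le_div_of_nonneg_left (by positivity) (by positivity) hδl
  have h8 : 3 * L / (T ^ (1 / 3 : ℝ) / (6 * K * M)) = 18 * M * (L * (K / T ^ (1 / 3 : ℝ))) := by
    field_simp
    ring
  rw [h8] at h7
  have h9 : 0 ≤ L * (K / T ^ (1 / 3 : ℝ)) := by positivity
  calc C * (1 + 3 * L / δ) ≤ C * (18 * M + 18 * M * (L * (K / T ^ (1 / 3 : ℝ)))) := by
        gcongr
        linarith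
    _ = _ := by ring

end Pool.Agent.Helper96_DZ
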