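import Pool.Agent.Helper96_DZ.StripAnn
import Pool.Agent.F5H.DefsL

/-!
MP_f5cbfa_nt (helper96), row VOL: area of the part of an annulus in a strip which meets the annulus
transversally, and the volume of the triples of points for one form.
-/

set_option autoImplicit false

open MeasureTheory Set

namespace Pool.Agent.Helper96_DZ

open Pool.Agent.BTL Pool.Agent.F5S Pool.Agent.Helper30_FC

theorem strip_ann' {M : ℝ} (hM : 1 ≤ M) {A : ℝ × ℝ × ℝ} (hA : A ∈ KM M) {B s τ t : ℝ} (hB : 0 ≤ B)
    (hs : 0 < s) (_hτ : 0 ≤ τ) {h : ℝ × ℝ} (hh : 0 < qf A h)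
    (hc : 2 * ((|t| + τ) / Real.sqrt (qf A h)) ^ 2 ≤ s) :
    volume {x : ℝ × ℝ | |qf A x - s| ≤ B ∧ |bf A x h - t| ≤ τ} ≤
      ENNReal.ofReal (16 * M * B * τ / (Real.sqrt s * Real.sqrt (qf A h))) := by
  have hd := disc_pos_of_KM hM hA
  have hM0 : 0 < M := by linarith
  set ρ := Real.sqrt (qf A h) with hρ
  have hρ0 : 0 < ρ := Real.sqrt_pos.mpr hh
  have hs0 : 0 < Real.sqrt s := Real.sqrt_pos.mpr hs
  have hss : Real.sqrt s * Real.sqrt s = s := Real.mul_self_sqrt hs.le
  set I := Set.Icc ((t - τ) / ρ) ((t + τ) / ρ) with hI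
  set E : Set (ℝ × ℝ) := {z | z.1 ∈ I ∧ |z.1 ^ 2 + z.2 ^ 2 - s| ≤ B} with hE
  have hEm : MeasurableSet E := by
    have h1 : MeasurableSet {z : ℝ × ℝ | |z.1 ^ 2 + z.2 ^ 2 - s| ≤ B} :=
      measurableSet_le (by fun_prop) measurable_const
    exact (measurable_fst measurableSet_Icc).inter h1
  have hsub : {x : ℝ × ℝ | |qf A x - s| ≤ B ∧ |bf A x h - t| ≤ τ} ⊆ (zc A h) ⁻¹' E := by
    intro x hx
    obtain ⟨h1, h2⟩ := hx
    rw [abs_le] at h2
    refine ⟨⟨?_, ?_⟩, ?_⟩
    · change (t - τ) / ρ ≤ bf A x h / ρ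
      exact div_le_div_of_nonneg_right (by linarith [h2.1]) hρ0.le
    · change bf A x h / ρ ≤ (t + τ) / ρ
      exact div_le_div_of_nonneg_right (by linarith [h2.2]) hρ0.le
    · change |(zc A h x).1 ^ 2 + (zc A h x).2 ^ 2 - s| ≤ B
      rw [zc_sq hd hh]; exact h1
  have hzc : Measurable (zc A h) := by
    have : (zc A h) = zl A h := by ext x <;> rw [zl_apply]
    rw [this]
    exact (zl A h).continuous_of_finiteDimensional.measurable
  calc volume {x : ℝ × ℝ | |qf A x - s| ≤ B ∧ |bf A x h - t| ≤ τ} ≤ volume ((zc A h) ⁻¹' E) :=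
        measure_mono hsub
    _ = ∫⁻ x, (E.indicator 1) (zc A h x) := by
        rw [← lintegral_indicator_one (hzc hEm)]
        rfl
    _ = ENNReal.ofReal (Real.sqrt (disc A))⁻¹ * ∫⁻ z, E.indicator 1 z :=
        lintegral_zc hd hh _ (measurable_one.indicator hEm)
    _ ≤ ENNReal.ofReal M * (ENNReal.ofReal (4 * B / (Real.sqrt s / 2) * (2 * (τ / ρ)))) := by
        refine mul_le_mul' (ENNReal.ofReal_le_ofReal (inv_sqrt_disc_le hM hA)) ?_
        rw [lintegral_indicator_one hEm, Measure.volume_eq_prod, Measure.prod_apply hEm]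
        calc ∫⁻ z : ℝ, volume (Prod.mk z ⁻¹' E)
            ≤ ∫⁻ z in I, ENNReal.ofReal (4 * B / (Real.sqrt s / 2)) := by
              rw [← lintegral_indicator measurableSet_Icc]
              refine lintegral_mono fun z => ?_
              by_cases hz : z ∈ I
              · rw [Set.indicator_of_mem hz]
                have hz2 : z ^ 2 ≤ s / 2 := by
                  have h3 : |z| ≤ (|t| + τ) / ρ := by
                    have h4 : -((|t| + τ) / ρ) ≤ (t - τ) / ρ := by
                      rw [← neg_div]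
                      exact div_le_div_of_nonneg_right (by linarith [neg_abs_le t]) hρ0.le
                    have h5 : (t + τ) / ρ ≤ (|t| + τ) / ρ :=
                      div_le_div_of_nonneg_right (by linarith [le_abs_self t]) hρ0.le
                    exact abs_le.2 ⟨h4.trans hz.1, hz.2.trans h5⟩
                  have h5 : z ^ 2 ≤ ((|t| + τ) / ρ) ^ 2 := by
                    rw [← sq_abs z]
                    exact pow_le_pow_left₀ (abs_nonneg _) h3 2
                  linarith
                have h6 : (Prod.mk z ⁻¹' E) = {y : ℝ | |z ^ 2 + y ^ 2 - s| ≤ B} := by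
                  ext y
                  simp only [hE, Set.mem_preimage, Set.mem_ofPred_eq]
                  exact ⟨fun h => h.2, fun h => ⟨hz, h⟩⟩
                rw [h6]
                refine (sl_le_inv (s := s) hB (by linarith)).trans
                  (ENNReal.ofReal_le_ofReal ?_)
                refine div_le_div_of_nonneg_left (by positivity) (by positivity) ?_
                apply Real.le_sqrt_of_sq_le
                nlinarith
              · rw [Set.indicator_of_notMem hz]
                have : (Prod.mk z ⁻¹' E) = ∅ := by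
                  ext y
                  simp only [hE, Set.mem_preimage, Set.mem_ofPred_eq, Set.mem_empty_iff_false,
                    iff_false]
                  exact fun h => hz h.1
                rw [this, measure_empty]
          _ = _ := by
              rw [setLIntegral_const, hI, Real.volume_Icc, ← ENNReal.ofReal_mul (by positivity)]
              congr 1
              ring
    _ = ENNReal.ofReal (16 * M * B * τ / (Real.sqrt s * ρ)) := by
        rw [← ENNReal.ofReal_mul hM0.le]
        congr 1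
        field_simp
        ring

/-- three points, the first one with a large window -/
theorem box3 {M : ℝ} (hM : 1 ≤ M) {A : ℝ × ℝ × ℝ} (hA : A ∈ KM M) {P R s : ℝ} {s' : Fin 3 → ℝ}
    {h : Fin 3 → ℝ × ℝ} (hP : 0 ≤ P) (hR : 0 ≤ R) (hs : 0 < s) (hs' : ∀ l, s ≤ s' l)
    (hh : ∀ l, 0 < qf A (h l))
    (hc1 : 2 * ((R + P) / Real.sqrt (qf A (h 1))) ^ 2 ≤ s)
    (hc2 : 2 * ((R + P) / Real.sqrt (qf A (h 2))) ^ 2 ≤ s) :
    volume {m : R6 | (|qf A m.1 - s' 0| ≤ 1 ∧ |qf A m.2.1 - s' 1| ≤ 1 ∧ |qf A m.2.2 - s' 2| ≤ 1) ∧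
      |bf A m.1 (h 0)| ≤ R ∧ |bf A m.2.1 (h 1) - bf A m.1 (h 0)| ≤ P ∧
      |bf A m.2.2 (h 2) - bf A m.1 (h 0)| ≤ P} ≤
      ENNReal.ofReal ((16 * M) ^ 3 * (R * P ^ 2) / (Real.sqrt s ^ 3 * (Real.sqrt (qf A (h 0)) *
        Real.sqrt (qf A (h 1)) * Real.sqrt (qf A (h 2))))) := by
  have hM0 : 0 < M := by linarith
  have hs0 : 0 < Real.sqrt s := Real.sqrt_pos.mpr hs
  have hq0 : ∀ l, 0 < Real.sqrt (qf A (h l)) := fun l => Real.sqrt_pos.mpr (hh l)
  have hss : ∀ l, Real.sqrt s ≤ Real.sqrt (s' l) := fun l => Real.sqrt_le_sqrt (hs' l)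
  have hs'0 : ∀ l, 0 < s' l := fun l => hs.trans_le (hs' l)
  -- area bound with the common value
  have hmono : ∀ l, ∀ τ : ℝ, 0 ≤ τ → ENNReal.ofReal (16 * M * 1 * τ / (Real.sqrt (s' l) *
      Real.sqrt (qf A (h l)))) ≤ ENNReal.ofReal (16 * M * τ / (Real.sqrt s *
      Real.sqrt (qf A (h l)))) := by
    intro l τ hτ
    refine ENNReal.ofReal_le_ofReal ?_
    rw [mul_one]
    exact div_le_div_of_nonneg_left (by positivity) (mul_pos hs0 (hq0 l))
      (mul_le_mul_of_nonneg_right (hss l) (hq0 l).le)
  set F : Set R6 := {m | (|qf A m.1 - s' 0| ≤ 1 ∧ |qf A m.2.1 - s' 1| ≤ 1 ∧ |qf A m.2.2 - s' 2| ≤ 1) ∧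
      |bf A m.1 (h 0)| ≤ R ∧ |bf A m.2.1 (h 1) - bf A m.1 (h 0)| ≤ P ∧
      |bf A m.2.2 (h 2) - bf A m.1 (h 0)| ≤ P} with hF
  have hFm : MeasurableSet F := by
    have hq : Continuous (qf A) := by unfold qf; fun_prop
    have hb : ∀ y : ℝ × ℝ, Continuous fun x => bf A x y := by
      intro y; unfold bf; fun_prop
    have c1 : Continuous fun m : R6 => |qf A m.1 - s' 0| :=
      ((hq.comp continuous_fst).sub continuous_const).abs
    have c2 : Continuous fun m : R6 => |qf A m.2.1 - s' 1| :=
      ((hq.comp (continuous_fst.comp continuous_snd)).sub continuous_const).abs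
    have c3 : Continuous fun m : R6 => |qf A m.2.2 - s' 2| :=
      ((hq.comp (continuous_snd.comp continuous_snd)).sub continuous_const).abs
    have d1 : Continuous fun m : R6 => bf A m.1 (h 0) := (hb _).comp continuous_fst
    have d2 : Continuous fun m : R6 => bf A m.2.1 (h 1) :=
      (hb _).comp (continuous_fst.comp continuous_snd)
    have d3 : Continuous fun m : R6 => bf A m.2.2 (h 2) :=
      (hb _).comp (continuous_snd.comp continuous_snd)
    exact (((isClosed_le c1 continuous_const).inter ((isClosed_le c2 continuous_const).inter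
      (isClosed_le c3 continuous_const))).inter ((isClosed_le d1.abs continuous_const).inter
      ((isClosed_le (d2.sub d1).abs continuous_const).inter
      (isClosed_le (d3.sub d1).abs continuous_const)))).measurableSet
  set S : Set (ℝ × ℝ) := {x | |qf A x - s' 0| ≤ 1 ∧ |bf A x (h 0)| ≤ R} with hS
  have hSm : MeasurableSet S := by
    have hq : Continuous (qf A) := by unfold qf; fun_prop
    have hb : Continuous fun x => bf A x (h 0) := by unfold bf; fun_prop
    exact ((isClosed_le (hq.sub continuous_const).abs continuous_const).inter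
      (isClosed_le hb.abs continuous_const)).measurableSet
  have hSv : volume S ≤ ENNReal.ofReal (16 * M * R / (Real.sqrt s * Real.sqrt (qf A (h 0)))) :=
    (strip_ann hM hA zero_le_one (hs'0 0) hR (hh 0)).trans (hmono 0 R hR)
  rw [Measure.volume_eq_prod, Measure.prod_apply hFm]
  calc ∫⁻ x : ℝ × ℝ, volume (Prod.mk x ⁻¹' F)
      ≤ ∫⁻ x in S, (ENNReal.ofReal (16 * M * P / (Real.sqrt s * Real.sqrt (qf A (h 1)))) *
          ENNReal.ofReal (16 * M * P / (Real.sqrt s * Real.sqrt (qf A (h 2))))) := by
        rw [← lintegral_indicator hSm]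
        refine lintegral_mono fun x => ?_
        by_cases hx : x ∈ S
        · rw [Set.indicator_of_mem hx]
          obtain ⟨t, ht⟩ : ∃ t, t = bf A x (h 0) := ⟨_, rfl⟩
          have htR : |t| ≤ R := by rw [ht]; exact hx.2
          have hstep : ∀ l, 2 * ((R + P) / Real.sqrt (qf A (h l))) ^ 2 ≤ s →
              2 * ((|t| + P) / Real.sqrt (qf A (h l))) ^ 2 ≤ s' l := by
            intro l hl
            have h1 : (|t| + P) / Real.sqrt (qf A (h l)) ≤ (R + P) / Real.sqrt (qf A (h l)) :=
              div_le_div_of_nonneg_right (by linarith) (hq0 l).le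
            have h2 : 0 ≤ (|t| + P) / Real.sqrt (qf A (h l)) :=
              div_nonneg (by positivity) (hq0 l).le
            have h3 := pow_le_pow_left₀ h2 h1 2
            linarith [hs' l]
          have a1 := (strip_ann' hM hA zero_le_one (hs'0 1) hP (hh 1) (hstep 1 hc1)).trans
            (hmono 1 P hP)
          have a2 := (strip_ann' hM hA zero_le_one (hs'0 2) hP (hh 2) (hstep 2 hc2)).trans
            (hmono 2 P hP)
          refine le_trans ?_ (mul_le_mul' a1 a2)
          rw [← Measure.prod_prod]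
          refine measure_mono fun y hy => ?_
          obtain ⟨⟨_, h2, h3⟩, _, h5, h6⟩ := hy
          rw [← ht] at h5 h6
          exact ⟨⟨h2, h5⟩, ⟨h3, h6⟩⟩
        · rw [Set.indicator_of_notMem hx]
          have : (Prod.mk x ⁻¹' F) = ∅ := by
            rw [Set.eq_empty_iff_forall_notMem]
            intro y hy
            exact hx ⟨hy.1.1, hy.2.1⟩
          rw [this, measure_empty]
    _ = ENNReal.ofReal (16 * M * P / (Real.sqrt s * Real.sqrt (qf A (h 1)))) *
          ENNReal.ofReal (16 * M * P / (Real.sqrt s * Real.sqrt (qf A (h 2)))) * volume S := by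
        rw [setLIntegral_const]
    _ ≤ ENNReal.ofReal (16 * M * P / (Real.sqrt s * Real.sqrt (qf A (h 1)))) *
          ENNReal.ofReal (16 * M * P / (Real.sqrt s * Real.sqrt (qf A (h 2)))) *
          ENNReal.ofReal (16 * M * R / (Real.sqrt s * Real.sqrt (qf A (h 0)))) :=
        mul_le_mul' le_rfl hSv
    _ = _ := by
        have p0 := hq0 0
        have p1 := hq0 1
        have p2 := hq0 2
        rw [← ENNReal.ofReal_mul (by positivity), ← ENNReal.ofReal_mul (by positivity)]
        congr 1
        field_simp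

/-- rotation of the three components -/
def rot (x : R6) : R6 := (x.2.1, x.2.2, x.1)

theorem mp_rot : MeasurePreserving rot (volume : Measure R6) volume := by
  have h1 : MeasurePreserving (Prod.swap : (ℝ × ℝ) × ((ℝ × ℝ) × (ℝ × ℝ)) → _)
      (volume.prod volume) (volume.prod volume) := Measure.measurePreserving_swap
  have h2 : MeasurePreserving (MeasurableEquiv.prodAssoc : ((ℝ × ℝ) × (ℝ × ℝ)) × (ℝ × ℝ) ≃ᵐ _)
      ((volume.prod volume).prod volume) (volume.prod (volume.prod volume)) :=
    measurePreserving_prodAssoc _ _ _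
  exact h2.comp h1

end Pool.Agent.Helper96_DZ
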