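import Pool.Agent.Helper96_DZ.VolA

/-!
MP_f5cbfa_nt (helper96), row VOL: the volume for one form, with the three positions of the small
difference, and the transfer to the region `Lev`.
-/

set_option autoImplicit false

open MeasureTheory Set

namespace Pool.Agent.Helper96_DZ

open Pool.Agent.BTL Pool.Agent.F5S Pool.Agent.Helper30_FC Pool.Agent.F5H
open Pool.Agent.Helper48_F5 (bl)

/-- the triples of points for one form -/
def GG (T P R : ℝ) (h : R6) (A : ℝ × ℝ × ℝ) (m : R6) : Prop :=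
  (∀ l, |qf A (t3 m l) + qf A (t3 h l) / 4 - T ^ 2| ≤ 1) ∧
  (∀ i j, |bl A (t3 m i) (t3 h i) - bl A (t3 m j) (t3 h j)| ≤ P) ∧
  ∀ i, |bl A (t3 m i) (t3 h i)| ≤ R

theorem t3_rot (x : R6) (l : Fin 3) : t3 (rot x) l = t3 x (l + 1) := by
  fin_cases l <;> rfl

theorem GG_rot (T P R : ℝ) (h : R6) (A : ℝ × ℝ × ℝ) (m : R6) :
    GG T P R (rot h) A (rot m) ↔ GG T P R h A m := by
  have hs : Function.Surjective (fun l : Fin 3 => l + 1) := (Equiv.addRight (1 : Fin 3)).surjective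
  unfold GG
  simp only [t3_rot]
  constructor
  · rintro ⟨h1, h2, h3⟩
    refine ⟨fun l => ?_, fun i j => ?_, fun i => ?_⟩
    · obtain ⟨l', rfl⟩ := hs l
      exact h1 l'
    · obtain ⟨i', rfl⟩ := hs i
      obtain ⟨j', rfl⟩ := hs j
      exact h2 i' j'
    · obtain ⟨i', rfl⟩ := hs i
      exact h3 i'
  · rintro ⟨h1, h2, h3⟩
    exact ⟨fun l => h1 _, fun i j => h2 _ _, fun i => h3 _⟩

theorem continuous_t3 (l : Fin 3) : Continuous fun m : R6 => t3 m l := by
  fin_cases l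
  · exact continuous_fst
  · exact continuous_fst.comp continuous_snd
  · exact continuous_snd.comp continuous_snd

theorem isClosed_GG (T P R : ℝ) (h : R6) :
    IsClosed {z : (ℝ × ℝ × ℝ) × R6 | GG T P R h z.1 z.2} := by
  have hq : ∀ l, Continuous fun z : (ℝ × ℝ × ℝ) × R6 => qf z.1 (t3 z.2 l) + qf z.1 (t3 h l) / 4 := by
    intro l
    have h1 := (continuous_t3 l).comp (continuous_snd (X := ℝ × ℝ × ℝ) (Y := R6))
    have h2 : Continuous fun w : (ℝ × ℝ × ℝ) × (ℝ × ℝ) => qf w.1 w.2 + qf w.1 (t3 h l) / 4 := by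
      unfold qf
      fun_prop
    exact h2.comp (continuous_fst.prodMk h1)
  have hb : ∀ l, Continuous fun z : (ℝ × ℝ × ℝ) × R6 => bl z.1 (t3 z.2 l) (t3 h l) := by
    intro l
    have h1 := (continuous_t3 l).comp (continuous_snd (X := ℝ × ℝ × ℝ) (Y := R6))
    have h2 : Continuous fun w : (ℝ × ℝ × ℝ) × (ℝ × ℝ) => bl w.1 w.2 (t3 h l) := by
      unfold bl
      fun_prop
    exact h2.comp (continuous_fst.prodMk h1)
  have e : {z : (ℝ × ℝ × ℝ) × R6 | GG T P R h z.1 z.2} =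
      (⋂ l, {z | |qf z.1 (t3 z.2 l) + qf z.1 (t3 h l) / 4 - T ^ 2| ≤ 1}) ∩
      ((⋂ i, ⋂ j, {z | |bl z.1 (t3 z.2 i) (t3 h i) - bl z.1 (t3 z.2 j) (t3 h j)| ≤ P}) ∩
      ⋂ i, {z | |bl z.1 (t3 z.2 i) (t3 h i)| ≤ R}) := by
    ext z
    simp only [GG, Set.mem_ofPred_eq, Set.mem_inter_iff, Set.mem_iInter]
  rw [e]
  refine (isClosed_iInter fun l => ?_).inter ((isClosed_iInter fun i => isClosed_iInter fun j => ?_).inter
    (isClosed_iInter fun i => ?_))
  · exact isClosed_le ((hq l).sub continuous_const).abs continuous_const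
  · exact isClosed_le ((hb i).sub (hb j)).abs continuous_const
  · exact isClosed_le (hb i).abs continuous_const

theorem measurableSet_GG (T P R : ℝ) (h : R6) (A : ℝ × ℝ × ℝ) :
    MeasurableSet {m : R6 | GG T P R h A m} :=
  measurable_prodMk_left (isClosed_GG T P R h).measurableSet

theorem vol_rot (T P R : ℝ) (h : R6) (A : ℝ × ℝ × ℝ) :
    volume {m : R6 | GG T P R h A m} = volume {m : R6 | GG T P R (rot h) A m} := by
  rw [← mp_rot.measure_preimage (measurableSet_GG T P R (rot h) A).nullMeasurableSet]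
  congr 1
  ext m
  exact (GG_rot T P R h A m).symm

theorem vol_GG0 {M : ℝ} (hM : 1 ≤ M) {A : ℝ × ℝ × ℝ} (hA : A ∈ KM M) {T P R : ℝ} (hT : 1 ≤ T)
    (hP : 0 ≤ P) (hR : 0 ≤ R) {h : R6} (hh : ∀ l, 0 < qf A (t3 h l))
    (hl : ∀ l, qf A (t3 h l) ≤ 2 * T ^ 2)
    (hc : ∀ l, l ≠ 0 → 2 * ((R + P) / Real.sqrt (qf A (t3 h l))) ^ 2 ≤ T ^ 2 / 2) :
    volume {m : R6 | GG T P R h A m} ≤
      ENNReal.ofReal ((16 * M) ^ 3 * (R * P ^ 2) / ((T / 2) ^ 3 *
        ∏ l, Real.sqrt (qf A (t3 h l)))) := by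
  have hT0 : 0 < T := by linarith
  have hb : ∀ x y : ℝ × ℝ, bl A x y = bf A x y := by
    intro x y
    simp only [bl, bf]
    ring
  have h1 := box3 hM hA (P := P) (R := R) (s := T ^ 2 / 2) (s' := fun l => T ^ 2 - qf A (t3 h l) / 4)
    (h := t3 h) hP hR (by positivity) (fun l => by linarith [hl l]) hh (hc 1 (by decide))
    (hc 2 (by decide))
  refine (measure_mono ?_).trans (h1.trans (ENNReal.ofReal_le_ofReal ?_))
  · intro m hm
    obtain ⟨a1, a2, a3⟩ := hm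
    refine ⟨⟨?_, ?_, ?_⟩, ?_, ?_, ?_⟩
    · have := a1 0
      rwa [show qf A (t3 m 0) + qf A (t3 h 0) / 4 - T ^ 2 = qf A m.1 - (T ^ 2 - qf A (t3 h 0) / 4) by
        change qf A m.1 + qf A (t3 h 0) / 4 - T ^ 2 = _
        ring] at this
    · have := a1 1
      rwa [show qf A (t3 m 1) + qf A (t3 h 1) / 4 - T ^ 2 =
        qf A m.2.1 - (T ^ 2 - qf A (t3 h 1) / 4) by
        change qf A m.2.1 + qf A (t3 h 1) / 4 - T ^ 2 = _
        ring] at this
    · have := a1 2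
      rwa [show qf A (t3 m 2) + qf A (t3 h 2) / 4 - T ^ 2 =
        qf A m.2.2 - (T ^ 2 - qf A (t3 h 2) / 4) by
        change qf A m.2.2 + qf A (t3 h 2) / 4 - T ^ 2 = _
        ring] at this
    · have := a3 0
      rwa [hb] at this
    · have := a2 1 0
      rwa [hb, hb] at this
    · have := a2 2 0
      rwa [hb, hb] at this
  · have p : ∀ l, 0 < Real.sqrt (qf A (t3 h l)) := fun l => Real.sqrt_pos.mpr (hh l)
    have p0 := p 0
    have p1 := p 1
    have p2 := p 2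
    rw [Fin.prod_univ_three]
    have hM0 : 0 < M := by linarith
    refine div_le_div_of_nonneg_left (by positivity) (by positivity) ?_
    refine mul_le_mul_of_nonneg_right ?_ (by positivity)
    refine pow_le_pow_left₀ (by positivity) ?_ 3
    apply Real.le_sqrt_of_sq_le
    nlinarith

theorem vol_GG {M : ℝ} (hM : 1 ≤ M) {A : ℝ × ℝ × ℝ} (hA : A ∈ KM M) {T P R : ℝ} (hT : 1 ≤ T)
    (hP : 0 ≤ P) (hR : 0 ≤ R) {h : R6} (hh : ∀ l, 0 < qf A (t3 h l))
    (hl : ∀ l, qf A (t3 h l) ≤ 2 * T ^ 2) (k : Fin 3)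
    (hc : ∀ l, l ≠ k → 2 * ((R + P) / Real.sqrt (qf A (t3 h l))) ^ 2 ≤ T ^ 2 / 2) :
    volume {m : R6 | GG T P R h A m} ≤
      ENNReal.ofReal ((16 * M) ^ 3 * (R * P ^ 2) / ((T / 2) ^ 3 *
        ∏ l, Real.sqrt (qf A (t3 h l)))) := by
  have hprod : ∀ h : R6, ∏ l, Real.sqrt (qf A (t3 (rot h) l)) = ∏ l, Real.sqrt (qf A (t3 h l)) := by
    intro h
    simp only [t3_rot]
    exact Fintype.prod_equiv (Equiv.addRight (1 : Fin 3)) _ _ fun _ => rfl
  fin_cases k
  · exact vol_GG0 hM hA hT hP hR hh hl hc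
  · rw [vol_rot]
    refine (vol_GG0 hM hA hT hP hR (fun l => ?_) (fun l => ?_) fun l hl0 => ?_).trans ?_
    · rw [t3_rot]
      exact hh _
    · rw [t3_rot]
      exact hl _
    · rw [t3_rot]
      refine hc _ fun h0 => hl0 ?_
      have : l + 1 = 0 + 1 := h0
      exact add_right_cancel this
    · rw [hprod]
  · rw [vol_rot, vol_rot]
    refine (vol_GG0 hM hA hT hP hR (fun l => ?_) (fun l => ?_) fun l hl0 => ?_).trans ?_
    · rw [t3_rot, t3_rot]
      exact hh _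
    · rw [t3_rot, t3_rot]
      exact hl _
    · rw [t3_rot, t3_rot]
      refine hc _ fun h0 => hl0 ?_
      have : l + 1 + 1 = 0 + 1 + 1 := h0
      exact add_right_cancel (add_right_cancel this)
    · rw [hprod, hprod]

end Pool.Agent.Helper96_DZ
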