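import Pool.Agent.Helper96_DZ.VolB
import Pool.Agent.BTL.Transl
import Pool.Agent.BTL.Pvar
import Pool.Agent.Helper48_F5.Est

/-!
MP_f5cbfa_nt (helper96), row VOL: the volume of the region `Lev` for one difference.
-/

set_option autoImplicit false

open MeasureTheory Set

namespace Pool.Agent.Helper96_DZ

open Pool.Agent.BTL Pool.Agent.F5S Pool.Agent.Helper30_FC Pool.Agent.F5H
open Pool.Agent.Helper48_F5 (bl Zf Ff AW ok_of_reg AW_Zf blb bl_self bl_sub_form abs_bl_le AW_sub)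

/-- `T` is large -/
structure Big (T : ℝ) : Prop where
  hT : 1 ≤ T
  hP : 1 ≤ Px T
  hR : 1 ≤ Rx T
  hL : 1 ≤ Lx T
  c1 : 10 ^ 6 * Px T ^ 4 * Lx T ^ 2 ≤ T ^ 2
  c2 : 10 ^ 6 * Px T ^ 4 * Rx T ^ 2 ≤ (T ^ (677 / 2000 : ℝ)) ^ 2 * T ^ 2

theorem big_of_large : ∃ T0 : ℝ, 1 ≤ T0 ∧ ∀ T : ℝ, T0 ≤ T → Big T := by
  obtain ⟨S, hS⟩ : ∃ S : ℝ, S = 10 ^ 6 := ⟨_, rfl⟩
  have hS1 : 1 ≤ S := by rw [hS]; norm_num
  refine ⟨S ^ 2000, one_le_pow₀ hS1, ?_⟩
  intro T hT
  have hT1 : 1 ≤ T := le_trans (one_le_pow₀ hS1) hT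
  have hT0 : 0 < T := by linarith
  have hST : S ≤ T ^ (1 / 2000 : ℝ) := by
    have h2 : S = (S ^ 2000) ^ (1 / 2000 : ℝ) := by
      rw [← Real.rpow_natCast, ← Real.rpow_mul (by linarith)]
      norm_num
    rw [h2]
    exact Real.rpow_le_rpow (by positivity) hT (by norm_num)
  have hr0 := rho0_pos
  have hr1 : rho0 ≤ 1 / 1000000 := by unfold rho0; norm_num
  have e1 : Px T ^ 4 = T ^ (rho0 / 2500) := by
    unfold Px
    rw [← Real.rpow_natCast, ← Real.rpow_mul hT0.le]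
    congr 1
    push_cast
    ring
  have e2 : Lx T ^ 2 = T ^ (277 / 250 : ℝ) := by
    unfold Lx
    rw [← Real.rpow_natCast, ← Real.rpow_mul hT0.le]
    congr 1
    norm_num
  have e3 : Rx T ^ 2 = T ^ (669 / 250 + 4 * rho0) := by
    unfold Rx
    rw [← Real.rpow_natCast, ← Real.rpow_mul hT0.le]
    congr 1
    push_cast
    ring
  have e4 : (T ^ (677 / 2000 : ℝ)) ^ 2 * T ^ 2 = T ^ (2677 / 1000 : ℝ) := by
    have h1 : T ^ 2 = T ^ (2 : ℝ) := by
      rw [← Real.rpow_natCast]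
      norm_num
    rw [h1, ← Real.rpow_natCast, ← Real.rpow_mul hT0.le, ← Real.rpow_add hT0]
    congr 1
    norm_num
  refine ⟨hT1, Real.one_le_rpow hT1 (by positivity), Real.one_le_rpow hT1 (by positivity),
    Real.one_le_rpow hT1 (by norm_num), ?_, ?_⟩
  · have h1 : T ^ 2 = T ^ (2 : ℝ) := by
      rw [← Real.rpow_natCast]
      norm_num
    rw [e1, e2, h1, ← hS]
    calc S * T ^ (rho0 / 2500) * T ^ (277 / 250 : ℝ) ≤
        T ^ (1 / 2000 : ℝ) * T ^ (rho0 / 2500) * T ^ (277 / 250 : ℝ) := by gcongr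
      _ = T ^ (1 / 2000 + rho0 / 2500 + 277 / 250) := by
        rw [← Real.rpow_add hT0, ← Real.rpow_add hT0]
      _ ≤ T ^ (2 : ℝ) := Real.rpow_le_rpow_of_exponent_le hT1 (by linarith)
  · rw [e1, e3, e4, ← hS]
    calc S * T ^ (rho0 / 2500) * T ^ (669 / 250 + 4 * rho0) ≤
        T ^ (1 / 2000 : ℝ) * T ^ (rho0 / 2500) * T ^ (669 / 250 + 4 * rho0) := by gcongr
      _ = T ^ (1 / 2000 + rho0 / 2500 + (669 / 250 + 4 * rho0)) := by
        rw [← Real.rpow_add hT0, ← Real.rpow_add hT0]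
      _ ≤ T ^ (2677 / 1000 : ℝ) := Real.rpow_le_rpow_of_exponent_le hT1 (by linarith)

theorem norm_t3_le (h : R6) (l : Fin 3) : ‖t3 h l‖ ≤ ‖h‖ := by
  fin_cases l
  · exact norm_fst_le h
  · exact (norm_fst_le h.2).trans (norm_snd_le h)
  · exact (norm_snd_le h.2).trans (norm_snd_le h)

theorem Big.small {T : ℝ} (hb : Big T) : 24 * Px T ≤ T ^ 2 ∧ 864 * Px T * Lx T ^ 2 ≤ T ^ 2 ∧
    36 * Lx T ^ 2 ≤ T ^ 2 ∧ 6 * (6 * Px T) ^ 4 * (6 * Lx T) ^ 2 ≤ T ^ 2 := by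
  have h1 := hb.c1
  have hP := hb.hP
  have hL : 1 ≤ Lx T ^ 2 := one_le_pow₀ hb.hL
  have hP4 : Px T ≤ Px T ^ 4 := by
    have : 1 ≤ Px T ^ 3 := one_le_pow₀ hP
    nlinarith
  have h2 : Px T * Lx T ^ 2 ≤ Px T ^ 4 * Lx T ^ 2 := mul_le_mul_of_nonneg_right hP4 (by linarith)
  have h3 : Px T * 1 ≤ Px T * Lx T ^ 2 := mul_le_mul_of_nonneg_left hL (by linarith)
  have h4 : 1 * Lx T ^ 2 ≤ Px T * Lx T ^ 2 := mul_le_mul_of_nonneg_right hP (by linarith)
  refine ⟨by nlinarith, by nlinarith, by nlinarith, ?_⟩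
  have e : 6 * (6 * Px T) ^ 4 * (6 * Lx T) ^ 2 = 279936 * (Px T ^ 4 * Lx T ^ 2) := by ring
  rw [e]
  nlinarith

/-- near the form of `(h, m)` all forms are good -/
theorem lev_GG {T : ℝ} (hb : Big T) {h m : R6} (hm : Lev 6 T h m) {A : ℝ × ℝ × ℝ}
    (hA : ‖A - Zf T (t3 m) (t3 h)‖ ≤ 1 / (200 * T ^ 2)) :
    A ∈ KM (12 * Px T) ∧ GG T (12 * Px T) (12 * Px T * Rx T) h A m := by
  obtain ⟨s1, s2, s3, s4⟩ := hb.small
  have hT := hb.hT
  have hT0 : 0 < T := by linarith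
  have hP := hb.hP
  have hR := hb.hR
  have hL := hb.hL
  have hT2 : 0 < T ^ 2 := by positivity
  obtain ⟨Z, hZ⟩ : ∃ Z, Z = Zf T (t3 m) (t3 h) := ⟨_, rfl⟩
  rw [← hZ] at hA
  obtain ⟨E, hE⟩ : ∃ E, E = A - Z := ⟨_, rfl⟩
  rw [← hE] at hA
  have hLT : 6 * Lx T ≤ T := by
    nlinarith [sq_nonneg (6 * Lx T - T), sq_nonneg (6 * Lx T + T)]
  have hhl : ∀ l, ‖t3 h l‖ ≤ 6 * Lx T := fun l => (norm_t3_le h l).trans hm.hh
  have hok := ok_of_reg (P := 6 * Px T) (T := T) (V := 6 * Lx T) (m := t3 m) (h := t3 h)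
    (by linarith) hT0 s4 ⟨fun l => (hm.hm l).trans (by nlinarith), fun i j hij => hm.hd i j hij,
      hhl⟩
  have hAW := fun l => AW_Zf hok l
  rw [← hZ] at hAW
  have hE0 : 0 ≤ ‖E‖ := norm_nonneg _
  have hE1 : 200 * (‖E‖ * T ^ 2) ≤ 1 := by
    have := mul_le_mul_of_nonneg_right hA (show 0 ≤ 200 * T ^ 2 by positivity)
    rw [one_div, inv_mul_cancel₀ (by positivity)] at this
    linarith
  have hbE : ∀ l, |bl E (t3 m l) (t3 h l)| ≤ 1 := by
    intro l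
    have h1 := blb (le_refl ‖E‖) (hm.hm l) (hhl l)
    refine h1.trans ?_
    have h2 : ‖E‖ * (T * (6 * Lx T)) ≤ ‖E‖ * (T * T) :=
      mul_le_mul_of_nonneg_left (mul_le_mul_of_nonneg_left hLT hT0.le) hE0
    nlinarith
  have hAE : A = E + Z := by rw [hE]; ring
  refine ⟨?_, ?_, ?_, ?_⟩
  · have h1 : A - E ∈ KM (6 * Px T) := by
      rw [hAE, add_sub_cancel_left, hZ]
      exact hm.hZ
    have h2 := Transl.mem_KM2 (M := 6 * Px T) (by linarith) hA (by
      refine div_le_div_of_nonneg_left zero_le_one (by positivity) ?_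
      nlinarith) h1
    have e : 2 * (6 * Px T) = 12 * Px T := by ring
    rwa [e] at h2
  · intro l
    have h1 := hAW l
    have h2 := blb (le_refl ‖E‖) (hm.hm l) (hm.hm l)
    have h3 := blb (le_refl ‖E‖) (hhl l) (hhl l)
    rw [bl_self] at h2 h3
    have e : qf A (t3 m l) + qf A (t3 h l) / 4 - T ^ 2 = qf E (t3 m l) + qf E (t3 h l) / 4 := by
      rw [← h1]
      simp only [AW]
      rw [hAE]
      simp only [qf, Prod.fst_add, Prod.snd_add]
      ring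
    rw [e]
    have h5 : ‖E‖ * (6 * Lx T) * (6 * Lx T) ≤ ‖E‖ * T ^ 2 := by
      have : (6 * Lx T) * (6 * Lx T) ≤ T ^ 2 := by nlinarith
      calc ‖E‖ * (6 * Lx T) * (6 * Lx T) = ‖E‖ * ((6 * Lx T) * (6 * Lx T)) := by ring
        _ ≤ _ := mul_le_mul_of_nonneg_left this hE0
    calc |qf E (t3 m l) + qf E (t3 h l) / 4| ≤ |qf E (t3 m l)| + |qf E (t3 h l) / 4| :=
          abs_add_le _ _
      _ = |qf E (t3 m l)| + |qf E (t3 h l)| / 4 := by rw [abs_div]; norm_num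
      _ ≤ 1 := by nlinarith
  · intro i j
    have h1 := hm.hF i j
    have e : ∀ l, bl A (t3 m l) (t3 h l) = bl E (t3 m l) (t3 h l) + Ff T (t3 m) (t3 h) l := by
      intro l
      rw [hAE]
      unfold Ff
      rw [← hZ]
      simp only [bl, Prod.fst_add, Prod.snd_add]
      ring
    rw [e i, e j]
    have h2 := hbE i
    have h3 := hbE j
    rw [abs_le] at h1 h2 h3 ⊢
    constructor <;> linarith [h1.1, h1.2, h2.1, h2.2, h3.1, h3.2]
  · intro i
    have h1 := hm.hR i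
    have e : bl A (t3 m i) (t3 h i) = bl E (t3 m i) (t3 h i) + Ff T (t3 m) (t3 h) i := by
      rw [hAE]
      unfold Ff
      rw [← hZ]
      simp only [bl, Prod.fst_add, Prod.snd_add]
      ring
    rw [e]
    have h2 := hbE i
    have h3 : 1 ≤ Px T * Rx T := one_le_mul_of_one_le_of_one_le hP hR
    calc |bl E (t3 m i) (t3 h i) + Ff T (t3 m) (t3 h) i| ≤
        |bl E (t3 m i) (t3 h i)| + |Ff T (t3 m) (t3 h) i| := abs_add_le _ _
      _ ≤ 1 + 6 * Px T * Rx T := add_le_add h2 h1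
      _ ≤ 12 * Px T * Rx T := by nlinarith

theorem vol_ball3 (Z : ℝ × ℝ × ℝ) {d : ℝ} (hd : 0 ≤ d) :
    volume (Metric.closedBall Z d) = ENNReal.ofReal ((2 * d) ^ 3) := by
  have e : Metric.closedBall Z d = Metric.closedBall Z.1 d ×ˢ (Metric.closedBall Z.2.1 d ×ˢ
      Metric.closedBall Z.2.2 d) := by
    rw [closedBall_prod_same, closedBall_prod_same]
  rw [e, Measure.volume_eq_prod, Measure.prod_prod, Measure.volume_eq_prod, Measure.prod_prod,
    Real.volume_closedBall, Real.volume_closedBall, Real.volume_closedBall,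
    ← ENNReal.ofReal_mul (by positivity), ← ENNReal.ofReal_mul (by positivity)]
  congr 1
  ring

/-- Markov and Tonelli -/
theorem vol_lev_le {T : ℝ} (hb : Big T) (h : R6) {X : ℝ} (hX : 0 ≤ X)
    (hv : ∀ A ∈ KM (12 * Px T), volume {m : R6 | GG T (12 * Px T) (12 * Px T * Rx T) h A m} ≤
      ENNReal.ofReal X) :
    volume {m : R6 | Lev 6 T h m} ≤
      ENNReal.ofReal (10 ^ 6 * T ^ 6 * (X * (8 * (12 * Px T) ^ 3))) := by
  have hT := hb.hT
  have hT0 : 0 < T := by linarith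
  have hP := hb.hP
  obtain ⟨M, hM⟩ : ∃ M, M = 12 * Px T := ⟨_, rfl⟩
  have hM1 : 1 ≤ M := by rw [hM]; linarith
  obtain ⟨ε, hε⟩ : ∃ ε, ε = (2 * (1 / (200 * T ^ 2))) ^ 3 := ⟨_, rfl⟩
  have hε0 : 0 < ε := by rw [hε]; positivity
  obtain ⟨G, hG⟩ : ∃ G : Set ((ℝ × ℝ × ℝ) × R6),
    G = {z | z.1 ∈ KM M ∧ GG T M (M * Rx T) h z.1 z.2} := ⟨_, rfl⟩
  have hGm : MeasurableSet G := by
    rw [hG]
    exact (measurable_fst (measurableSet_KM M)).inter (isClosed_GG T M (M * Rx T) h).measurableSet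
  obtain ⟨f, hf⟩ : ∃ f : R6 → ENNReal, f = fun m => volume ((fun A => (A, m)) ⁻¹' G) := ⟨_, rfl⟩
  have hfm : Measurable f := by
    rw [hf]
    exact measurable_measure_prodMk_right hGm
  have h1 : volume {m : R6 | Lev 6 T h m} ≤ volume {m | ENNReal.ofReal ε ≤ f m} := by
    refine measure_mono fun m hm => ?_
    change ENNReal.ofReal ε ≤ f m
    rw [hε, ← vol_ball3 (Zf T (t3 m) (t3 h)) (by positivity), hf]
    refine measure_mono fun A hA => ?_
    rw [Metric.mem_closedBall, dist_eq_norm] at hA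
    have := lev_GG hb hm hA
    change (A, m) ∈ G
    rw [hG, hM]
    exact this
  have h2 : ENNReal.ofReal ε * volume {m | ENNReal.ofReal ε ≤ f m} ≤ ∫⁻ m, f m :=
    mul_meas_ge_le_lintegral hfm _
  have h3 : ∫⁻ m, f m = ∫⁻ A, volume (Prod.mk A ⁻¹' G) := by
    have a1 := Measure.prod_apply (μ := (volume : Measure (ℝ × ℝ × ℝ))) (ν := (volume : Measure R6)) hGm
    have a2 := Measure.prod_apply_symm (μ := (volume : Measure (ℝ × ℝ × ℝ)))
      (ν := (volume : Measure R6)) hGm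
    rw [hf]
    exact a2.symm.trans a1
  have h4 : ∫⁻ A, volume (Prod.mk A ⁻¹' G) ≤ ∫⁻ A in KM M, ENNReal.ofReal X := by
    rw [← lintegral_indicator (measurableSet_KM M)]
    refine lintegral_mono fun A => ?_
    by_cases hA : A ∈ KM M
    · rw [Set.indicator_of_mem hA]
      rw [hM] at hA
      refine (measure_mono fun m hm => ?_).trans (hv A hA)
      have h5 : (A, m) ∈ G := hm
      rw [hG, hM] at h5
      exact h5.2
    · rw [Set.indicator_of_notMem hA]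
      have : (Prod.mk A ⁻¹' G) = ∅ := by
        rw [Set.eq_empty_iff_forall_notMem]
        intro m hm
        have h5 : (A, m) ∈ G := hm
        rw [hG] at h5
        exact hA h5.1
      rw [this, measure_empty]
  have h5 : ∫⁻ _A in KM M, ENNReal.ofReal X ≤ ENNReal.ofReal (X * (8 * M ^ 3)) := by
    rw [setLIntegral_const, ENNReal.ofReal_mul hX]
    exact mul_le_mul' le_rfl (Pvar.vol_KM hM1)
  have h6 : ENNReal.ofReal ε * volume {m : R6 | Lev 6 T h m} ≤ ENNReal.ofReal (X * (8 * M ^ 3)) :=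
    (mul_le_mul' le_rfl h1).trans (h2.trans (h3.le.trans (h4.trans h5)))
  have h7 : volume {m : R6 | Lev 6 T h m} =
      ENNReal.ofReal ε⁻¹ * (ENNReal.ofReal ε * volume {m : R6 | Lev 6 T h m}) := by
    rw [← mul_assoc, ← ENNReal.ofReal_mul (by positivity), inv_mul_cancel₀ hε0.ne',
      ENNReal.ofReal_one, one_mul]
  rw [h7]
  refine (mul_le_mul' le_rfl h6).trans (le_of_eq ?_)
  rw [← ENNReal.ofReal_mul (by positivity), ← hM]
  congr 1
  rw [hε]
  field_simp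
  ring

end Pool.Agent.Helper96_DZ
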